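import Mathlib
import Pool.Agent.Helper13.Bsd.Euler

/-!
# The bounded correction of `log P_E`: definitions

`c1`, `c2` are the coefficients of `X = p^{-w}` and `X ^ 2` that are moved from the Euler factors to the product:
for good `p ≥ 1024`, `c1 p = ℓ_p + α_p`, `c2 p = α_p² / 2 - 1 / p`, with `ℓ_p = log (N_p / p)`, `α_p = a_p / p`;
for good `p < 1024`, `c1 p = ℓ_p`, `c2 p = 0`; both are `0` for bad `p`.

`ee t = ∑_{p < e^t} c1 p + ∑_{p < e^{t/2}} c2 p`.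
-/

namespace Pool.Agent.Helper58.BSD

open Complex Pool.Agent.Helper13.Bsd

/-- `∑_{p < n} c p` over primes -/
noncomputable def psum (c : ℕ → ℝ) (n : ℕ) : ℝ := ∑ p ∈ (Finset.range n).filter Nat.Prime, c p

section

variable (N : ℕ → ℕ) (bad : ℕ → Prop) [DecidablePred bad]

/-- coefficient of `p^{-w}` -/
noncomputable def c1 (p : ℕ) : ℝ :=
  if bad p then 0 else if p < 1024 then ell N p else ell N p + alp N p

/-- coefficient of `p^{-2w}` -/
noncomputable def c2 (p : ℕ) : ℝ := if bad p ∨ p < 1024 then 0 else alp N p ^ 2 / 2 - (p : ℝ)⁻¹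

/-- the bounded correction -/
noncomputable def ee (t : ℝ) : ℝ :=
  psum (c1 N bad) ⌈Real.exp t⌉₊ + psum (c2 N bad) ⌈Real.exp (t / 2)⌉₊

/-- the cubic remainder of the logarithm of an Euler factor -/
noncomputable def rterm (p : ℕ) (w : ℂ) : ℂ :=
  if bad p ∨ p < 1024 then 0 else
    -log (1 - zz N p w) - (alp N p : ℂ) * (p : ℂ) ^ (-w)
      - ((alp N p ^ 2 / 2 - (p : ℝ)⁻¹ : ℝ) : ℂ) * ((p : ℂ) ^ (-w)) ^ 2

/-- sum of the cubic remainders -/
noncomputable def Rf (w : ℂ) : ℂ := ∑' p : Nat.Primes, rterm N bad p w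

/-- `F(1+w)` corrected by small factors and the cubic remainders: holomorphic in `Re w > -1/100` -/
noncomputable def GG (F : ℂ → ℂ) (w : ℂ) : ℂ := Gf N bad F w * cexp (-Rf N bad w)

/-- the constant `∑_p (c1 p + c2 p)` -/
noncomputable def E0 : ℝ := ∑' p : Nat.Primes, (c1 N bad p + c2 N bad p)

end

/-- the hypotheses on `N` that are used: `1 ≤ N_p ≤ 2 p + 1` and `|a_p| ≤ 14 √p` -/
structure NHyp (N : ℕ → ℕ) : Prop where
  one_le : ∀ p : ℕ, p.Prime → 1 ≤ N p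
  le : ∀ p : ℕ, p.Prime → N p ≤ 2 * p + 1
  bd : ∀ p : ℕ, p.Prime → |(p : ℝ) + 1 - N p| ≤ 14 * Real.sqrt p

/-- the Euler product, for an arbitrary set of bad primes -/
def EulerB (N : ℕ → ℕ) (bad : ℕ → Prop) [DecidablePred bad] (F : ℂ → ℂ) : Prop :=
  ∀ s : ℂ, 3 / 2 < s.re → HasProd (fun p : Nat.Primes =>
      if bad (p : ℕ) then (1 : ℂ)
      else (1 - (((p : ℕ) : ℂ) + 1 - ((N (p : ℕ) : ℕ) : ℂ)) * ((p : ℕ) : ℂ) ^ (-s)
              + ((p : ℕ) : ℂ) ^ (1 - 2 * s))⁻¹) (F s)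

end Pool.Agent.Helper58.BSD
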