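import Mathlib
import Pool.Agent.Helper58.BSD.EDefs

/-!
# E1. The cubic remainder (weight 10, project BSD)

PROOF of `rterm_bound`. Let `δ = p^{-1/2} p^{1/100}`. For `Re w ≥ -1/100`, `p ≥ 1024`, `X = p^{-w}`: `‖X‖ ≤ p^{1/100}`, so
with `α = alp N p` (`|α| ≤ 14 p^{-1/2}`, helper13's `alp_bound`), `β = 1/p`: `‖α X‖ ≤ 14 δ`, `‖β X ^ 2‖ ≤ δ ^ 2`, and
`δ ≤ 1024^{-49/100} = 2^{-4.9} ≤ 0.034` (because `2^{0.1} ≤ 1.08`, i.e. `2 ≤ 1.08^10`). `z = zz N p w = α X - β X ^ 2`, `‖z‖ ≤ 14.04 δ ≤ 1/2`.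
`rterm = [-log (1 - z) - z - z ^ 2 / 2] + (-α β X ^ 3 + β ^ 2 X ^ 4 / 2)`; the bracket is `≤ (2/3) ‖z‖ ^ 3` by
`log_one_sub_approx` (Helper13/Bsd/Local), the rest is `≤ 14 δ ^ 3 + δ ^ 4 / 2`. Total `≤ 2000 δ ^ 3 = 2000 p^{-147/100}`.
`differentiableOn_Rf`: copy `differentiableOn_Hf` (Helper13/Bsd/Euler.lean, line 175) with the uniform bound
(`differentiableOn_tsum_of_summable_norm`, `summable_primes_rpow`).
`rterm_zero`: at `w = 0`, `X = 1`, `1 - zz = 1 - α + 1/p = N_p / p > 0` (see `ell_eq`), so `log = ell` (`ofReal_log`).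
`one_sub_zz_ne_zero_big`: `‖z‖ ≤ 1/2`.
-/

namespace Pool.Agent.Helper58.BSD

open Complex Filter Topology Pool.Agent.Helper13.Bsd

variable {N : ℕ → ℕ} {bad : ℕ → Prop} [DecidablePred bad]

private theorem delta_small (p : ℕ) (hbig : ¬ p < 1024) :
    (p : ℝ) ^ (-(49 / 100) : ℝ) ≤ 34 / 1000 := by
  have hp : (1024 : ℝ) ≤ p := by
    push Not at hbig
    exact_mod_cast hbig
  have h1 : (p : ℝ) ^ (-(49 / 100) : ℝ) ≤ (1024 : ℝ) ^ (-(49 / 100) : ℝ) :=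
    Real.rpow_le_rpow_of_nonpos (by norm_num) hp (by norm_num)
  refine h1.trans ?_
  have e0 : (1024 : ℝ) = (2 : ℝ) ^ (10 : ℝ) := by norm_num
  rw [e0, ← Real.rpow_mul (by norm_num)]
  have h2 : ((2 : ℝ) ^ ((10 : ℝ) * -(49 / 100))) ^ 10 ≤ (34 / 1000 : ℝ) ^ 10 := by
    rw [← Real.rpow_natCast, ← Real.rpow_mul (by norm_num)]
    have e1 : (10 : ℝ) * -(49 / 100) * ((10 : ℕ) : ℝ) = -((49 : ℕ) : ℝ) := by
      push_cast
      norm_num
    rw [e1, Real.rpow_neg (by norm_num), Real.rpow_natCast]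
    norm_num
  by_contra hcon
  push Not at hcon
  have h3 := pow_lt_pow_left₀ hcon (by norm_num) (show (10 : ℕ) ≠ 0 by norm_num)
  linarith

private theorem loc_bound {α β δ : ℝ} {X : ℂ} (hδ0 : 0 < δ) (hδ : δ ≤ 34 / 1000)
    (hA : ‖(α : ℂ) * X‖ ≤ 14 * δ) (hB : ‖(β : ℂ) * X ^ 2‖ ≤ δ ^ 2) :
    ‖(α : ℂ) * X - (β : ℂ) * X ^ 2‖ ≤ 1 / 2 ∧
    ‖-log (1 - ((α : ℂ) * X - (β : ℂ) * X ^ 2)) - (α : ℂ) * X
      - ((α ^ 2 / 2 - β : ℝ) : ℂ) * X ^ 2‖ ≤ 2000 * δ ^ 3 := by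
  set z : ℂ := (α : ℂ) * X - (β : ℂ) * X ^ 2 with hz
  have hznorm : ‖z‖ ≤ 14.04 * δ := by
    refine (norm_sub_le _ _).trans ?_
    nlinarith
  have hzhalf : ‖z‖ ≤ 1 / 2 := by linarith
  refine ⟨hzhalf, ?_⟩
  have E2 := log_one_sub_approx hzhalf
  have hdecomp : -log (1 - z) - (α : ℂ) * X - ((α ^ 2 / 2 - β : ℝ) : ℂ) * X ^ 2
      = -(log (1 - z) + z + z ^ 2 / 2)
        + (-(((α : ℂ) * X) * ((β : ℂ) * X ^ 2)) + ((β : ℂ) * X ^ 2) ^ 2 / 2) := by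
    rw [hz]
    push_cast
    ring
  rw [hdecomp]
  have h1 : ‖z‖ ^ 3 ≤ 2768 * δ ^ 3 := by
    calc ‖z‖ ^ 3 ≤ (14.04 * δ) ^ 3 := pow_le_pow_left₀ (norm_nonneg _) hznorm 3
      _ = 2767.587264 * δ ^ 3 := by ring
      _ ≤ 2768 * δ ^ 3 := by
          have : 0 ≤ δ ^ 3 := by positivity
          nlinarith
  have h2 : ‖-(((α : ℂ) * X) * ((β : ℂ) * X ^ 2)) + ((β : ℂ) * X ^ 2) ^ 2 / 2‖ ≤ 15 * δ ^ 3 := by
    refine (norm_add_le _ _).trans ?_
    rw [norm_neg, norm_mul, norm_div, norm_pow ((β : ℂ) * X ^ 2)]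
    have h3 : ‖(2 : ℂ)‖ = 2 := by simp
    rw [h3]
    calc ‖(α : ℂ) * X‖ * ‖(β : ℂ) * X ^ 2‖ + ‖(β : ℂ) * X ^ 2‖ ^ 2 / 2
        ≤ (14 * δ) * δ ^ 2 + (δ ^ 2) ^ 2 / 2 := by gcongr
      _ = 14 * δ ^ 3 + δ ^ 3 * (δ / 2) := by ring
      _ ≤ 15 * δ ^ 3 := by
          have : 0 ≤ δ ^ 3 := by positivity
          nlinarith
  refine (norm_add_le _ _).trans ?_
  rw [norm_neg]
  have : 0 ≤ δ ^ 3 := by positivity
  linarith

private theorem loc_hyp (hN : NHyp N) (p : ℕ) (hp : p.Prime) (w : ℂ) (hw : -(1 / 100) ≤ w.re) :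
    ‖(alp N p : ℂ) * (p : ℂ) ^ (-w)‖ ≤ 14 * (p : ℝ) ^ (-(49 / 100) : ℝ) ∧
    ‖(((p : ℝ)⁻¹ : ℝ) : ℂ) * ((p : ℂ) ^ (-w)) ^ 2‖ ≤ ((p : ℝ) ^ (-(49 / 100) : ℝ)) ^ 2 := by
  have hp1 : (1 : ℝ) ≤ p := by exact_mod_cast hp.one_le
  have hp0 : (0 : ℝ) < p := by linarith
  have hX : ‖(p : ℂ) ^ (-w)‖ ≤ (p : ℝ) ^ (1 / 100 : ℝ) := by
    rw [norm_X p hp]
    exact Real.rpow_le_rpow_of_exponent_le hp1 (by linarith)
  have hα := alp_bound N hN.bd p hp
  have hs : (Real.sqrt p)⁻¹ = (p : ℝ) ^ (-(1 / 2) : ℝ) := by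
    rw [Real.rpow_neg hp0.le, Real.sqrt_eq_rpow]
  constructor
  · rw [norm_mul, norm_real, Real.norm_eq_abs]
    calc |alp N p| * ‖(p : ℂ) ^ (-w)‖ ≤ (14 * (Real.sqrt p)⁻¹) * (p : ℝ) ^ (1 / 100 : ℝ) := by
          gcongr
      _ = 14 * ((p : ℝ) ^ (-(1 / 2) : ℝ) * (p : ℝ) ^ (1 / 100 : ℝ)) := by rw [hs]; ring
      _ = _ := by
          rw [← Real.rpow_add hp0]
          norm_num
  · rw [norm_mul, norm_real, Real.norm_eq_abs, abs_of_pos (by positivity), norm_pow]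
    calc (p : ℝ)⁻¹ * ‖(p : ℂ) ^ (-w)‖ ^ 2 ≤ (p : ℝ)⁻¹ * ((p : ℝ) ^ (1 / 100 : ℝ)) ^ 2 := by
          gcongr
      _ = (p : ℝ) ^ (-1 : ℝ) * (p : ℝ) ^ (2 / 100 : ℝ) := by
          rw [Real.rpow_neg_one, ← Real.rpow_natCast, ← Real.rpow_mul hp0.le]
          norm_num
      _ = _ := by
          rw [← Real.rpow_add hp0, ← Real.rpow_natCast, ← Real.rpow_mul hp0.le]
          norm_num

private theorem zz_half (hN : NHyp N) (p : ℕ) (hp : p.Prime) (hbig : ¬ p < 1024) (w : ℂ)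
    (hw : -(1 / 100) ≤ w.re) : ‖zz N p w‖ ≤ 1 / 2 := by
  have hp0 : (0 : ℝ) < p := by exact_mod_cast hp.pos
  obtain ⟨hA, hB⟩ := loc_hyp hN p hp w hw
  exact (loc_bound (by positivity) (delta_small p hbig) hA hB).1

theorem rterm_bound (hN : NHyp N) (p : ℕ) (hp : p.Prime) (w : ℂ) (hw : -(1 / 100) ≤ w.re) :
    ‖rterm N bad p w‖ ≤ 2000 * (p : ℝ) ^ (-(147 / 100) : ℝ) := by
  unfold rterm
  split_ifs with h
  · rw [norm_zero]; positivity
  · push Not at h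
    have hbig : ¬ p < 1024 := by omega
    have hp0 : (0 : ℝ) < p := by exact_mod_cast hp.pos
    obtain ⟨hA, hB⟩ := loc_hyp hN p hp w hw
    have h1 := (loc_bound (by positivity) (delta_small p hbig) hA hB).2
    have e : ((p : ℝ) ^ (-(49 / 100) : ℝ)) ^ 3 = (p : ℝ) ^ (-(147 / 100) : ℝ) := by
      rw [← Real.rpow_natCast, ← Real.rpow_mul hp0.le]
      norm_num
    rw [e] at h1
    exact h1

theorem differentiableOn_Rf (hN : NHyp N) :
    DifferentiableOn ℂ (Rf N bad) {w : ℂ | -(1 / 100) < w.re} := by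
  have hopen : IsOpen {w : ℂ | -(1 / 100) < w.re} := isOpen_lt continuous_const continuous_re
  unfold Rf
  apply differentiableOn_tsum_of_summable_norm
    (u := fun p : Nat.Primes => 2000 * ((p : ℕ) : ℝ) ^ (-(147 / 100) : ℝ))
    ((summable_primes_rpow (by norm_num)).mul_left _)
  · intro p
    unfold rterm
    split_ifs with h
    · exact differentiableOn_const _
    · push Not at h
      have hbig : ¬ (p : ℕ) < 1024 := by omega
      intro w hw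
      apply DifferentiableAt.differentiableWithinAt
      have hX := (differentiable_X p p.2) w
      apply DifferentiableAt.sub
      · apply DifferentiableAt.sub
        · apply DifferentiableAt.neg
          apply DifferentiableAt.clog
          · exact (differentiableAt_const _).sub ((differentiable_zz N p p.2) w)
          · have := zz_half hN p p.2 hbig w (le_of_lt hw)
            rw [sub_eq_add_neg]
            exact mem_slitPlane_of_norm_lt_one (by rw [norm_neg]; linarith)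
        · exact hX.const_mul _
      · exact (hX.pow 2).const_mul _
  · exact hopen
  · intro p w hw
    exact rterm_bound hN p p.2 w (le_of_lt hw)

theorem rterm_zero (hN : NHyp N) (p : ℕ) (hp : p.Prime) (hbad : ¬ bad p) (hbig : ¬ p < 1024) :
    rterm N bad p 0 = ((-(c1 N bad p + c2 N bad p) : ℝ) : ℂ) := by
  have hp0 : (0 : ℝ) < p := by exact_mod_cast hp.pos
  have e0 : (p : ℂ) ^ (-(0 : ℂ)) = 1 := by rw [neg_zero, cpow_zero]
  have hpos : 0 ≤ 1 - alp N p + (p : ℝ)⁻¹ := by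
    have h1 : 1 - alp N p + (p : ℝ)⁻¹ = (N p : ℝ) / p := by
      rw [alp]
      field_simp
      ring
    rw [h1]
    positivity
  have e1 : log (1 - zz N p 0) = ((ell N p : ℝ) : ℂ) := by
    rw [ell_eq N p hp, ofReal_log hpos]
    congr 1
    rw [zz, e0]
    push_cast
    ring
  rw [rterm, if_neg (by tauto), e1, e0, c1, c2, if_neg hbad, if_neg hbig, if_neg (by tauto)]
  push_cast
  ring

theorem one_sub_zz_ne_zero_big (hN : NHyp N) (p : ℕ) (hp : p.Prime) (hbig : ¬ p < 1024) (w : ℂ)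
    (hw : -(1 / 100) ≤ w.re) : 1 - zz N p w ≠ 0 := by
  have h := zz_half hN p hp hbig w hw
  intro h0
  have h3 : zz N p w = 1 := by linear_combination -h0
  rw [h3, norm_one] at h
  norm_num at h

end Pool.Agent.Helper58.BSD
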