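import Mathlib
import Pool.Agent.Helper58.BSD.EDefs
import Pool.Agent.Helper58.BSD.ERem

/-!
# E3. Local estimates (weight 10, project BSD)

PROOF. `δ = (√p)⁻¹`, `α = alp N p`, `|α| ≤ 14 δ` (`alp_bound`), `β = 1/p = δ ^ 2`, `ell N p = log (1 - y)`, `y = α - β`
(`ell_eq`).
`ell_le`: for `p ≥ 1024`: `δ ≤ 1/32`, `|y| ≤ 14.04 δ ≤ 1/2` and `|log (1 - y)| ≤ 2 |y|` for `|y| ≤ 1/2`
(`Real.abs_log_sub_add_sum_range_le` or from `log x ≤ x - 1` for `1 - y` and `1 / (1 - y)`); for `p < 1024`: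
`|ell N p| ≤ 2 p ≤ 2048` (`ell_bound`) and `√p ≤ 32`, so `|ell| ≤ 65536 / √p`.
`c1_big`, for `p ≥ 1024` good: `|ell + α| ≤ |log (1 - y) + y| + β ≤ y ^ 2 + β ≤ 200 δ^2` (`|log (1-y) + y| ≤ y ^ 2` for `|y| ≤ 1/2`;
`14.04 ^ 2 = 197.2`). `c2_le`: `α ^ 2 / 2 ≤ 98 δ ^ 2`.
`c12_le`: for good `p ≥ 1024` it is `-rterm N bad p 0` (`rterm_zero`) and `rterm_bound` at `w = 0`; zero for bad `p`;
for `p < 1024`: `≤ 2048 ≤ 2048 · 1024^{1.47} p^{-1.47}`, take `C = 2048 * 1024 ^ 2`.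
`c1_lin`, `c2_lin`: crude linear bounds for the Laplace identity (`|ell| ≤ 2 p`, `|α| ≤ 14`).
-/

namespace Pool.Agent.Helper58.BSD

open Complex Filter Topology Pool.Agent.Helper13.Bsd

variable {N : ℕ → ℕ} {bad : ℕ → Prop} [DecidablePred bad]

private theorem e3_log {y : ℝ} (hy : |y| ≤ 1 / 2) : |Real.log (1 - y) + y| ≤ y ^ 2 := by
  have hy1 := abs_le.1 hy
  have h := Complex.norm_log_one_add_sub_self_le (z := ((-y : ℝ) : ℂ)) (by
    rw [norm_real, Real.norm_eq_abs, abs_neg]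
    linarith)
  have e1 : Complex.log (1 + ((-y : ℝ) : ℂ)) = ((Real.log (1 - y) : ℝ) : ℂ) := by
    rw [ofReal_log (by linarith)]
    congr 1
    push_cast
    ring
  have e2 : ((Real.log (1 - y) : ℝ) : ℂ) - ((-y : ℝ) : ℂ) = ((Real.log (1 - y) + y : ℝ) : ℂ) := by
    push_cast
    ring
  rw [e1, e2, norm_real, norm_real, Real.norm_eq_abs, Real.norm_eq_abs, abs_neg] at h
  refine h.trans ?_
  have h1 : (1 - |y|)⁻¹ ≤ 2 := by
    rw [show (2 : ℝ) = (1 / 2)⁻¹ by norm_num]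
    exact inv_anti₀ (by norm_num) (by linarith)
  have h2 : |y| ^ 2 = y ^ 2 := sq_abs y
  rw [h2]
  have h3 : 0 ≤ y ^ 2 := sq_nonneg y
  nlinarith

private theorem e3_facts (hN : NHyp N) (p : ℕ) (hp : p.Prime) (hbig : ¬ p < 1024) :
    0 < (Real.sqrt p)⁻¹ ∧ (Real.sqrt p)⁻¹ ≤ 1 / 32 ∧ (p : ℝ)⁻¹ = ((Real.sqrt p)⁻¹) ^ 2 ∧
      |alp N p| ≤ 14 * (Real.sqrt p)⁻¹ ∧
      |alp N p - (p : ℝ)⁻¹| ≤ 14.04 * (Real.sqrt p)⁻¹ ∧ |alp N p - (p : ℝ)⁻¹| ≤ 1 / 2 := by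
  obtain ⟨h1, h2, h3⟩ := delta_facts p hp hbig
  have h4 := alp_bound N hN.bd p hp
  have h5 : |alp N p - (p : ℝ)⁻¹| ≤ 14.04 * (Real.sqrt p)⁻¹ := by
    refine (abs_sub _ _).trans ?_
    rw [h3, abs_of_pos (by positivity : 0 < ((Real.sqrt p)⁻¹) ^ 2)]
    nlinarith
  exact ⟨h1, h2, h3, h4, h5, by linarith⟩

theorem ell_le (hN : NHyp N) (p : ℕ) (hp : p.Prime) : |ell N p| ≤ 65536 * (Real.sqrt p)⁻¹ := by
  by_cases hbig : p < 1024
  · have h1 := ell_bound N hN.one_le hN.bd p hp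
    have hp0 : (0 : ℝ) < p := by exact_mod_cast hp.pos
    have hpr : (p : ℝ) ≤ 1024 := by exact_mod_cast hbig.le
    have hs : Real.sqrt p ≤ 32 := by
      rw [Real.sqrt_le_left (by norm_num)]
      linarith
    have hs0 : 0 < Real.sqrt p := Real.sqrt_pos.2 hp0
    have h2 : (1 / 32 : ℝ) ≤ (Real.sqrt p)⁻¹ := by
      rw [one_div]
      exact inv_anti₀ hs0 hs
    linarith
  · obtain ⟨h1, h2, h3, h4, h5, h6⟩ := e3_facts hN p hp hbig
    have h7 := e3_log h6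
    have h8 : ell N p = Real.log (1 - (alp N p - (p : ℝ)⁻¹)) := by
      rw [ell_eq N p hp]
      congr 1
      ring
    rw [← h8] at h7
    obtain ⟨y, hy⟩ : ∃ y, y = alp N p - (p : ℝ)⁻¹ := ⟨_, rfl⟩
    rw [← hy] at h5 h6 h7
    have h9 : y ^ 2 ≤ |y| := by
      rw [← sq_abs]
      nlinarith [abs_nonneg y]
    have h10 : |ell N p| ≤ |ell N p + y| + |y| := by
      have := abs_sub (ell N p + y) y
      rwa [add_sub_cancel_right] at this
    linarith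

theorem c1_big (hN : NHyp N) (p : ℕ) (hp : p.Prime) (hbig : 1024 ≤ p) :
    |c1 N bad p| ≤ 200 * (p : ℝ)⁻¹ := by
  have hbig' : ¬ p < 1024 := by omega
  unfold c1
  split_ifs with h
  · rw [abs_zero]
    positivity
  · obtain ⟨h1, h2, h3, h4, h5, h6⟩ := e3_facts hN p hp hbig'
    have h7 := e3_log h6
    have h8 : ell N p = Real.log (1 - (alp N p - (p : ℝ)⁻¹)) := by
      rw [ell_eq N p hp]
      congr 1
      ring
    rw [← h8] at h7
    have h9 : ell N p + alp N p = (ell N p + (alp N p - (p : ℝ)⁻¹)) + (p : ℝ)⁻¹ := by ring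
    have h10 : (alp N p - (p : ℝ)⁻¹) ^ 2 ≤ 199 * (p : ℝ)⁻¹ := by
      rw [← sq_abs]
      calc |alp N p - (p : ℝ)⁻¹| ^ 2 ≤ (14.04 * (Real.sqrt p)⁻¹) ^ 2 :=
            pow_le_pow_left₀ (abs_nonneg _) h5 2
        _ = 197.1216 * (p : ℝ)⁻¹ := by
            rw [h3]
            ring
        _ ≤ 199 * (p : ℝ)⁻¹ := by
            refine mul_le_mul_of_nonneg_right (by norm_num) (by positivity)
    rw [h9]
    refine (abs_add_le _ _).trans ?_
    rw [abs_of_nonneg (by positivity : (0 : ℝ) ≤ (p : ℝ)⁻¹)]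
    linarith

theorem c2_le (hN : NHyp N) (p : ℕ) (hp : p.Prime) : |c2 N bad p| ≤ 99 * (p : ℝ)⁻¹ := by
  unfold c2
  split_ifs with h
  · rw [abs_zero]
    positivity
  · push Not at h
    have hbig : ¬ p < 1024 := by omega
    obtain ⟨h1, h2, h3, h4, h5, h6⟩ := e3_facts hN p hp hbig
    refine (abs_sub _ _).trans ?_
    rw [abs_of_nonneg (by positivity : (0 : ℝ) ≤ (p : ℝ)⁻¹),
      abs_of_nonneg (by positivity : (0 : ℝ) ≤ alp N p ^ 2 / 2)]
    have h7 : alp N p ^ 2 ≤ 196 * (p : ℝ)⁻¹ := by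
      rw [← sq_abs]
      calc |alp N p| ^ 2 ≤ (14 * (Real.sqrt p)⁻¹) ^ 2 :=
            pow_le_pow_left₀ (abs_nonneg _) h4 2
        _ = 196 * (p : ℝ)⁻¹ := by
            rw [h3]
            ring
    linarith

theorem c12_le (hN : NHyp N) (p : ℕ) (hp : p.Prime) :
    |c1 N bad p + c2 N bad p| ≤ 2048 * 1024 ^ 2 * (p : ℝ) ^ (-(147 / 100) : ℝ) := by
  have hp1 : (1 : ℝ) ≤ p := by exact_mod_cast hp.one_le
  have hpos : 0 < (p : ℝ) ^ (-(147 / 100) : ℝ) := by positivity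
  by_cases hb : bad p
  · rw [c1, c2, if_pos hb, if_pos (Or.inl hb), add_zero, abs_zero]
    positivity
  by_cases hbig : p < 1024
  · rw [c1, c2, if_neg hb, if_pos hbig, if_pos (Or.inr hbig), add_zero]
    have h1 := ell_bound N hN.one_le hN.bd p hp
    have hpr : (p : ℝ) ≤ 1024 := by exact_mod_cast hbig.le
    have h2 : (p : ℝ) ^ (-(2 : ℝ)) ≤ (p : ℝ) ^ (-(147 / 100) : ℝ) :=
      Real.rpow_le_rpow_of_exponent_le hp1 (by norm_num)
    have h3 : (1024 : ℝ) ^ (-(2 : ℝ)) ≤ (p : ℝ) ^ (-(2 : ℝ)) :=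
      Real.rpow_le_rpow_of_nonpos (by linarith) hpr (by norm_num)
    have h4 : (1024 : ℝ) ^ (-(2 : ℝ)) = 1 / 1024 ^ 2 := by
      rw [Real.rpow_neg (by norm_num), show (2 : ℝ) = ((2 : ℕ) : ℝ) by norm_num,
        Real.rpow_natCast, one_div]
    have h5 : (1 : ℝ) ≤ 1024 ^ 2 * (p : ℝ) ^ (-(147 / 100) : ℝ) := by
      have h6 : (1 : ℝ) / 1024 ^ 2 ≤ (p : ℝ) ^ (-(147 / 100) : ℝ) := by
        rw [← h4]
        exact h3.trans h2
      rw [div_le_iff₀ (by norm_num)] at h6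
      linarith
    calc |ell N p| ≤ 2 * p := h1
      _ ≤ 2048 * 1 := by linarith
      _ ≤ 2048 * (1024 ^ 2 * (p : ℝ) ^ (-(147 / 100) : ℝ)) :=
          mul_le_mul_of_nonneg_left h5 (by norm_num)
      _ = _ := by ring
  · have h1 := rterm_zero hN p hp hb hbig
    have h2 := rterm_bound (bad := bad) hN p hp 0 (by simp)
    rw [h1, norm_real, Real.norm_eq_abs, abs_neg] at h2
    refine h2.trans ?_
    exact mul_le_mul_of_nonneg_right (by norm_num) hpos.le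

private theorem e3_inv (p : ℕ) (hp : p.Prime) : (p : ℝ)⁻¹ ≤ p := by
  have hp1 : (1 : ℝ) ≤ p := by exact_mod_cast hp.one_le
  exact (inv_le_one_of_one_le₀ hp1).trans hp1

theorem c1_lin (hN : NHyp N) (p : ℕ) (hp : p.Prime) : |c1 N bad p| ≤ 200 * (p : ℝ) := by
  have hp0 : (0 : ℝ) ≤ p := Nat.cast_nonneg p
  by_cases hbig : p < 1024
  · unfold c1
    split_ifs with h
    · rw [abs_zero]
      positivity
    · have h1 := ell_bound N hN.one_le hN.bd p hp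
      linarith
  · have h1 := c1_big (bad := bad) hN p hp (by omega)
    have h2 := e3_inv p hp
    linarith

theorem c2_lin (hN : NHyp N) (p : ℕ) (hp : p.Prime) : |c2 N bad p| ≤ 200 * (p : ℝ) := by
  have hp0 : (0 : ℝ) ≤ p := Nat.cast_nonneg p
  have h1 := c2_le (bad := bad) hN p hp
  have h2 := e3_inv p hp
  linarith

end Pool.Agent.Helper58.BSD
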