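import Mathlib
import Pool.Agent.Helper58.BSD.EDefs
import Pool.Agent.Helper32.M3.Two

/-!
# E4. Mertens' theorem in the form needed (weight 10, project BSD)

PROOF. `mertens_real` is `Pool.Agent.Helper32.M3.W_tendsto` (`W n = ∑_{p ≤ n} 1/p`; look at the definition of `W`, `PL`)
moved to real `x`: `psum (1/p) ⌈x⌉₊ = W (⌈x⌉₊ - 1)`, and `log log (⌈x⌉₊ - 1) - log log x → 0`.
`mertens_ratio`: subtract at `(t + u)` and `t` with `x = e^t`: `log (t + u) - log t → 0`.
`mertens_half`: subtract at `t` and `t / 2`: `log t - log (t / 2) = log 2`.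
`mertens_bdd`: from `mertens_half` for `t ≥ T` and the trivial bound `psum ≤ ⌈e^T⌉₊` for `0 ≤ t ≤ T`
(all terms are in `[0, 1]`, `psum` is monotone in `n`).
-/

namespace Pool.Agent.Helper58.BSD

open Filter Topology

open Pool.Agent.Helper16.UB in
theorem psum_eq_W (n : ℕ) (hn : 1 ≤ n) : psum (fun p => (p : ℝ)⁻¹) n = W (n - 1) := by
  unfold psum W
  have h : (Finset.range n).filter Nat.Prime = PL (n - 1) := by
    ext p
    rw [mem_PL, Finset.mem_filter, Finset.mem_range]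
    constructor
    · rintro ⟨h1, h2⟩
      exact ⟨by omega, h2⟩
    · rintro ⟨h1, h2⟩
      exact ⟨by omega, h2⟩
  rw [h]
  refine Finset.sum_congr rfl ?_
  intro p _
  rw [one_div]

theorem psum_inv_nonneg (n : ℕ) : 0 ≤ psum (fun p => (p : ℝ)⁻¹) n := by
  unfold psum
  exact Finset.sum_nonneg (fun p _ => by positivity)

theorem psum_inv_mono {m n : ℕ} (h : m ≤ n) :
    psum (fun p => (p : ℝ)⁻¹) m ≤ psum (fun p => (p : ℝ)⁻¹) n := by
  unfold psum
  refine Finset.sum_le_sum_of_subset_of_nonneg ?_ (fun p _ _ => by positivity)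
  intro p hp
  rw [Finset.mem_filter, Finset.mem_range] at hp ⊢
  exact ⟨by omega, hp.2⟩

theorem loglog_diff : Tendsto (fun x : ℝ => Real.log (Real.log ((⌈x⌉₊ - 1 : ℕ) : ℝ)) - Real.log (Real.log x))
    atTop (𝓝 0) := by
  have h0 : Tendsto (fun x : ℝ => -(x - 1)⁻¹) atTop (𝓝 0) := by
    have h1 : Tendsto (fun x : ℝ => x - 1) atTop atTop := tendsto_atTop_add_const_right _ (-1) tendsto_id
    have h2 := (tendsto_inv_atTop_zero.comp h1).neg
    simpa using h2
  refine tendsto_of_tendsto_of_tendsto_of_le_of_le' h0 tendsto_const_nhds ?_ ?_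
  · filter_upwards [eventually_ge_atTop (4 : ℝ)] with x hx
    have hc1 : (x : ℝ) ≤ ⌈x⌉₊ := Nat.le_ceil x
    have hc0 : 1 ≤ ⌈x⌉₊ := Nat.one_le_ceil_iff.mpr (by linarith)
    have hcast : ((⌈x⌉₊ - 1 : ℕ) : ℝ) = (⌈x⌉₊ : ℝ) - 1 := by
      rw [Nat.cast_sub hc0, Nat.cast_one]
    rw [hcast]
    have hy : x - 1 ≤ (⌈x⌉₊ : ℝ) - 1 := by linarith
    have hl1 : 1 ≤ Real.log (x - 1) := by
      rw [Real.le_log_iff_exp_le (by linarith)]
      linarith [Real.exp_one_lt_d9]
    have hl2 : Real.log (x - 1) ≤ Real.log ((⌈x⌉₊ : ℝ) - 1) := Real.log_le_log (by linarith) hy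
    have hl3 : Real.log (Real.log (x - 1)) ≤ Real.log (Real.log ((⌈x⌉₊ : ℝ) - 1)) :=
      Real.log_le_log (by linarith) hl2
    have hlx : Real.log (x - 1) ≤ Real.log x := Real.log_le_log (by linarith) (by linarith)
    have hd1 : Real.log x - Real.log (x - 1) ≤ (x - 1)⁻¹ := by
      rw [← Real.log_div (by linarith) (by linarith)]
      have h1 := Real.log_le_sub_one_of_pos (x := x / (x - 1)) (div_pos (by linarith) (by linarith))
      have h2 : x / (x - 1) - 1 = (x - 1)⁻¹ := by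
        have : x - 1 ≠ 0 := by linarith
        field_simp
        ring
      linarith
    have hd2 : Real.log (Real.log x) - Real.log (Real.log (x - 1)) ≤ (x - 1)⁻¹ := by
      rw [← Real.log_div (by linarith) (by linarith)]
      have h1 := Real.log_le_sub_one_of_pos (x := Real.log x / Real.log (x - 1)) (div_pos (by linarith) (by linarith))
      have h2 : Real.log x / Real.log (x - 1) - 1 = (Real.log x - Real.log (x - 1)) / Real.log (x - 1) := by
        have : Real.log (x - 1) ≠ 0 := by linarith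
        field_simp
      have h3 : (Real.log x - Real.log (x - 1)) / Real.log (x - 1) ≤ Real.log x - Real.log (x - 1) :=
        div_le_self (by linarith) hl1
      linarith
    linarith
  · filter_upwards [eventually_ge_atTop (4 : ℝ)] with x hx
    have hc1 : (⌈x⌉₊ : ℝ) < x + 1 := Nat.ceil_lt_add_one (by linarith)
    have hc2 : (x : ℝ) ≤ ⌈x⌉₊ := Nat.le_ceil x
    have hc0 : 1 ≤ ⌈x⌉₊ := Nat.one_le_ceil_iff.mpr (by linarith)
    have hcast : ((⌈x⌉₊ - 1 : ℕ) : ℝ) = (⌈x⌉₊ : ℝ) - 1 := by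
      rw [Nat.cast_sub hc0, Nat.cast_one]
    rw [hcast]
    have hl0 : 0 < Real.log ((⌈x⌉₊ : ℝ) - 1) := Real.log_pos (by linarith)
    have hl2 : Real.log ((⌈x⌉₊ : ℝ) - 1) ≤ Real.log x := Real.log_le_log (by linarith) (by linarith)
    have hl3 := Real.log_le_log hl0 hl2
    linarith

theorem mertens_real : ∃ M : ℝ, Tendsto (fun x : ℝ => psum (fun p => (p : ℝ)⁻¹) ⌈x⌉₊ - Real.log (Real.log x))
    atTop (𝓝 M) := by
  obtain ⟨M, hM⟩ := Pool.Agent.Helper32.M3.W_tendsto
  refine ⟨M, ?_⟩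
  have hn : Tendsto (fun x : ℝ => ⌈x⌉₊ - 1) atTop atTop :=
    (tendsto_sub_atTop_nat 1).comp tendsto_nat_ceil_atTop
  have h1 := (hM.comp hn).add loglog_diff
  rw [add_zero] at h1
  refine h1.congr' ?_
  filter_upwards [eventually_ge_atTop (4 : ℝ)] with x hx
  have hc0 : 1 ≤ ⌈x⌉₊ := Nat.one_le_ceil_iff.mpr (by linarith)
  rw [psum_eq_W _ hc0]
  simp only [Function.comp_apply]
  ring

theorem mertens_ratio (u : ℝ) (hu : 0 < u) : Tendsto (fun t : ℝ => psum (fun p => (p : ℝ)⁻¹) ⌈Real.exp (t + u)⌉₊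
    - psum (fun p => (p : ℝ)⁻¹) ⌈Real.exp t⌉₊) atTop (𝓝 0) := by
  obtain ⟨M, hM⟩ := mertens_real
  have he : Tendsto (fun t : ℝ => Real.exp t) atTop atTop := Real.tendsto_exp_atTop
  have hs : Tendsto (fun t : ℝ => t + u) atTop atTop := tendsto_atTop_add_const_right _ u tendsto_id
  have h1 := (hM.comp (he.comp hs)).sub (hM.comp he)
  rw [sub_self] at h1
  have h2 : Tendsto (fun t : ℝ => Real.log (t + u) - Real.log t) atTop (𝓝 0) := by
    have h3 : Tendsto (fun t : ℝ => Real.log (1 + u / t)) atTop (𝓝 (Real.log (1 + 0))) := by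
      refine Tendsto.log ?_ (by norm_num)
      exact tendsto_const_nhds.add (tendsto_const_nhds.div_atTop tendsto_id)
    rw [add_zero, Real.log_one] at h3
    refine h3.congr' ?_
    filter_upwards [eventually_gt_atTop (0 : ℝ)] with t ht
    rw [← Real.log_div (by linarith) (by linarith)]
    congr 1
    field_simp
  have h3 := h1.add h2
  rw [add_zero] at h3
  refine h3.congr' ?_
  filter_upwards [eventually_gt_atTop (0 : ℝ)] with t ht
  simp only [Function.comp_apply, Real.log_exp]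
  ring

theorem mertens_half : Tendsto (fun t : ℝ => psum (fun p => (p : ℝ)⁻¹) ⌈Real.exp t⌉₊
    - psum (fun p => (p : ℝ)⁻¹) ⌈Real.exp (t / 2)⌉₊) atTop (𝓝 (Real.log 2)) := by
  obtain ⟨M, hM⟩ := mertens_real
  have he : Tendsto (fun t : ℝ => Real.exp t) atTop atTop := Real.tendsto_exp_atTop
  have hs : Tendsto (fun t : ℝ => t / 2) atTop atTop := tendsto_id.atTop_div_const (by norm_num)
  have h1 := (hM.comp he).sub (hM.comp (he.comp hs))
  rw [sub_self] at h1
  have h3 := h1.add (tendsto_const_nhds (x := Real.log 2) (f := atTop))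
  rw [zero_add] at h3
  refine h3.congr' ?_
  filter_upwards [eventually_gt_atTop (0 : ℝ)] with t ht
  simp only [Function.comp_apply, Real.log_exp]
  rw [Real.log_div (by linarith) (by norm_num)]
  ring

theorem mertens_bdd : ∃ C : ℝ, 0 ≤ C ∧ ∀ t : ℝ, 0 ≤ t → psum (fun p => (p : ℝ)⁻¹) ⌈Real.exp t⌉₊
    - psum (fun p => (p : ℝ)⁻¹) ⌈Real.exp (t / 2)⌉₊ ≤ C := by
  have h := mertens_half.eventually (gt_mem_nhds (lt_add_one (Real.log 2)))
  obtain ⟨T, hT⟩ := eventually_atTop.mp h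
  have hl2 : 0 ≤ Real.log 2 := Real.log_nonneg (by norm_num)
  refine ⟨max (Real.log 2 + 1) (psum (fun p => (p : ℝ)⁻¹) ⌈Real.exp T⌉₊), ?_, ?_⟩
  · exact le_max_of_le_left (by linarith)
  · intro t _
    rcases le_total T t with h1 | h1
    · exact le_max_of_le_left (hT t h1).le
    · refine le_max_of_le_right ?_
      have h2 : ⌈Real.exp t⌉₊ ≤ ⌈Real.exp T⌉₊ := Nat.ceil_mono (Real.exp_le_exp.mpr h1)
      have h3 := psum_inv_mono h2
      have h4 := psum_inv_nonneg ⌈Real.exp (t / 2)⌉₊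
      linarith

end Pool.Agent.Helper58.BSD
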