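import Mathlib
import Pool.Agent.Helper58.BSD.ELoc
import Pool.Agent.Helper58.BSD.EMert

/-!
# E5. The correction `ee` is bounded and slowly varying (weight 10, project BSD)

PROOF. Write `n₁ = ⌈e^t⌉₊`, `n₂ = ⌈e^{t/2}⌉₊ ≤ n₁` (`t ≥ 0`).
`ee t = psum (c1 + c2) n₁ - (psum c2 n₁ - psum c2 n₂)`. The first sum is bounded by `∑_p |c1 p + c2 p| < ∞`
(`c12_le`, `summable_primes_rpow`) and tends to `E0`. The second is a sum over the primes `n₂ ≤ p < n₁` and is at most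
`99 (psum (1/p) n₁ - psum (1/p) n₂) ≤ 99 C` (`c2_le`, `mertens_bdd`).
`ee_osc`: `ee (t+u) - ee t` is a sum of `c1 p` over `⌈e^t⌉₊ ≤ p < ⌈e^{t+u}⌉₊` plus a sum of `c2 p` over
`⌈e^{t/2}⌉₊ ≤ p < ⌈e^{(t+u)/2}⌉₊`; for `t` large `p ≥ 1024`, `|c1 p| ≤ 200 / p`, `|c2 p| ≤ 99 / p`; `mertens_ratio` with `u` and
(at `t/2`) `u/2`.
`ee_lim`: for `t` so large that `e^{t/2} ≥ 1024` and `e^{t/2}` exceeds all bad primes:
`psum c2 n₁ - psum c2 n₂ = SSb (e^t) - (psum (1/p) n₁ - psum (1/p) n₂)` (the condition `e^t ≤ p ^ 2` is `p ≥ n₂`), so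
`ee t + SSb (e^t) = psum (c1+c2) n₁ + (psum (1/p) n₁ - psum (1/p) n₂) → E0 + log 2` (`mertens_half`).
`SSb_bdd`: for `x ≥ 1`, `SSb x ≤ 98 ∑_{√x ≤ p < x} 1/p` (`α_p ^ 2 ≤ 196 / p`), `x = e^t`; for `x < 1` there are no primes `< x`.
-/

namespace Pool.Agent.Helper58.BSD

open Filter Topology Pool.Agent.Helper13.Bsd

variable {N : ℕ → ℕ} {bad : ℕ → Prop} [DecidablePred bad]

/-- `(1/2) ∑_{√x ≤ p < x, p good} (a_p / p)²` -/
noncomputable def SSb (N : ℕ → ℕ) (bad : ℕ → Prop) [DecidablePred bad] (x : ℝ) : ℝ :=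
  (1 / 2) * ∑ p ∈ (Finset.range ⌈x⌉₊).filter (fun p : ℕ => p.Prime ∧ ¬ bad p ∧ x ≤ (p : ℝ) ^ 2),
    (((p : ℝ) + 1 - N p) / p) ^ 2

private theorem psum_eq (c : ℕ → ℝ) (n : ℕ) :
    psum c n = ∑ p ∈ Finset.range n, if p.Prime then c p else 0 := by
  rw [psum, Finset.sum_filter]

private theorem psum_sub (c : ℕ → ℝ) {n m : ℕ} (h : n ≤ m) :
    psum c m - psum c n = ∑ p ∈ (Finset.Ico n m).filter Nat.Prime, c p := by
  rw [psum_eq, psum_eq, Finset.sum_filter, Finset.sum_Ico_eq_sub _ h]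

private theorem psum_add (c d : ℕ → ℝ) (n : ℕ) :
    psum (fun p => c p + d p) n = psum c n + psum d n := by
  rw [psum, psum, psum, Finset.sum_add_distrib]

private theorem psum_diff_le (c : ℕ → ℝ) (K : ℝ) {n m : ℕ} (h : n ≤ m)
    (hc : ∀ p : ℕ, p.Prime → n ≤ p → |c p| ≤ K * (p : ℝ)⁻¹) :
    |psum c m - psum c n| ≤ K * (psum (fun p => (p : ℝ)⁻¹) m - psum (fun p => (p : ℝ)⁻¹) n) := by
  rw [psum_sub c h, psum_sub _ h, Finset.mul_sum]
  refine (Finset.abs_sum_le_sum_abs _ _).trans (Finset.sum_le_sum fun p hp => ?_)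
  rw [Finset.mem_filter, Finset.mem_Ico] at hp
  exact hc p hp.2 hp.1.1

private theorem psum_tendsto (c : ℕ → ℝ) (hc : Summable fun p : Nat.Primes => c p) :
    Tendsto (fun n => psum c n) atTop (𝓝 (∑' p : Nat.Primes, c p)) := by
  have h1 : HasSum (fun p : Nat.Primes => c p) (∑' p : Nat.Primes, c p) := hc.hasSum
  have h2 : HasSum (({p : ℕ | p.Prime} : Set ℕ).indicator c) (∑' p : Nat.Primes, c p) :=
    (hasSum_subtype_iff_indicator (s := ({p : ℕ | p.Prime} : Set ℕ))).1 h1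
  have h3 := h2.tendsto_sum_nat
  refine h3.congr fun n => ?_
  rw [psum_eq]
  refine Finset.sum_congr rfl fun p _ => ?_
  by_cases hp : p.Prime
  · rw [if_pos hp, Set.indicator_of_mem (show p ∈ ({p : ℕ | p.Prime} : Set ℕ) from hp)]
  · rw [if_neg hp, Set.indicator_of_notMem (show p ∉ ({p : ℕ | p.Prime} : Set ℕ) from hp)]

private theorem psum_abs_le (c : ℕ → ℝ) (hc : Summable fun p : Nat.Primes => |c p|) (n : ℕ) :
    |psum c n| ≤ ∑' p : Nat.Primes, |c p| := by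
  have h0 : Monotone fun n => psum (fun p => |c p|) n := by
    intro a b hab
    have := psum_sub (fun p => |c p|) hab
    have h2 : 0 ≤ ∑ p ∈ (Finset.Ico a b).filter Nat.Prime, |c p| :=
      Finset.sum_nonneg fun _ _ => abs_nonneg _
    show psum (fun p => |c p|) a ≤ psum (fun p => |c p|) b
    linarith
  have h1 := psum_tendsto (fun p => |c p|) hc
  have h2 : psum (fun p => |c p|) n ≤ ∑' p : Nat.Primes, |c p| := h0.ge_of_tendsto h1 n
  refine le_trans ?_ h2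
  rw [psum, psum]
  exact Finset.abs_sum_le_sum_abs _ _

private theorem summable_c12 (hN : NHyp N) :
    Summable fun p : Nat.Primes => |c1 N bad p + c2 N bad p| := by
  refine Summable.of_nonneg_of_le (fun _ => abs_nonneg _)
    (fun p => c12_le (bad := bad) hN (p : ℕ) p.2) ?_
  exact (summable_primes_rpow (x := 147 / 100) (by norm_num)).mul_left _

private theorem ceil_tendsto : Tendsto (fun t : ℝ => ⌈Real.exp t⌉₊) atTop atTop :=
  tendsto_nat_ceil_atTop.comp Real.tendsto_exp_atTop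

private theorem half_tendsto : Tendsto (fun t : ℝ => t / 2) atTop atTop :=
  tendsto_id.atTop_div_const (by norm_num)

private theorem ee_eq (t : ℝ) : ee N bad t =
    psum (fun p => c1 N bad p + c2 N bad p) ⌈Real.exp t⌉₊ -
      (psum (c2 N bad) ⌈Real.exp t⌉₊ - psum (c2 N bad) ⌈Real.exp (t / 2)⌉₊) := by
  rw [psum_add, ee]
  ring

private theorem ceil_mono {a b : ℝ} (h : a ≤ b) : ⌈Real.exp a⌉₊ ≤ ⌈Real.exp b⌉₊ :=
  Nat.ceil_mono (Real.exp_le_exp.2 h)

theorem measurable_ee : Measurable (ee N bad) := by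
  have h : ∀ c : ℕ → ℝ, Measurable fun t : ℝ => psum c ⌈Real.exp t⌉₊ := fun c =>
    (measurable_from_nat (f := psum c)).comp (Nat.measurable_ceil.comp Real.measurable_exp)
  exact (h _).add ((h (c2 N bad)).comp (measurable_id.div_const 2))

theorem ee_bdd (hN : NHyp N) : ∃ C : ℝ, 0 ≤ C ∧ ∀ t : ℝ, 0 < t → |ee N bad t| ≤ C := by
  obtain ⟨C, hC0, hC⟩ := mertens_bdd
  have hS := summable_c12 (bad := bad) hN
  refine ⟨(∑' p : Nat.Primes, |c1 N bad p + c2 N bad p|) + 99 * C, ?_, ?_⟩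
  · have : 0 ≤ ∑' p : Nat.Primes, |c1 N bad p + c2 N bad p| := tsum_nonneg fun _ => abs_nonneg _
    positivity
  · intro t ht
    rw [ee_eq]
    have h1 := psum_abs_le (fun p => c1 N bad p + c2 N bad p) hS ⌈Real.exp t⌉₊
    have h2 := psum_diff_le (c2 N bad) 99 (ceil_mono (show t / 2 ≤ t by linarith))
      (fun p hp _ => c2_le hN p hp)
    have h3 := hC t ht.le
    have h4 := abs_sub (psum (fun p => c1 N bad p + c2 N bad p) ⌈Real.exp t⌉₊)
      (psum (c2 N bad) ⌈Real.exp t⌉₊ - psum (c2 N bad) ⌈Real.exp (t / 2)⌉₊)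
    linarith

theorem ee_osc (hN : NHyp N) (u : ℝ) (hu : 0 < u) :
    Tendsto (fun t : ℝ => ee N bad (t + u) - ee N bad t) atTop (𝓝 0) := by
  have h1 := (mertens_ratio u hu).const_mul 200
  have h2 := ((mertens_ratio (u / 2) (by positivity)).comp half_tendsto).const_mul 99
  have h3 := h1.add h2
  simp only [mul_zero, add_zero] at h3
  rw [tendsto_zero_iff_abs_tendsto_zero]
  refine squeeze_zero' (Eventually.of_forall fun _ => abs_nonneg _) ?_ h3
  filter_upwards [ceil_tendsto.eventually_ge_atTop 1024] with t ht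
  have e1 : (t + u) / 2 = t / 2 + u / 2 := by ring
  have e2 : ee N bad (t + u) - ee N bad t =
      (psum (c1 N bad) ⌈Real.exp (t + u)⌉₊ - psum (c1 N bad) ⌈Real.exp t⌉₊) +
      (psum (c2 N bad) ⌈Real.exp (t / 2 + u / 2)⌉₊ - psum (c2 N bad) ⌈Real.exp (t / 2)⌉₊) := by
    rw [ee, ee, e1]; ring
  have h4 := psum_diff_le (c1 N bad) 200 (ceil_mono (show t ≤ t + u by linarith))
    (fun p hp hle => c1_big hN p hp (ht.trans hle))
  have h5 := psum_diff_le (c2 N bad) 99 (ceil_mono (show t / 2 ≤ t / 2 + u / 2 by linarith))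
    (fun p hp _ => c2_le hN p hp)
  show |ee N bad (t + u) - ee N bad t| ≤ _
  rw [e2]
  refine (abs_add_le _ _).trans ?_
  simp only [Function.comp]
  linarith

private theorem SSb_eq {t : ℝ} (ht : 0 ≤ t)
    (hb : ∀ p : ℕ, p.Prime → ⌈Real.exp (t / 2)⌉₊ ≤ p → ¬ bad p ∧ 1024 ≤ p) :
    SSb N bad (Real.exp t) = (psum (c2 N bad) ⌈Real.exp t⌉₊ - psum (c2 N bad) ⌈Real.exp (t / 2)⌉₊) +
      (psum (fun p => (p : ℝ)⁻¹) ⌈Real.exp t⌉₊ - psum (fun p => (p : ℝ)⁻¹) ⌈Real.exp (t / 2)⌉₊) := by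
  have hle : ⌈Real.exp (t / 2)⌉₊ ≤ ⌈Real.exp t⌉₊ := ceil_mono (by linarith)
  rw [psum_sub _ hle, psum_sub _ hle, ← Finset.sum_add_distrib, SSb, Finset.mul_sum]
  have hset : (Finset.range ⌈Real.exp t⌉₊).filter
      (fun p : ℕ => p.Prime ∧ ¬ bad p ∧ Real.exp t ≤ (p : ℝ) ^ 2) =
      (Finset.Ico ⌈Real.exp (t / 2)⌉₊ ⌈Real.exp t⌉₊).filter Nat.Prime := by
    ext p
    have hiff : Real.exp t ≤ (p : ℝ) ^ 2 ↔ ⌈Real.exp (t / 2)⌉₊ ≤ p := by
      rw [Nat.ceil_le]
      have e : Real.exp t = Real.exp (t / 2) ^ 2 := by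
        rw [← Real.exp_nat_mul]; congr 1; push_cast; ring
      rw [e]
      exact pow_le_pow_iff_left₀ (Real.exp_pos _).le (Nat.cast_nonneg _) (by norm_num)
    simp only [Finset.mem_filter, Finset.mem_range, Finset.mem_Ico, hiff]
    constructor
    · rintro ⟨h1, h2, _, h4⟩
      exact ⟨⟨h4, h1⟩, h2⟩
    · rintro ⟨⟨h4, h1⟩, h2⟩
      exact ⟨h1, h2, (hb p h2 h4).1, h4⟩
  rw [hset]
  refine Finset.sum_congr rfl fun p hp => ?_
  rw [Finset.mem_filter, Finset.mem_Ico] at hp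
  obtain ⟨h1, h2⟩ := hb p hp.2 hp.1.1
  have h3 : c2 N bad p = alp N p ^ 2 / 2 - (p : ℝ)⁻¹ := by
    rw [c2, if_neg]
    rintro (h | h)
    · exact h1 h
    · omega
  rw [h3, alp]
  ring

theorem ee_lim (hN : NHyp N) (hfin : {p : Nat.Primes | bad p}.Finite) :
    Tendsto (fun t : ℝ => ee N bad t + SSb N bad (Real.exp t)) atTop (𝓝 (Real.log 2 + E0 N bad)) := by
  obtain ⟨B, hB⟩ : ∃ B : ℕ, ∀ p : ℕ, p.Prime → bad p → p < B := by
    obtain ⟨B, hB⟩ := (hfin.image fun p : Nat.Primes => (p : ℕ)).bddAbove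
    refine ⟨B + 1, fun p hp hb => ?_⟩
    have : p ≤ B := hB ⟨⟨p, hp⟩, hb, rfl⟩
    omega
  have hS : Summable fun p : Nat.Primes => c1 N bad p + c2 N bad p := (summable_c12 hN).of_abs
  have h1 := (psum_tendsto (fun p => c1 N bad p + c2 N bad p) hS).comp ceil_tendsto
  have h2 := mertens_half.add h1
  refine h2.congr' ?_
  filter_upwards [(ceil_tendsto.comp half_tendsto).eventually_ge_atTop (max B 1024),
    eventually_ge_atTop 0] with t ht ht0
  have ht' : max B 1024 ≤ ⌈Real.exp (t / 2)⌉₊ := ht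
  have h3 := SSb_eq (N := N) (bad := bad) ht0 (fun p hp hle => ⟨fun hb => by
    have := hB p hp hb
    have := le_max_left B 1024
    omega, by
    have := le_max_right B 1024
    omega⟩)
  rw [h3, ee_eq]
  simp only [Function.comp]
  ring

theorem SSb_bdd (hN : NHyp N) : ∃ C : ℝ, 0 ≤ C ∧ ∀ x : ℝ, 0 ≤ SSb N bad x ∧ SSb N bad x ≤ C := by
  obtain ⟨C, hC0, hC⟩ := mertens_bdd
  refine ⟨98 * C, by positivity, fun x => ⟨?_, ?_⟩⟩
  · rw [SSb]
    exact mul_nonneg (by norm_num) (Finset.sum_nonneg fun _ _ => sq_nonneg _)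
  · rcases lt_or_ge x 1 with hx | hx
    · have h1 : ⌈x⌉₊ ≤ 1 := Nat.ceil_le.2 (by simpa using hx.le)
      have h2 : (Finset.range ⌈x⌉₊).filter
          (fun p : ℕ => p.Prime ∧ ¬ bad p ∧ x ≤ (p : ℝ) ^ 2) = ∅ := by
        rw [Finset.filter_eq_empty_iff]
        intro p hp hp'
        rw [Finset.mem_range] at hp
        have := hp'.1.two_le
        omega
      rw [SSb, h2, Finset.sum_empty, mul_zero]
      positivity
    · have hx0 : 0 < x := by linarith
      have ht : 0 ≤ Real.log x := Real.log_nonneg hx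
      have h3 := hC _ ht
      rw [Real.exp_log hx0] at h3
      have e2 : Real.exp (Real.log x / 2) ^ 2 = x := by
        rw [← Real.exp_nat_mul]
        have : ((2 : ℕ) : ℝ) * (Real.log x / 2) = Real.log x := by push_cast; ring
        rw [this, Real.exp_log hx0]
      have hle : ⌈Real.exp (Real.log x / 2)⌉₊ ≤ ⌈x⌉₊ := by
        apply Nat.ceil_mono
        have h1e : 1 ≤ Real.exp (Real.log x / 2) := Real.one_le_exp (by positivity)
        nlinarith
      rw [psum_sub _ hle] at h3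
      refine le_trans ?_ (mul_le_mul_of_nonneg_left h3 (by norm_num))
      rw [SSb, Finset.mul_sum, Finset.mul_sum]
      refine (Finset.sum_le_sum (g := fun p : ℕ => 98 * (p : ℝ)⁻¹) fun p hp => ?_).trans
        (Finset.sum_le_sum_of_subset_of_nonneg ?_ fun _ _ _ => by positivity)
      · rw [Finset.mem_filter] at hp
        have h4 := alp_bound N hN.bd p hp.2.1
        have hp0 : (0 : ℝ) < p := by exact_mod_cast hp.2.1.pos
        have h5 : alp N p ^ 2 ≤ (14 * (Real.sqrt p)⁻¹) ^ 2 := sq_le_sq' (abs_le.1 h4).1 (abs_le.1 h4).2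
        have h6 : (14 * (Real.sqrt p)⁻¹) ^ 2 = 196 * (p : ℝ)⁻¹ := by
          rw [mul_pow, inv_pow, Real.sq_sqrt hp0.le]; norm_num
        have h7 : (((p : ℝ) + 1 - N p) / p) ^ 2 = alp N p ^ 2 := by rw [alp]
        rw [h7]
        linarith
      · intro p hp
        rw [Finset.mem_filter, Finset.mem_range] at hp
        rw [Finset.mem_filter, Finset.mem_Ico]
        refine ⟨⟨?_, hp.1⟩, hp.2.1⟩
        rw [Nat.ceil_le]
        have h8 : Real.exp (Real.log x / 2) ^ 2 ≤ (p : ℝ) ^ 2 := by rw [e2]; exact hp.2.2.2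
        exact (pow_le_pow_iff_left₀ (Real.exp_pos _).le (Nat.cast_nonneg _) (by norm_num)).1 h8

end Pool.Agent.Helper58.BSD
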