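import Mathlib
import Pool.Agent.Helper58.BSD.ELoc
import Pool.Agent.Helper13.Bsd.Laplace
import Pool.Agent.Helper13.Bsd.FrA

/-!
# E6. Growth of `log P_E(e^t)` (weight 10, project BSD)

PROOF. `|LL N bad t| ≤ ∑_{1 ≤ n < ⌈e^t⌉₊} 65536 n^{-1/2}` by `ell_le`, and `∑_{1 ≤ n < m} n^{-1/2} ≤ 2 √m`
(induction: `2 √(n+1) - 2 √n ≥ (√(n+1))⁻¹`), `⌈e^t⌉₊ ≤ 2 e^t` for `t ≥ 0`, `√(2 e^t) ≤ 2 e^{t/2}`.
-/

namespace Pool.Agent.Helper58.BSD

open Filter Topology Pool.Agent.Helper13.Bsd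

variable {N : ℕ → ℕ} {bad : ℕ → Prop} [DecidablePred bad]

theorem LL_half (hN : NHyp N) (t : ℝ) (ht : 0 ≤ t) :
    |LL N bad t| ≤ 65536 * 4 * Real.exp (t / 2) := by
  have h1 : |LL N bad t| ≤ 65536 * (2 * Real.sqrt (⌈Real.exp t⌉₊ : ℝ)) := by
    unfold LL LLs
    refine (Finset.abs_sum_le_sum_abs _ _).trans ?_
    calc ∑ p ∈ (Finset.range ⌈Real.exp t⌉₊).filter (fun p : ℕ => Nat.Prime p ∧ ¬ bad p), |ell N p|
        ≤ ∑ p ∈ (Finset.range ⌈Real.exp t⌉₊).filter (fun p : ℕ => Nat.Prime p ∧ ¬ bad p),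
            (65536 * (Real.sqrt p)⁻¹) := by
          apply Finset.sum_le_sum
          intro p hp
          rw [Finset.mem_filter, Finset.mem_range] at hp
          exact ell_sqrt_bound N hN.one_le hN.bd p hp.2.1
      _ ≤ ∑ p ∈ Finset.range ⌈Real.exp t⌉₊, (65536 * (Real.sqrt p)⁻¹) := by
          apply Finset.sum_le_sum_of_subset_of_nonneg (Finset.filter_subset _ _)
          intro i _ _
          positivity
      _ = 65536 * ∑ p ∈ Finset.range ⌈Real.exp t⌉₊, (Real.sqrt p)⁻¹ := by rw [Finset.mul_sum]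
      _ ≤ _ := by
          gcongr
          exact sum_inv_sqrt_le _
  refine h1.trans ?_
  have h2 : (⌈Real.exp t⌉₊ : ℝ) ≤ 2 * Real.exp t := by
    have h3 := (Nat.ceil_lt_add_one (Real.exp_pos t).le).le
    have h4 : 1 ≤ Real.exp t := Real.one_le_exp ht
    linarith
  have h5 : Real.exp (t / 2) ^ 2 = Real.exp t := by
    rw [← Real.exp_nat_mul]
    congr 1
    push_cast
    ring
  have h6 : Real.sqrt (⌈Real.exp t⌉₊ : ℝ) ≤ 2 * Real.exp (t / 2) := by
    rw [Real.sqrt_le_left (by positivity), mul_pow, h5]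
    have := Real.exp_pos t
    linarith
  linarith

end Pool.Agent.Helper58.BSD
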