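import Mathlib
import Pool.Agent.Helper58.BSD.EDefs
import Pool.Agent.Helper13.Bsd.Continue

/-!
# E2. Laplace transforms of sums over primes (weight 10, project BSD)

PROOF. `lap_psum`: copy the proof of `Df_eq` in Helper13/Bsd/Laplace.lean (line 180), which is this statement for
`c p = ell N p` (`p` good), with `|ell N p| ≤ 2 p`. Summability: `∑_p C p · p^{-Re w} < ∞` for `Re w > 10`.
`psum_bound`: at most `n` terms, each `≤ C n`; for `n = ⌈e^t⌉`: `n ≤ 2 e^t` (`t ≥ 0`).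
`lap_psum_half`: `Lap (fun t => S (t/2)) w = 2 Lap S (2 w)` (substitution, `integral_comp_mul_left_Ioi` or
`MeasureTheory.integral_comp_div_Ioi`...) and `lap_psum` at `2 w`, `p^{-2w} = (p^{-w})^2`.
-/

namespace Pool.Agent.Helper58.BSD

open Complex Filter Topology MeasureTheory Set Pool.Agent.Helper13.Bsd

theorem measurable_psum_exp (c : ℕ → ℝ) (a : ℝ) :
    Measurable (fun t : ℝ => psum c ⌈Real.exp (t / a)⌉₊) := by
  have h1 : Measurable (psum c) := measurable_from_nat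
  have h2 : Measurable (fun t : ℝ => Real.exp (t / a)) :=
    Real.measurable_exp.comp (measurable_id.div_const a)
  exact h1.comp (Nat.measurable_ceil.comp h2)

theorem psum_bound (c : ℕ → ℝ) (C : ℝ) (hC : 0 ≤ C) (hc : ∀ p : ℕ, p.Prime → |c p| ≤ C * p) (t : ℝ) (ht : 0 ≤ t) :
    |psum c ⌈Real.exp t⌉₊| ≤ 4 * C * Real.exp (2 * t) := by
  have h1 : |psum c ⌈Real.exp t⌉₊| ≤ C * (⌈Real.exp t⌉₊ : ℝ) ^ 2 := by
    unfold psum
    refine (Finset.abs_sum_le_sum_abs _ _).trans ?_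
    calc ∑ p ∈ (Finset.range ⌈Real.exp t⌉₊).filter Nat.Prime, |c p|
        ≤ ∑ p ∈ (Finset.range ⌈Real.exp t⌉₊).filter Nat.Prime, (C * (⌈Real.exp t⌉₊ : ℝ)) := by
          apply Finset.sum_le_sum
          intro p hp
          rw [Finset.mem_filter, Finset.mem_range] at hp
          refine (hc p hp.2).trans ?_
          have : (p : ℝ) ≤ (⌈Real.exp t⌉₊ : ℝ) := by exact_mod_cast hp.1.le
          exact mul_le_mul_of_nonneg_left this hC
      _ = ((Finset.range ⌈Real.exp t⌉₊).filter Nat.Prime).card * (C * (⌈Real.exp t⌉₊ : ℝ)) := by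
          rw [Finset.sum_const, nsmul_eq_mul]
      _ ≤ (⌈Real.exp t⌉₊ : ℝ) * (C * (⌈Real.exp t⌉₊ : ℝ)) := by
          have h2 : (((Finset.range ⌈Real.exp t⌉₊).filter Nat.Prime).card : ℝ) ≤ ⌈Real.exp t⌉₊ := by
            have h3 := Finset.card_filter_le (Finset.range ⌈Real.exp t⌉₊) Nat.Prime
            rw [Finset.card_range] at h3
            exact_mod_cast h3
          exact mul_le_mul_of_nonneg_right h2 (by positivity)
      _ = _ := by ring
  refine h1.trans ?_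
  have h2 : (⌈Real.exp t⌉₊ : ℝ) ≤ 2 * Real.exp t := by
    have h3 := (Nat.ceil_lt_add_one (Real.exp_pos t).le).le
    have h4 : 1 ≤ Real.exp t := Real.one_le_exp ht
    linarith
  have h5 : Real.exp (2 * t) = Real.exp t ^ 2 := by
    rw [← Real.exp_nat_mul]
    norm_num
  rw [h5]
  have h6 : (⌈Real.exp t⌉₊ : ℝ) ^ 2 ≤ (2 * Real.exp t) ^ 2 := by gcongr
  nlinarith

private theorem summable_absCoeff (c : ℕ → ℝ) (C : ℝ) (hC : 0 ≤ C)
    (hc : ∀ p : ℕ, p.Prime → |c p| ≤ C * p) (x : ℝ) (hx : 2 < x) :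
    Summable (fun p : Nat.Primes => |c p| * ((p : ℕ) : ℝ) ^ (-x)) := by
  refine Summable.of_nonneg_of_le (f := fun p : Nat.Primes => C * ((p : ℕ) : ℝ) ^ (-(x - 1))) ?_ ?_ ?_
  · intro p
    positivity
  · intro p
    have hp0 : (0 : ℝ) < ((p : ℕ) : ℝ) := by exact_mod_cast p.2.pos
    have h1 := hc p p.2
    have e : ((p : ℕ) : ℝ) ^ (-(x - 1)) = ((p : ℕ) : ℝ) * ((p : ℕ) : ℝ) ^ (-x) := by
      have : -(x - 1) = 1 + -x := by ring
      rw [this, Real.rpow_add hp0, Real.rpow_one]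
    rw [e]
    have h2 : 0 ≤ ((p : ℕ) : ℝ) ^ (-x) := by positivity
    nlinarith [mul_le_mul_of_nonneg_right h1 h2]
  · exact (summable_primes_rpow (by linarith)).mul_left _

theorem summable_coeff (c : ℕ → ℝ) (C : ℝ) (hC : 0 ≤ C) (hc : ∀ p : ℕ, p.Prime → |c p| ≤ C * p) (w : ℂ)
    (hw : 10 < w.re) : Summable (fun p : Nat.Primes => (c p : ℂ) * ((p : ℕ) : ℂ) ^ (-w)) := by
  apply Summable.of_norm
  refine (summable_absCoeff c C hC hc w.re (by linarith)).congr fun p => ?_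
  rw [norm_mul, norm_real, Real.norm_eq_abs, norm_X p p.2]

theorem lap_psum (c : ℕ → ℝ) (C : ℝ) (hC : 0 ≤ C) (hc : ∀ p : ℕ, p.Prime → |c p| ≤ C * p) (w : ℂ)
    (hw : 10 < w.re) :
    w * Lap (fun t => psum c ⌈Real.exp t⌉₊) w = ∑' p : Nat.Primes, (c p : ℂ) * ((p : ℕ) : ℂ) ^ (-w) := by
  have hw0 : w ≠ 0 := by
    rintro rfl
    simp at hw
    linarith
  set Fp : Nat.Primes → ℝ → ℂ := fun p t =>
    (Ioi (Real.log ((p : ℕ) : ℝ))).indicator (fun t : ℝ => (c p : ℂ) * cexp (-w * t)) t with hFp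
  have hlog0 : ∀ p : Nat.Primes, 0 ≤ Real.log ((p : ℕ) : ℝ) := fun p =>
    Real.log_nonneg (by exact_mod_cast p.2.one_le)
  have hsub : ∀ p : Nat.Primes, Ioi (Real.log ((p : ℕ) : ℝ)) ∩ Ioi 0 = Ioi (Real.log ((p : ℕ) : ℝ)) := by
    intro p
    rw [Ioi_inter_Ioi, sup_eq_left.mpr (hlog0 p)]
  have hre : (-w).re < 0 := by simp; linarith
  have hint0 : ∀ p : Nat.Primes, IntegrableOn (fun t : ℝ => (c p : ℂ) * cexp (-w * t))
      (Ioi (Real.log ((p : ℕ) : ℝ))) := fun p =>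
    (integrableOn_exp_mul_complex_Ioi hre _).const_mul _
  have hFint : ∀ p : Nat.Primes, Integrable (Fp p) (volume.restrict (Ioi 0)) := by
    intro p
    rw [hFp, integrable_indicator_iff measurableSet_Ioi, IntegrableOn,
      Measure.restrict_restrict measurableSet_Ioi, hsub]
    exact hint0 p
  have hval : ∀ p : Nat.Primes, ∫ t in Ioi (0 : ℝ), Fp p t
      = w⁻¹ * ((c p : ℂ) * ((p : ℕ) : ℂ) ^ (-w)) := by
    intro p
    have hp0 : ((p : ℕ) : ℂ) ≠ 0 := by exact_mod_cast p.2.ne_zero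
    have hp0' : (0 : ℝ) ≤ ((p : ℕ) : ℝ) := by positivity
    simp only [hFp]
    rw [integral_indicator measurableSet_Ioi, Measure.restrict_restrict measurableSet_Ioi, hsub,
      integral_const_mul, integral_exp_mul_complex_Ioi hre]
    have e : cexp (-w * (Real.log ((p : ℕ) : ℝ) : ℂ)) = ((p : ℕ) : ℂ) ^ (-w) := by
      rw [cpow_def_of_ne_zero hp0, ofReal_log hp0']
      push_cast
      congr 1
      ring
    rw [e]
    field_simp
  have hnorm : ∀ p : Nat.Primes, ∫ t in Ioi (0 : ℝ), ‖Fp p t‖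
      = w.re⁻¹ * (|c p| * ((p : ℕ) : ℝ) ^ (-w.re)) := by
    intro p
    have hp0 : (0 : ℝ) < ((p : ℕ) : ℝ) := by exact_mod_cast p.2.pos
    have e1 : ∀ t, ‖Fp p t‖ = (Ioi (Real.log ((p : ℕ) : ℝ))).indicator
        (fun t : ℝ => |c p| * Real.exp (-w.re * t)) t := by
      intro t
      simp only [hFp]
      rw [norm_indicator_eq_indicator_norm]
      congr 1
      funext t
      rw [norm_mul, norm_real, norm_exp, Real.norm_eq_abs]
      simp
    simp_rw [e1]
    rw [integral_indicator measurableSet_Ioi, Measure.restrict_restrict measurableSet_Ioi, hsub,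
      integral_const_mul, integral_exp_mul_Ioi (by linarith)]
    have e2 : Real.exp (-w.re * Real.log ((p : ℕ) : ℝ)) = ((p : ℕ) : ℝ) ^ (-w.re) := by
      rw [Real.rpow_def_of_pos hp0]
      congr 1
      ring
    rw [e2]
    have : w.re ≠ 0 := by linarith
    field_simp
  have hsum := hasSum_integral_of_summable_integral_norm hFint (by
    simp_rw [hnorm]
    exact (summable_absCoeff c C hC hc w.re (by linarith)).mul_left _)
  have htsum : ∀ t, ∑' p : Nat.Primes, Fp p t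
      = ((psum c ⌈Real.exp t⌉₊ : ℝ) : ℂ) * cexp (-w * t) := by
    intro t
    have e1 : ∀ p : Nat.Primes, Fp p t
        = (if (p : ℕ) < ⌈Real.exp t⌉₊ then (c p : ℂ) else 0) * cexp (-w * t) := by
      intro p
      have hp0 : (0 : ℝ) < ((p : ℕ) : ℝ) := by exact_mod_cast p.2.pos
      simp only [hFp, indicator_apply, mem_Ioi, Nat.lt_ceil]
      by_cases h : ((p : ℕ) : ℝ) < Real.exp t
      · have h' : Real.log ((p : ℕ) : ℝ) < t := (Real.log_lt_iff_lt_exp hp0).mpr h
        rw [if_pos h', if_pos h]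
      · have h' : ¬ Real.log ((p : ℕ) : ℝ) < t := fun h'' =>
          h ((Real.log_lt_iff_lt_exp hp0).mp h'')
        rw [if_neg h', if_neg h, zero_mul]
    simp_rw [e1]
    rw [tsum_mul_right, tsum_primes_lt (fun p => (c p : ℂ))]
    congr 1
    unfold psum
    push_cast
    rfl
  have h1 := hsum.tsum_eq
  simp_rw [hval, htsum] at h1
  rw [tsum_mul_left] at h1
  rw [Lap, ← h1]
  field_simp

theorem lap_psum_half (c : ℕ → ℝ) (C : ℝ) (hC : 0 ≤ C) (hc : ∀ p : ℕ, p.Prime → |c p| ≤ C * p) (w : ℂ)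
    (hw : 10 < w.re) :
    w * Lap (fun t => psum c ⌈Real.exp (t / 2)⌉₊) w
      = ∑' p : Nat.Primes, (c p : ℂ) * (((p : ℕ) : ℂ) ^ (-w)) ^ 2 := by
  have h1 : Lap (fun t => psum c ⌈Real.exp (t / 2)⌉₊) w =
      2 * Lap (fun t => psum c ⌈Real.exp t⌉₊) (2 * w) := by
    unfold Lap
    have h2 := integral_comp_mul_left_Ioi
      (fun t : ℝ => ((psum c ⌈Real.exp (t / 2)⌉₊ : ℝ) : ℂ) * cexp (-w * t)) 0
      (by norm_num : (0 : ℝ) < 2)
    rw [mul_zero] at h2
    have h3 : ∀ t : ℝ, ((psum c ⌈Real.exp (2 * t / 2)⌉₊ : ℝ) : ℂ) * cexp (-w * ((2 * t : ℝ) : ℂ)) =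
        ((psum c ⌈Real.exp t⌉₊ : ℝ) : ℂ) * cexp (-(2 * w) * (t : ℂ)) := by
      intro t
      have e1 : 2 * t / 2 = t := by ring
      rw [e1]
      congr 2
      push_cast
      ring
    simp_rw [h3] at h2
    rw [h2, real_smul]
    push_cast
    ring
  have hw2 : 10 < (2 * w).re := by
    simp
    linarith
  have h2 := lap_psum c C hC hc (2 * w) hw2
  rw [h1]
  calc w * (2 * Lap (fun t => psum c ⌈Real.exp t⌉₊) (2 * w))
      = 2 * w * Lap (fun t => psum c ⌈Real.exp t⌉₊) (2 * w) := by ring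
    _ = ∑' p : Nat.Primes, (c p : ℂ) * ((p : ℕ) : ℂ) ^ (-(2 * w)) := h2
    _ = _ := by
      apply tsum_congr
      intro p
      have hp0 : ((p : ℕ) : ℂ) ≠ 0 := by exact_mod_cast p.2.ne_zero
      congr 1
      rw [← cpow_nat_mul]
      congr 1
      push_cast
      ring

private theorem lapInt_aux (g : ℝ → ℝ) (hg : Measurable g) (K : ℝ)
    (hb : ∀ t : ℝ, 0 ≤ t → |g t| ≤ K * Real.exp (2 * t)) (x : ℝ) (hx : 2 < x) : LapInt g x := by
  unfold LapInt
  have h1 : IntegrableOn (fun t : ℝ => K * Real.exp (-(x - 2) * t)) (Ioi 0) :=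
    (integrableOn_exp_mul_Ioi (by linarith) 0).const_mul _
  refine Integrable.mono' h1 ?_ ?_
  · exact (hg.mul (by fun_prop)).aestronglyMeasurable
  · rw [ae_restrict_iff' measurableSet_Ioi]
    filter_upwards with t ht
    have ht' : 0 < t := ht
    rw [norm_mul, Real.norm_eq_abs, Real.norm_eq_abs, Real.abs_exp]
    calc |g t| * Real.exp (-x * t) ≤ K * Real.exp (2 * t) * Real.exp (-x * t) :=
          mul_le_mul_of_nonneg_right (hb t ht'.le) (Real.exp_pos _).le
      _ = K * Real.exp (-(x - 2) * t) := by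
          rw [mul_assoc, ← Real.exp_add]
          ring_nf

theorem lapInt_psum (c : ℕ → ℝ) (C : ℝ) (hC : 0 ≤ C) (hc : ∀ p : ℕ, p.Prime → |c p| ≤ C * p) (x : ℝ)
    (hx : 2 < x) : LapInt (fun t => psum c ⌈Real.exp t⌉₊) x ∧ LapInt (fun t => psum c ⌈Real.exp (t / 2)⌉₊) x := by
  constructor
  · apply lapInt_aux _ _ (4 * C) (psum_bound c C hC hc) x hx
    have := measurable_psum_exp c 1
    simpa using this
  · apply lapInt_aux _ (measurable_psum_exp c 2) (4 * C) _ x hx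
    intro t ht
    have h1 := psum_bound c C hC hc (t / 2) (by positivity)
    refine h1.trans ?_
    have h2 : Real.exp (2 * (t / 2)) ≤ Real.exp (2 * t) := by
      rw [Real.exp_le_exp]
      linarith
    exact mul_le_mul_of_nonneg_left h2 (by positivity)

end Pool.Agent.Helper58.BSD
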