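import Mathlib
import Pool.Agent.Helper58.BSD.ELap
import Pool.Agent.Helper58.BSD.ERem
import Pool.Agent.Helper58.BSD.ELoc
import Pool.Agent.Helper13.Bsd.Laplace

/-!
# E7. The identity `GG = exp (- w Lap (LL - ee))` for `Re w > 10` (weight 10, project BSD)

PROOF. `euler_identity` and `Df_eq` (Helper13/Bsd): `Gf = exp (Hf + D0 - w Lap LL)`. Termwise, for every
prime `p`: `hterm p w + [p < 1024, good] ℓ_p X - rterm p w = c1 p X + c2 p X ^ 2` (by cases bad / `p < 1024` / big).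
`D0` is a finite sum over `smallP`: it is a `tsum` with `tsum_eq_sum`. Summability of
`rterm` (`rterm_bound`), of `c1 X` and `c2 X ^ 2` (`summable_coeff`, `c1_lin`,
`c2_lin`; `‖X ^ 2‖ ≤ ‖X‖`). Hence `Hf + D0 - Rf = w Lap ee` (`lap_psum`, `lap_psum_half`; `Lap` is additive) and
`GG = Gf exp (-Rf) = exp (Hf + D0 - Rf - w Lap LL) = exp (-(w Lap (LL - ee)))` (`Lap_sub`, `LapInt_LL`).
-/

namespace Pool.Agent.Helper58.BSD

open Complex Filter Topology Pool.Agent.Helper13.Bsd

variable {N : ℕ → ℕ} {bad : ℕ → Prop} [DecidablePred bad]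

private theorem term_split (p : ℕ) (w : ℂ) :
    hterm N bad p w = (c1 N bad p : ℂ) * (p : ℂ) ^ (-w) + (c2 N bad p : ℂ) * ((p : ℂ) ^ (-w)) ^ 2
      + rterm N bad p w
      - (if bad p ∨ ¬ p < 1024 then 0 else (ell N p : ℂ) * (p : ℂ) ^ (-w)) := by
  unfold hterm c1 c2 rterm
  by_cases h1 : bad p
  · simp [h1]
  · by_cases h2 : p < 1024
    · simp [h1, h2]
    · simp only [h1, h2, or_self, if_false, not_false_eq_true, or_true, if_true]
      push_cast
      ring

private theorem Lap_sub_ee (hN : NHyp N) (w : ℂ) (hw : 10 < w.re) :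
    Lap (fun t => LL N bad t - ee N bad t) w
      = Lap (LL N bad) w - Lap (fun t => psum (c1 N bad) ⌈Real.exp t⌉₊) w
        - Lap (fun t => psum (c2 N bad) ⌈Real.exp (t / 2)⌉₊) w := by
  have i1 := (lapInt_psum (c1 N bad) 200 (by norm_num) (fun p hp => c1_lin hN p hp) w.re (by linarith)).1
  have i2 := (lapInt_psum (c2 N bad) 200 (by norm_num) (fun p hp => c2_lin hN p hp) w.re (by linarith)).2
  have i0 := LapInt_LL N bad hN.one_le hN.bd w.re (by linarith)
  have m0 := measurable_LL N bad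
  have m1 : Measurable (fun t : ℝ => psum (c1 N bad) ⌈Real.exp t⌉₊) := by
    have := measurable_psum_exp (c1 N bad) 1
    simpa using this
  have m2 := measurable_psum_exp (c2 N bad) 2
  have e : (fun t => LL N bad t - ee N bad t)
      = fun t => (LL N bad t - psum (c1 N bad) ⌈Real.exp t⌉₊) - psum (c2 N bad) ⌈Real.exp (t / 2)⌉₊ := by
    funext t
    rw [ee]
    ring
  have m01 : Measurable (fun t : ℝ => LL N bad t - psum (c1 N bad) ⌈Real.exp t⌉₊) := m0.sub m1
  have i01 : LapInt (fun t : ℝ => LL N bad t - psum (c1 N bad) ⌈Real.exp t⌉₊) w.re := i0.sub i1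
  have s1 := Lap_sub m01 m2 i01 i2
  have s2 := Lap_sub m0 m1 i0 i1
  rw [e]
  rw [s2] at s1
  exact s1

theorem GG_identity (hN : NHyp N) (F : ℂ → ℂ) (hFd : Differentiable ℂ F) (hF : EulerB N bad F) (w : ℂ)
    (hw : 10 < w.re) :
    GG N bad F w = cexp (-(w * Lap (fun t => LL N bad t - ee N bad t) w)) := by
  have hs1 : Summable (fun p : Nat.Primes => (c1 N bad p : ℂ) * ((p : ℕ) : ℂ) ^ (-w)) :=
    summable_coeff _ 200 (by norm_num) (fun p hp => c1_lin hN p hp) w hw
  have hs2' : Summable (fun p : Nat.Primes => (c2 N bad p : ℂ) * ((p : ℕ) : ℂ) ^ (-w)) :=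
    summable_coeff _ 200 (by norm_num) (fun p hp => c2_lin hN p hp) w hw
  have hs2 : Summable (fun p : Nat.Primes => (c2 N bad p : ℂ) * (((p : ℕ) : ℂ) ^ (-w)) ^ 2) := by
    refine Summable.of_norm_bounded hs2'.norm ?_
    intro p
    have hX1 := norm_X_le_one (p : ℕ) p.2 w (by linarith)
    rw [norm_mul, norm_mul, norm_pow]
    have h0 := norm_nonneg (((p : ℕ) : ℂ) ^ (-w))
    have h1 : ‖((p : ℕ) : ℂ) ^ (-w)‖ ^ 2 ≤ ‖((p : ℕ) : ℂ) ^ (-w)‖ := by nlinarith
    exact mul_le_mul_of_nonneg_left h1 (norm_nonneg _)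
  have hsr : Summable (fun p : Nat.Primes => rterm N bad p w) := by
    refine Summable.of_norm_bounded ((summable_primes_rpow (x := 147 / 100) (by norm_num)).mul_left 2000) ?_
    intro p
    exact rterm_bound hN p p.2 w (by linarith)
  set dt : Nat.Primes → ℂ := fun p =>
    if bad (p : ℕ) ∨ ¬ (p : ℕ) < 1024 then 0 else (ell N p : ℂ) * ((p : ℕ) : ℂ) ^ (-w) with hdt
  have hdt0 : ∀ p ∉ smallP, dt p = 0 := by
    intro p hp
    rw [mem_smallP] at hp
    simp only [hdt]
    rw [if_pos (Or.inr hp)]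
  have hsd : Summable dt := summable_of_ne_finset_zero hdt0
  have hD0 : D0 N bad w = ∑' p, dt p := by
    rw [tsum_eq_sum hdt0, D0]
    apply Finset.sum_congr rfl
    intro p hp
    rw [mem_smallP] at hp
    simp only [hdt]
    by_cases h : bad p <;> simp [h, hp]
  have hHf : Hf N bad w = (∑' p : Nat.Primes, (c1 N bad p : ℂ) * ((p : ℕ) : ℂ) ^ (-w))
      + (∑' p : Nat.Primes, (c2 N bad p : ℂ) * (((p : ℕ) : ℂ) ^ (-w)) ^ 2) + Rf N bad w - D0 N bad w := by
    rw [Hf, hD0, Rf, ← hs1.tsum_add hs2, ← (hs1.add hs2).tsum_add hsr,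
      ← ((hs1.add hs2).add hsr).tsum_sub hsd]
    exact tsum_congr fun p => term_split (N := N) (bad := bad) p w
  have e1 := lap_psum (c1 N bad) 200 (by norm_num) (fun p hp => c1_lin hN p hp) w hw
  have e2 := lap_psum_half (c2 N bad) 200 (by norm_num) (fun p hp => c2_lin hN p hp) w hw
  rw [← e1, ← e2] at hHf
  rw [GG, euler_identity N bad hN.one_le hN.bd F hF w hw, ← Complex.exp_add,
    Df_eq N bad hN.one_le hN.bd w hw, hHf, Lap_sub_ee hN w hw]
  congr 1
  ring

end Pool.Agent.Helper58.BSD
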