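import Mathlib
import Pool.Agent.Helper58.BSD.EDefs
import Pool.Agent.Helper13.Bsd.PointCount
import Pool.Agent.Helper13.Bsd.Main

/-!
# E9. `N_p ≤ 2 p + 1` and finiteness of bad primes (weight 10, project BSD)

PROOF. `N p = 1 + #{(x, y) : 0 ≤ x, y < p, p ∣ y² + a₁ x y + a₃ y - (x³ + …)}`. For fixed `x` the condition on `y mod p` is a
monic quadratic equation over the field `ZMod p`: if `y₁ ≠ y₂` are both solutions then subtracting,
`(y₁ - y₂)(y₁ + y₂ + a₁ x + a₃) ≡ 0`, so `y₂ ≡ -y₁ - a₁ x - a₃`; hence at most two solutions. So the number of pairs is at most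
`2 p`. `1 ≤ N p` and `ap_bound` are in Helper13/Bsd (`hN_of`, `PointCount.ap_bound`).
-/

namespace Pool.Agent.Helper58.BSD

open Pool.Agent.Helper13.Bsd

private theorem eq_of_dvd_sub {p y z : ℕ} (hy : y < p) (hz : z < p) (h : (p : ℤ) ∣ (y : ℤ) - z) :
    y = z := by
  have h1 : ((z : ℕ) : ℤ) ≡ (y : ℤ) [ZMOD (p : ℤ)] := (Int.modEq_iff_dvd).2 h
  have h2 : z ≡ y [MOD p] := (Int.natCast_modEq_iff).1 h1
  exact (Nat.ModEq.eq_of_lt_of_lt h2 hz hy).symm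

private theorem dvd_of_two {p : ℕ} (hp : p.Prime) {y z A r : ℤ} (hyz : ¬ (p : ℤ) ∣ y - z)
    (hy : (p : ℤ) ∣ y ^ 2 + A * y - r) (hz : (p : ℤ) ∣ z ^ 2 + A * z - r) :
    (p : ℤ) ∣ y + z + A := by
  have h1 : (p : ℤ) ∣ (y - z) * (y + z + A) := by
    have := dvd_sub hy hz
    have e : y ^ 2 + A * y - r - (z ^ 2 + A * z - r) = (y - z) * (y + z + A) := by ring
    rwa [e] at this
  rcases (Nat.prime_iff_prime_int.1 hp).dvd_or_dvd h1 with h | h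
  · exact absurd h hyz
  · exact h

theorem nhyp (W : WeierstrassCurve ℤ) (N : ℕ → ℕ)
    (hNdef : ∀ p : ℕ, N p = 1 + ((Finset.range p ×ˢ Finset.range p).filter
      (fun q : ℕ × ℕ => (p : ℤ) ∣ ((q.2 : ℤ) ^ 2 + W.a₁ * (q.1 : ℤ) * (q.2 : ℤ) + W.a₃ * (q.2 : ℤ)
        - ((q.1 : ℤ) ^ 3 + W.a₂ * (q.1 : ℤ) ^ 2 + W.a₄ * (q.1 : ℤ) + W.a₆)))).card) : NHyp N := by
  refine ⟨fun p hp => ?_, fun p hp => ?_, fun p hp => ap_bound W N hNdef p hp⟩
  · rw [hNdef p]; omega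
  · rw [hNdef p]
    set S := (Finset.range p ×ˢ Finset.range p).filter
      (fun q : ℕ × ℕ => (p : ℤ) ∣ ((q.2 : ℤ) ^ 2 + W.a₁ * (q.1 : ℤ) * (q.2 : ℤ) + W.a₃ * (q.2 : ℤ)
        - ((q.1 : ℤ) ^ 3 + W.a₂ * (q.1 : ℤ) ^ 2 + W.a₄ * (q.1 : ℤ) + W.a₆))) with hS
    have hcard : S.card ≤ 2 * (Finset.range p).card := by
      refine Finset.card_le_mul_card_image_of_maps_to (f := Prod.fst) ?_ 2 ?_
      · intro q hq
        exact (Finset.mem_product.1 (Finset.mem_filter.1 hq).1).1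
      · intro x hx
        by_contra hcon
        rw [not_le, Finset.two_lt_card] at hcon
        obtain ⟨a, ha, b, hb, c, hc, hab, hac, hbc⟩ := hcon
        have key : ∀ q ∈ S.filter (fun a => a.1 = x), q.1 = x ∧ q.2 < p ∧
            (p : ℤ) ∣ (q.2 : ℤ) ^ 2 + (W.a₁ * (x : ℤ) + W.a₃) * (q.2 : ℤ)
              - ((x : ℤ) ^ 3 + W.a₂ * (x : ℤ) ^ 2 + W.a₄ * (x : ℤ) + W.a₆) := by
          intro q hq
          obtain ⟨hqS, hqx⟩ := Finset.mem_filter.1 hq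
          obtain ⟨hqp, hqd⟩ := Finset.mem_filter.1 hqS
          refine ⟨hqx, Finset.mem_range.1 (Finset.mem_product.1 hqp).2, ?_⟩
          rw [hqx] at hqd
          have e : (q.2 : ℤ) ^ 2 + (W.a₁ * (x : ℤ) + W.a₃) * (q.2 : ℤ)
              - ((x : ℤ) ^ 3 + W.a₂ * (x : ℤ) ^ 2 + W.a₄ * (x : ℤ) + W.a₆) =
              ((q.2 : ℤ) ^ 2 + W.a₁ * (x : ℤ) * (q.2 : ℤ) + W.a₃ * (q.2 : ℤ)
              - ((x : ℤ) ^ 3 + W.a₂ * (x : ℤ) ^ 2 + W.a₄ * (x : ℤ) + W.a₆)) := by ring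
          rw [e]
          exact hqd
        obtain ⟨ha1, ha2, ha3⟩ := key a ha
        obtain ⟨hb1, hb2, hb3⟩ := key b hb
        obtain ⟨hc1, hc2, hc3⟩ := key c hc
        have nab : ¬ (p : ℤ) ∣ (a.2 : ℤ) - b.2 := fun h =>
          hab (Prod.ext (ha1.trans hb1.symm) (eq_of_dvd_sub ha2 hb2 h))
        have nac : ¬ (p : ℤ) ∣ (a.2 : ℤ) - c.2 := fun h =>
          hac (Prod.ext (ha1.trans hc1.symm) (eq_of_dvd_sub ha2 hc2 h))
        have h1 := dvd_of_two hp nab ha3 hb3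
        have h2 := dvd_of_two hp nac ha3 hc3
        have h3 : (p : ℤ) ∣ (b.2 : ℤ) - c.2 := by
          have := dvd_sub h1 h2
          have e : (a.2 : ℤ) + b.2 + (W.a₁ * (x : ℤ) + W.a₃) - ((a.2 : ℤ) + c.2 +
            (W.a₁ * (x : ℤ) + W.a₃)) = (b.2 : ℤ) - c.2 := by ring
          rwa [e] at this
        exact hbc (Prod.ext (hb1.trans hc1.symm) (eq_of_dvd_sub hb2 hc2 h3))
    rw [Finset.card_range] at hcard
    omega

end Pool.Agent.Helper58.BSD
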