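import Mathlib
import Pool.Agent.Helper58.BSD.ERem

/-!
# E8. Zeros and order of `GG` (weight 10, project BSD)

PROOF. `one_sub_zz_ne_zero_all`: `p (1 - zz_p(w)) = X ^ 2 - a X + p` with `X = p^{-w}`, `‖X‖ ≤ 1` (`Re w ≥ 0`),
`a = p + 1 - N_p` real, `f(X) = X ^ 2 - a X + p`. `f(1) = N_p ≥ 1 > 0`, `f(-1) = 2 p + 2 - N_p ≥ 1 > 0`. Suppose `f(X) = 0`, `‖X‖ ≤ 1`.
If `X` is not real, its conjugate is the other root and `‖X‖ ^ 2 = p > 1` (imaginary part of `f(X) = 0` gives
`2 Re X = a`, then the real part gives `|X|^2 = p`). If `X = x` is real, `x ≠ 0`, `|x| < 1` (`x = ±1` excluded), the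
other root is `y = p / x`, `f(1) = (1 - x)(1 - y) > 0` gives `y < 1`, `f(-1) = (1 + x)(1 + y) > 0` gives `y > -1`,
but `|y| = p / |x| > 1`. Contradiction.
`GG_zero_iff`: `GG = F(1+w) · ∏_{small} (…) · exp(-Rf)`, the other factors do not vanish.
`GG_lead`: `F` is not identically zero near `1` (it is given by a convergent product with nonzero factors for `Re s > 3/2`; see
how Helper13/Bsd/Abel.lean handles the order, e.g. in `abel_fn`), so with `r = analyticOrderNatAt F 1`, `F(1+y) = y^r g(y)`, `g(0) =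
iteratedDeriv r F 1 / r! ≠ 0`, `g` continuous. `∏_{small}(1 - zz_p(y)) → ∏_{small, good} N_p/p = exp (∑_{small good} ell)` and
`exp (-Rf y) → exp (-Rf 0)`, `Rf 0 = -∑_{p ≥ 1024 good}(c1 + c2)` (`rterm_zero`), so the norm of the product tends to
`exp (∑_p (c1 p + c2 p)) = exp E0`.
-/

namespace Pool.Agent.Helper58.BSD

open Complex Filter Topology Pool.Agent.Helper13.Bsd

variable {N : ℕ → ℕ} {bad : ℕ → Prop} [DecidablePred bad]

private lemma ez_quad (α β : ℝ) (X : ℂ) (hα : |α| ≤ 1) (hβ0 : 0 < β) (hβ : β < 1) (hX : ‖X‖ ≤ 1) :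
    1 - ((α : ℂ) * X - (β : ℂ) * X ^ 2) ≠ 0 := by
  intro h
  have hsq : X.re ^ 2 + X.im ^ 2 ≤ 1 := by
    have h1 := Complex.normSq_apply X
    have h2 := Complex.sq_norm X
    nlinarith [norm_nonneg X]
  have hre := congrArg Complex.re h
  have him := congrArg Complex.im h
  simp [pow_two] at hre him
  have hα' := abs_le.mp hα
  by_cases hi : X.im = 0
  · rw [hi] at hre hsq
    have hx : |X.re| ≤ 1 := by
      rw [abs_le]; constructor <;> nlinarith
    have hx' := abs_le.mp hx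
    have h1 : α * X.re ≤ 1 := by
      calc α * X.re ≤ |α * X.re| := le_abs_self _
        _ = |α| * |X.re| := abs_mul _ _
        _ ≤ 1 * 1 := by gcongr
        _ = 1 := one_mul 1
    by_cases hr : X.re = 0
    · rw [hr] at hre
      norm_num at hre
    · have : 0 < X.re ^ 2 := by positivity
      nlinarith [mul_pos hβ0 this]
  · have h1 : α = 2 * β * X.re := by
      have h2 : X.im * (α - 2 * β * X.re) = 0 := by linear_combination -him
      rcases mul_eq_zero.mp h2 with h3 | h3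
      · exact absurd h3 hi
      · linarith
    rw [h1] at hre
    nlinarith [sq_nonneg X.re, sq_nonneg X.im]

theorem one_sub_zz_ne_zero_all (hN : NHyp N) (p : ℕ) (hp : p.Prime) (w : ℂ) (hw : 0 ≤ w.re) :
    1 - zz N p w ≠ 0 := by
  have hp2 : (2 : ℝ) ≤ p := by exact_mod_cast hp.two_le
  have hp0 : (0 : ℝ) < p := by linarith
  have hα : |alp N p| ≤ 1 := by
    have h1 : (1 : ℝ) ≤ N p := by exact_mod_cast hN.one_le p hp
    have h2 : (N p : ℝ) ≤ 2 * p + 1 := by exact_mod_cast hN.le p hp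
    rw [alp, abs_div, abs_of_pos hp0, div_le_one hp0, abs_le]
    constructor <;> linarith
  exact ez_quad (alp N p) ((p : ℝ)⁻¹) _ hα (by positivity)
    (inv_lt_one_of_one_lt₀ (by linarith)) (norm_X_le_one p hp w hw)

theorem GG_zero_iff (hN : NHyp N) (F : ℂ → ℂ) (w : ℂ) (hw : 0 ≤ w.re) :
    GG N bad F w = 0 ↔ F (1 + w) = 0 := by
  have hprod : (∏ p ∈ smallP, if bad (p : ℕ) then (1 : ℂ) else 1 - zz N p w) ≠ 0 := by
    rw [Finset.prod_ne_zero_iff]
    intro p _
    split_ifs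
    · exact one_ne_zero
    · exact one_sub_zz_ne_zero_all hN p p.2 w hw
  unfold GG Gf
  rw [mul_eq_zero, mul_eq_zero]
  constructor
  · rintro ((h | h) | h)
    · exact h
    · exact absurd h hprod
    · exact absurd h (exp_ne_zero _)
  · intro h
    exact Or.inl (Or.inl h)

private lemma ez_zz_zero (hN : ∀ p : ℕ, p.Prime → 1 ≤ N p) (p : ℕ) (hp : p.Prime) :
    1 - zz N p 0 = ((Real.exp (ell N p) : ℝ) : ℂ) := by
  have hp0 : (0 : ℝ) < p := by exact_mod_cast hp.pos
  have h1 : (1 : ℝ) ≤ N p := by exact_mod_cast hN p hp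
  rw [ell, Real.exp_log (by positivity), zz, alp]
  push_cast
  simp
  have : (p : ℂ) ≠ 0 := by exact_mod_cast hp.ne_zero
  field_simp
  ring

private lemma ez_leading (F : ℂ → ℂ) (hFd : Differentiable ℂ F) (hord : analyticOrderAt F 1 ≠ ⊤) :
    0 < ‖iteratedDeriv (analyticOrderNatAt F 1) F 1‖ ∧
    Tendsto (fun y : ℝ => ‖F (1 + y)‖ / y ^ (analyticOrderNatAt F 1)) (𝓝[>] 0)
      (𝓝 (‖iteratedDeriv (analyticOrderNatAt F 1) F 1‖ / (analyticOrderNatAt F 1).factorial)) := by
  set r := analyticOrderNatAt F 1 with hr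
  have hFan : AnalyticAt ℂ F 1 := hFd.analyticAt 1
  have hord' : analyticOrderAt F 1 = r := (Nat.cast_analyticOrderNatAt hord).symm
  obtain ⟨hz, hnz⟩ := (analyticOrderAt_eq_nat_iff_iteratedDeriv_eq_zero hFan).mp hord'
  refine ⟨norm_pos_iff.mpr hnz, ?_⟩
  set f : ℂ → ℂ := fun z => F (1 + z) with hf
  have hfd : Differentiable ℂ f := hFd.comp (differentiable_id.const_add 1)
  have hfi : ∀ i, iteratedDeriv i f 0 = iteratedDeriv i F 1 := by
    intro i
    rw [hf, iteratedDeriv_comp_const_add]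
    simp
  obtain ⟨Φ, hΦa, hΦ⟩ := (hfd.analyticAt 0).exists_eq_sum_add_pow_mul (r + 1)
  have hform : ∀ z, f z = z ^ r * (iteratedDeriv r F 1 / r.factorial + z * Φ z) := by
    intro z
    rw [hΦ z, Finset.sum_range_succ, Finset.sum_eq_zero]
    · rw [hfi]
      simp only [smul_eq_mul]
      ring
    · intro i hi
      rw [Finset.mem_range] at hi
      rw [hfi, hz i hi, smul_zero]
  have hcont : Tendsto (fun y : ℝ => ‖iteratedDeriv r F 1 / r.factorial + (y : ℂ) * Φ y‖) (𝓝[>] 0)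
      (𝓝 (‖iteratedDeriv r F 1‖ / r.factorial)) := by
    have h1 : Tendsto (fun y : ℝ => (y : ℂ)) (𝓝[>] 0) (𝓝 ((0 : ℝ) : ℂ)) :=
      (continuous_ofReal.tendsto 0).mono_left nhdsWithin_le_nhds
    rw [ofReal_zero] at h1
    have h2 := hΦa.continuousAt.tendsto.comp h1
    have h3 := ((h1.mul h2).const_add (iteratedDeriv r F 1 / r.factorial)).norm
    rw [zero_mul, add_zero, norm_div, norm_natCast] at h3
    exact h3
  apply hcont.congr'
  have hpos : ∀ᶠ y : ℝ in 𝓝[>] 0, (0 : ℝ) < y := self_mem_nhdsWithin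
  filter_upwards [hpos] with y hy
  have h1 := hform (y : ℂ)
  rw [hf] at h1
  simp only at h1
  rw [h1, norm_mul, norm_pow, norm_real, Real.norm_eq_abs, abs_of_pos hy]
  field_simp

private lemma ez_order (hN : NHyp N) (F : ℂ → ℂ) (hFd : Differentiable ℂ F)
    (hF : EulerB N bad F) : analyticOrderAt F 1 ≠ ⊤ := by
  intro h
  rw [analyticOrderAt_eq_top] at h
  have h0 : F = 0 := by
    have h1 : AnalyticOnNhd ℂ F Set.univ := fun z _ => hFd.analyticAt z
    have h2 := h1.eqOn_zero_of_preconnected_of_eventuallyEq_zero isPreconnected_univ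
      (Set.mem_univ 1) h
    funext z
    exact h2 (Set.mem_univ z)
  have h1 := euler_identity N bad hN.one_le hN.bd F hF ((11 : ℝ) : ℂ)
    (by rw [ofReal_re]; norm_num)
  rw [Gf, h0] at h1
  simp only [Pi.zero_apply, zero_mul] at h1
  exact exp_ne_zero _ h1.symm

private lemma ez_Gf (F : ℂ → ℂ) (hFd : Differentiable ℂ F) (hord : analyticOrderAt F 1 ≠ ⊤)
    (hN : ∀ p : ℕ, p.Prime → 1 ≤ N p) :
    Tendsto (fun y : ℝ => ‖Gf N bad F (y : ℂ)‖ / y ^ (analyticOrderNatAt F 1)) (𝓝[>] 0)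
      (𝓝 (‖iteratedDeriv (analyticOrderNatAt F 1) F 1‖ / (analyticOrderNatAt F 1).factorial *
        Real.exp (∑ p ∈ smallP, if bad p then 0 else ell N p))) := by
  obtain ⟨-, h1⟩ := ez_leading F hFd hord
  have hcont : Continuous fun w : ℂ => ∏ p ∈ smallP, if bad p then 1 else 1 - zz N p w := by
    apply continuous_finsetProd
    intro p _
    split_ifs
    · exact continuous_const
    · exact continuous_const.sub (differentiable_zz N p p.2).continuous
  have h2 : Tendsto (fun y : ℝ => (y : ℂ)) (𝓝[>] 0) (𝓝 ((0 : ℝ) : ℂ)) :=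
    (continuous_ofReal.tendsto 0).mono_left nhdsWithin_le_nhds
  rw [ofReal_zero] at h2
  have h3 := ((hcont.tendsto 0).comp h2).norm
  have e3 : ‖∏ p ∈ smallP, if bad (p : ℕ) then 1 else 1 - zz N p 0‖
      = Real.exp (∑ p ∈ smallP, if bad p then 0 else ell N p) := by
    rw [norm_prod, Real.exp_sum]
    apply Finset.prod_congr rfl
    intro p _
    split_ifs
    · simp
    · rw [ez_zz_zero hN p p.2, norm_real, Real.norm_eq_abs, Real.abs_exp]
  rw [e3] at h3
  apply (h1.mul h3).congr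
  intro y
  rw [Gf, norm_mul]
  simp only [Function.comp]
  ring

private lemma ez_E0 (hN : NHyp N) :
    E0 N bad = (∑ p ∈ smallP, if bad p then 0 else ell N p) - (Rf N bad 0).re := by
  have hb : ∀ p : Nat.Primes, ‖rterm N bad p 0‖ ≤ 2000 * ((p : ℕ) : ℝ) ^ (-(147 / 100) : ℝ) :=
    fun p => rterm_bound hN p p.2 0 (by norm_num)
  have hsum : Summable fun p : Nat.Primes => rterm N bad p 0 :=
    Summable.of_norm (Summable.of_nonneg_of_le (fun _ => norm_nonneg _) hb
      ((summable_primes_rpow (by norm_num)).mul_left _))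
  have hre : (Rf N bad 0).re = ∑' p : Nat.Primes, (rterm N bad p 0).re := by
    unfold Rf
    exact Complex.re_tsum hsum
  have hsre : Summable fun p : Nat.Primes => (rterm N bad p 0).re := hsum.mapL Complex.reCLM
  have hs0 : ∀ p ∉ smallP, (if (p : ℕ) < 1024 ∧ ¬ bad p then ell N p else 0) = 0 := by
    intro p hp
    rw [mem_smallP] at hp
    rw [if_neg]
    rintro ⟨h, _⟩
    exact hp h
  have hss : Summable fun p : Nat.Primes =>
      (if (p : ℕ) < 1024 ∧ ¬ bad p then ell N p else 0) := summable_of_ne_finset_zero hs0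
  have hterm : ∀ p : Nat.Primes, c1 N bad p + c2 N bad p =
      (if (p : ℕ) < 1024 ∧ ¬ bad p then ell N p else 0) - (rterm N bad p 0).re := by
    intro p
    by_cases hbad : bad p
    · have h1 : rterm N bad p 0 = 0 := by
        rw [rterm, if_pos (Or.inl hbad)]
      rw [h1, c1, c2, if_pos hbad, if_pos (Or.inl hbad), if_neg (fun h => h.2 hbad)]
      simp
    · by_cases hsm : (p : ℕ) < 1024
      · have h1 : rterm N bad p 0 = 0 := by
          rw [rterm, if_pos (Or.inr hsm)]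
        rw [h1, c1, c2, if_neg hbad, if_pos hsm, if_pos (Or.inr hsm), if_pos ⟨hsm, hbad⟩]
        simp
      · rw [rterm_zero hN p p.2 hbad hsm, ofReal_re, if_neg (fun h => hsm h.1)]
        ring
  unfold E0
  rw [tsum_congr hterm, hss.tsum_sub hsre, tsum_eq_sum hs0, hre]
  congr 1
  refine Finset.sum_congr rfl fun p hp => ?_
  rw [mem_smallP] at hp
  by_cases hbad : bad p
  · rw [if_neg (fun h => h.2 hbad), if_pos hbad]
  · rw [if_pos ⟨hp, hbad⟩, if_neg hbad]

theorem GG_lead (hN : NHyp N) (F : ℂ → ℂ) (hFd : Differentiable ℂ F) (hF : EulerB N bad F) :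
    0 < ‖iteratedDeriv (analyticOrderNatAt F 1) F 1‖ / ((analyticOrderNatAt F 1).factorial : ℝ)
        * Real.exp (E0 N bad) ∧
    Tendsto (fun y : ℝ => ‖GG N bad F (y : ℂ)‖ / y ^ (analyticOrderNatAt F 1)) (𝓝[>] 0)
      (𝓝 (‖iteratedDeriv (analyticOrderNatAt F 1) F 1‖ / ((analyticOrderNatAt F 1).factorial : ℝ)
        * Real.exp (E0 N bad))) := by
  have hord := ez_order hN F hFd hF
  obtain ⟨hpos, -⟩ := ez_leading F hFd hord
  have hfac : (0 : ℝ) < ((analyticOrderNatAt F 1).factorial : ℝ) := by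
    exact_mod_cast Nat.factorial_pos _
  refine ⟨mul_pos (div_pos hpos hfac) (Real.exp_pos _), ?_⟩
  have h1 := ez_Gf (bad := bad) F hFd hord hN.one_le
  have hopen : IsOpen {w : ℂ | -(1 / 100) < w.re} := isOpen_lt continuous_const continuous_re
  have hc : ContinuousAt (Rf N bad) 0 :=
    ((differentiableOn_Rf (bad := bad) hN).differentiableAt
      (hopen.mem_nhds (by simp))).continuousAt
  have h2 : Tendsto (fun y : ℝ => (y : ℂ)) (𝓝[>] 0) (𝓝 ((0 : ℝ) : ℂ)) :=
    (continuous_ofReal.tendsto 0).mono_left nhdsWithin_le_nhds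
  rw [ofReal_zero] at h2
  have h3 : Tendsto (fun y : ℝ => ‖cexp (-Rf N bad (y : ℂ))‖) (𝓝[>] 0)
      (𝓝 ‖cexp (-Rf N bad 0)‖) :=
    ((Complex.continuous_exp.tendsto _).comp ((hc.tendsto.comp h2).neg)).norm
  have e3 : ‖cexp (-Rf N bad 0)‖ = Real.exp (-(Rf N bad 0).re) := by
    rw [norm_exp, neg_re]
  rw [e3] at h3
  have e4 : ‖iteratedDeriv (analyticOrderNatAt F 1) F 1‖ /
        ((analyticOrderNatAt F 1).factorial : ℝ) * Real.exp (E0 N bad) =
      ‖iteratedDeriv (analyticOrderNatAt F 1) F 1‖ / ((analyticOrderNatAt F 1).factorial : ℝ) *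
        Real.exp (∑ p ∈ smallP, if bad p then 0 else ell N p) *
        Real.exp (-(Rf N bad 0).re) := by
    rw [ez_E0 hN, mul_assoc, ← Real.exp_add]
    rfl
  rw [e4]
  apply (h1.mul h3).congr
  intro y
  rw [GG, norm_mul]
  ring

end Pool.Agent.Helper58.BSD
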