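import Mathlib
import Pool.Agent.Helper7.GW.Defs
import Pool.Agent.Helper58.BSD.EBdd
import Pool.Agent.Helper58.BSD.EGrow
import Pool.Agent.Helper58.BSD.EId
import Pool.Agent.Helper58.BSD.EZero
import Pool.Agent.Helper58.BSD.ENle

/-!
# E10. The frame: everything that T1, T2, W, A use (weight 10, project BSD)

PROOF of `bsd_setup`. `v t = LL t - ee t`. Growth: `LL_half`, `ee_bdd`. `G = GG N bad F` is differentiable on `Re w > -1/100`
(`differentiable_Gf`, `differentiableOn_Rf`). The identity `GG = exp (-(w Lap v w))` holds for `Re w > 10`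
(`GG_identity`); both sides are analytic on the connected open set `Re w > 1/2` (`differentiableOn_Lap` with `LapInt v x` for
`x > 1/2` from the growth), so it holds there (`AnalyticOnNhd.eqOn_of_preconnected_of_eventuallyEq`, as in
`key_identity`). `lap = Lap` by `rfl`.
-/

namespace Pool.Agent.Helper58.BSD

open Complex Filter Topology MeasureTheory Set Pool.Agent.Helper13.Bsd Pool.Agent.Helper7.GW

variable {N : ℕ → ℕ} {bad : ℕ → Prop} [DecidablePred bad]

/-- growth gives absolute convergence of the Laplace transform -/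
private theorem lapInt_of_growth {v : ℝ → ℝ} (hv : Measurable v) {A a x : ℝ}
    (hbd : ∀ t, 0 < t → |v t| ≤ A * Real.exp (a * t)) (hx : a < x) : LapInt v x := by
  unfold LapInt
  have hint : IntegrableOn (fun t : ℝ => A * Real.exp ((a - x) * t)) (Ioi (0 : ℝ)) :=
    (integrableOn_exp_mul_Ioi (by linarith) 0).const_mul A
  refine Integrable.mono' hint ?_ ?_
  · exact (hv.mul (Real.measurable_exp.comp (measurable_id.const_mul (-x)))).aestronglyMeasurable
  · rw [ae_restrict_iff' measurableSet_Ioi]
    refine Filter.Eventually.of_forall fun t ht => ?_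
    rw [Real.norm_eq_abs, abs_mul, abs_of_pos (Real.exp_pos _)]
    calc |v t| * Real.exp (-x * t) ≤ (A * Real.exp (a * t)) * Real.exp (-x * t) :=
          mul_le_mul_of_nonneg_right (hbd t ht) (Real.exp_pos _).le
      _ = A * Real.exp ((a - x) * t) := by
          rw [mul_assoc, ← Real.exp_add]
          congr 2
          ring

theorem bsd_setup (hN : NHyp N) (F : ℂ → ℂ) (hFd : Differentiable ℂ F) (hF : EulerB N bad F) :
    ∃ A : ℝ, Setup (fun t => LL N bad t - ee N bad t) (GG N bad F) A (1 / 2) (1 / 100) := by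
  obtain ⟨C, hC0, hC⟩ := ee_bdd (bad := bad) hN
  set v : ℝ → ℝ := fun t => LL N bad t - ee N bad t with hvdef
  have hvm : Measurable v := (measurable_LL N bad).sub measurable_ee
  have hbd : ∀ t, 0 < t → |v t| ≤ (65536 * 4 + C) * Real.exp (1 / 2 * t) := by
    intro t ht
    have h1 := LL_half (bad := bad) hN t ht.le
    have h2 := hC t ht
    have h3 : |v t| ≤ |LL N bad t| + |ee N bad t| := abs_sub _ _
    have h4 : (1 : ℝ) ≤ Real.exp (1 / 2 * t) := Real.one_le_exp (by linarith)
    have h5 : Real.exp (t / 2) = Real.exp (1 / 2 * t) := by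
      congr 1
      ring
    rw [h5] at h1
    have h6 : C * 1 ≤ C * Real.exp (1 / 2 * t) := mul_le_mul_of_nonneg_left h4 hC0
    linarith
  refine ⟨65536 * 4 + C, ⟨⟨hvm, by linarith, by norm_num, hbd⟩, by norm_num, ?_, ?_⟩⟩
  · -- differentiability
    have h1 : DifferentiableOn ℂ (fun w => Gf N bad F w * cexp (-Rf N bad w))
        {w : ℂ | -(1 / 100) < w.re} := by
      apply DifferentiableOn.mul
      · exact (differentiable_Gf N bad F hFd).differentiableOn
      · apply DifferentiableOn.cexp
        exact (differentiableOn_Rf hN).neg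
    exact h1
  · intro w hw
    have hopen : IsOpen {w : ℂ | (1 / 2 : ℝ) < w.re} := isOpen_lt continuous_const continuous_re
    have hpre : IsPreconnected {w : ℂ | (1 / 2 : ℝ) < w.re} :=
      (convex_halfSpace_re_gt (1 / 2)).isPreconnected
    have ha1 : AnalyticOnNhd ℂ (GG N bad F) {w : ℂ | (1 / 2 : ℝ) < w.re} := by
      apply DifferentiableOn.analyticOnNhd _ hopen
      have h1 : DifferentiableOn ℂ (fun w => Gf N bad F w * cexp (-Rf N bad w))
          {w : ℂ | (1 / 2 : ℝ) < w.re} := by
        apply DifferentiableOn.mul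
        · exact (differentiable_Gf N bad F hFd).differentiableOn
        · apply DifferentiableOn.cexp
          exact ((differentiableOn_Rf hN).mono fun w (hw : (1 / 2 : ℝ) < w.re) =>
            show -(1 / 100 : ℝ) < w.re by linarith).neg
      exact h1
    have ha2 : AnalyticOnNhd ℂ (fun w => cexp (-(w * Lap v w))) {w : ℂ | (1 / 2 : ℝ) < w.re} := by
      apply DifferentiableOn.analyticOnNhd _ hopen
      apply DifferentiableOn.cexp
      exact (differentiableOn_id.mul (differentiableOn_Lap hvm (1 / 2)
        fun x hx => lapInt_of_growth hvm hbd hx)).neg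
    have hw1mem : (11 : ℂ) ∈ {w : ℂ | (1 / 2 : ℝ) < w.re} := by
      show (1 / 2 : ℝ) < (11 : ℂ).re
      norm_num
    have hev : GG N bad F =ᶠ[𝓝 (11 : ℂ)] fun w => cexp (-(w * Lap v w)) := by
      have hopen2 : IsOpen {w : ℂ | 10 < w.re} := isOpen_lt continuous_const continuous_re
      have hmem : (11 : ℂ) ∈ {w : ℂ | 10 < w.re} := by
        show 10 < (11 : ℂ).re
        norm_num
      filter_upwards [hopen2.mem_nhds hmem] with w hw
      exact GG_identity hN F hFd hF w hw
    have h := ha1.eqOn_of_preconnected_of_eventuallyEq ha2 hpre hw1mem hev hw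
    exact h

end Pool.Agent.Helper58.BSD
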