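import Mathlib
import Pool.Agent.Helper58.BSD.EFrame
import Pool.Agent.Helper13.Bsd.Criterion

/-!
# The frame for elliptic curves: interface theorem of the project
-/

namespace Pool.Agent.Helper58.BSD

open Complex Filter Topology MeasureTheory Set Pool.Agent.Helper13.Bsd Pool.Agent.Helper7.GW

/-- `(1/2) ∑_{√x ≤ p < x, p ∤ Δ} (a_p / p)²`; by Rankin-Selberg it tends to `(log 2) / 2`. -/
noncomputable def SS (W : WeierstrassCurve ℤ) (N : ℕ → ℕ) (x : ℝ) : ℝ :=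
  (1 / 2) * ∑ p ∈ (Finset.range ⌈x⌉₊).filter
    (fun p : ℕ => p.Prime ∧ ¬ (((p : ℕ) : ℤ) ∣ W.Δ) ∧ x ≤ (p : ℝ) ^ 2), (((p : ℝ) + 1 - N p) / p) ^ 2

theorem SS_eq (W : WeierstrassCurve ℤ) (N : ℕ → ℕ) (x : ℝ) : SS W N x = SSb N (badW W) x := by
  unfold SS SSb
  congr 1

theorem bsd_frame (W : WeierstrassCurve ℤ) (N : ℕ → ℕ)
    (hNdef : ∀ p : ℕ, N p = 1 + ((Finset.range p ×ˢ Finset.range p).filter
      (fun q : ℕ × ℕ => (p : ℤ) ∣ ((q.2 : ℤ) ^ 2 + W.a₁ * (q.1 : ℤ) * (q.2 : ℤ) + W.a₃ * (q.2 : ℤ)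
        - ((q.1 : ℤ) ^ 3 + W.a₂ * (q.1 : ℤ) ^ 2 + W.a₄ * (q.1 : ℤ) + W.a₆)))).card)
    (hΔ : W.Δ ≠ 0) (F : ℂ → ℂ) (hFd : Differentiable ℂ F) (hF : EulerHyp W N F) :
    ∃ (e : ℝ → ℝ) (G : ℂ → ℂ) (A η C0 E : ℝ),
      Setup (fun t => LL N (badW W) t - e t) G A (1 / 2) η ∧ Measurable e ∧
      (∀ t, 0 < t → |e t| ≤ C0) ∧
      (∀ u, 0 < u → Tendsto (fun t => e (t + u) - e t) atTop (𝓝 0)) ∧
      (∀ s : ℂ, 0 < s.re → (G s = 0 ↔ F (1 + s) = 0)) ∧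
      (0 < ‖iteratedDeriv (analyticOrderNatAt F 1) F 1‖ / ((analyticOrderNatAt F 1).factorial : ℝ)
        * Real.exp E) ∧
      Tendsto (fun y : ℝ => ‖G (y : ℂ)‖ / y ^ (analyticOrderNatAt F 1)) (𝓝[>] 0)
        (𝓝 (‖iteratedDeriv (analyticOrderNatAt F 1) F 1‖ / ((analyticOrderNatAt F 1).factorial : ℝ)
          * Real.exp E)) ∧
      Tendsto (fun t => e t + SS W N (Real.exp t)) atTop (𝓝 (Real.log 2 + E)) ∧
      (∃ C1 : ℝ, 0 ≤ C1 ∧ ∀ x, 0 ≤ SS W N x ∧ SS W N x ≤ C1) := by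
  have hN := nhyp W N hNdef
  have hB : EulerB N (badW W) F := hF
  obtain ⟨A, hA⟩ := bsd_setup hN F hFd hB
  obtain ⟨C0, -, hC0⟩ := ee_bdd (bad := badW W) hN
  obtain ⟨C1, hC1, hSS⟩ := SSb_bdd (bad := badW W) hN
  obtain ⟨hg0, hg⟩ := GG_lead hN F hFd hB
  refine ⟨ee N (badW W), GG N (badW W) F, A, 1 / 100, C0, E0 N (badW W), hA, measurable_ee, hC0,
    fun u hu => ee_osc hN u hu, fun s hs => GG_zero_iff hN F s hs.le, hg0, hg, ?_, C1, hC1, ?_⟩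
  · simp_rw [SS_eq]
    exact ee_lim hN (finite_bad W hΔ)
  · intro x
    rw [SS_eq]
    exact hSS x

end Pool.Agent.Helper58.BSD
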