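import Mathlib
import Pool.Agent.Helper7.GW.Defs
import Pool.Agent.Helper13.Bsd.Continue

/-!
# One-sided slow variation and the exact order of the BSD product: definitions
-/

namespace Pool.Agent.Helper58.BSD

open Complex Filter Topology MeasureTheory Set Pool.Agent.Helper13.Bsd Pool.Agent.Helper7.GW

/-- one-sided growth condition, additive form of `limsup P(λ x) / P(x) < ∞` for `1 < λ ≤ 2` -/
def SlowO (v : ℝ → ℝ) : Prop :=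
  ∀ u, 0 < u → u ≤ Real.log 2 → ∃ K T : ℝ, ∀ t, T ≤ t → v (t + u) ≤ v t + K

/-- one-sided slow variation, additive form of `limsup P(λ x) / P(x) ≤ 1` for `1 < λ ≤ 2` -/
def Slowo (v : ℝ → ℝ) : Prop :=
  ∀ u, 0 < u → u ≤ Real.log 2 → ∀ ε, 0 < ε → ∃ T : ℝ, ∀ t, T ≤ t → v (t + u) ≤ v t + ε

/-- the Fejér kernel `2 (1 - cos R x) / (R x²)` as a Fourier integral -/
noncomputable def kR (R x : ℝ) : ℝ := ∫ a in (-R)..R, (1 - |a| / R) * Real.cos (a * x)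

/-- the square of the Fejér kernel, `O(x⁻⁴)` -/
noncomputable def kern (R x : ℝ) : ℝ := kR R x ^ 2

/-- `τ ↦ q (σ + i τ)` is a Cauchy family in `L¹(S)` as `σ → 0+` -/
def CauchyL1 (q : ℂ → ℂ) (S : Set ℝ) : Prop :=
  ∀ ε : ℝ, 0 < ε → ∃ σ0 : ℝ, 0 < σ0 ∧ ∀ σ σ' : ℝ, 0 < σ → σ < σ0 → 0 < σ' → σ' < σ0 →
    ∫ τ in S, ‖q ((σ : ℂ) + (τ : ℂ) * I) - q ((σ' : ℂ) + (τ : ℂ) * I)‖ ≤ ε

/-- closed right half box around `i τ0` -/
def box (τ0 δ : ℝ) : Set ℂ := {w : ℂ | 0 ≤ w.re ∧ w.re ≤ δ ∧ |w.im - τ0| ≤ δ}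

/-- the limit constant when `G 0 ≠ 0` -/
noncomputable def kap (G : ℂ → ℂ) : ℝ := -Real.log ‖G 0‖

/-- `Ein t = ∫_0^t (1 - e^{-u}) / u du` (`k1` is helper13's) -/
noncomputable def ein (t : ℝ) : ℝ := ∫ u in (0 : ℝ)..t, (1 - Real.exp (-u)) / u

end Pool.Agent.Helper58.BSD
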