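import Mathlib
import Pool.Agent.Helper58.BSD.TDefs

/-!
# T10. One-sided Tauberian boundedness theorem (weight 10, project BSD)

PROOF. `m = ∫ k > 0`, `m1 = ∫ |x| k`, `F(t) = ∫_{u>0} f u k (t - u) du`, `|F| ≤ B` for `t ≥ T'`. `ε = 1/8`; `b ≥ u0` with `∫_{|x| ≥ b} k ≤ ε m`.
`B0 = sup_{[0, T + u0]} |f|`. `Φ(t) = sup_{T ≤ u ≤ t} max(f u, 0)`, `Ψ(t) = sup_{T ≤ u ≤ t} max(-f u, 0)` (finite by `hloc`; or avoid suprema by
choosing, for given `t`, near-maximal points). Note `Φ(t + s) ≤ Φ(t) + K (1 + u0 + s) + B0` for `s ≥ 0` (for `u ∈ [t, t+s]`, if `u - u0 ≥ T`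
then `f u ≤ f t' + K (1 + (u - t'))` with `t' = min (t, u - u0) ∈ [T, t]`, else `f u ≤ B0`).
LOWER. Let `T ≤ t1 ≤ t`, `N = -f t1 > 0`, `Ψ(t) ≤ N + 1`, `x = t1 + u0 + b` (`≥ T'`, otherwise `Ψ(t)` is bounded by a local constant).
For `u ≥ t1 + u0`: `f u ≤ -N + K (1 + u - t1)` and `∫_{u ≥ t1+u0} k (x - u) ≥ (1 - ε) m` (`x - u ≤ b`); for `T ≤ u < t1 + u0`: `f u ≤ Φ(t1 + u0)`,
mass `≤ ε m`; for `0 < u < T`: `f u ≤ B0`. So `-B ≤ F(x) ≤ -(1 - ε) m N + K ((1 + u0 + b) m + m1) + ε m Φ(t1+u0) + B0 m`, hence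
`Ψ(t) ≤ C1 + 2 ε Φ(t)`, all `t ≥ T`.
UPPER. Let `T ≤ t0 ≤ t`, `M = f t0`, `Φ(t) ≤ M + 1`, `x = t0 - u0 - b` (`≥ max T' (T + b)`, otherwise local bound). For `T ≤ u ≤ t0 - u0`:
`f u ≥ M - K (1 + t0 - u)` [slow condition from `u` to `t0`], mass `≥ (1 - 2 ε) m`; for `u > t0 - u0`: `f u ≥ -Ψ(u) ≥ -C1 - 2 ε Φ(u)`,
`Φ(u) ≤ M + 1 + K (2 + u0 + |u - t0|) + B0`, mass `≤ ε m`; for `u < T`: `≥ -B0`. So
`B ≥ F(x) ≥ M m ((1 - 2 ε) - 2 ε ε) - C4`, hence `M ≤ C5`, `Φ ≤ C5 + 1`, `Ψ ≤ C1 + 2 ε (C5 + 1)`.
-/

namespace Pool.Agent.Helper58.BSD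

open Filter Topology MeasureTheory Set

private theorem tbdd_aux_sup {f : ℝ → ℝ} {T : ℝ}
    (hloc : ∀ X : ℝ, ∃ B : ℝ, ∀ t, 0 ≤ t → t ≤ X → |f t| ≤ B) (hT : 0 ≤ T) :
    ∃ Φ : ℝ → ℝ, (∀ t, 0 ≤ Φ t) ∧ (∀ t u, T ≤ u → u ≤ t → f u ≤ Φ t) ∧
      (∀ t, Φ t ≤ 1 ∨ ∃ u, T ≤ u ∧ u ≤ t ∧ 0 < f u ∧ Φ t ≤ f u + 1) ∧
      (∀ t C, 0 ≤ C → (∀ u, T ≤ u → u ≤ t → f u ≤ C) → Φ t ≤ C) := by
  have hbdd : ∀ t, BddAbove (insert 0 (f '' Icc T t)) := by
    intro t
    obtain ⟨B, hB⟩ := hloc t
    refine ⟨max B 0, ?_⟩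
    rintro y (rfl | ⟨u, hu, rfl⟩)
    · exact le_max_right _ _
    · exact le_trans (le_trans (le_abs_self _) (hB u (hT.trans hu.1) hu.2)) (le_max_left _ _)
  refine ⟨fun t => sSup (insert 0 (f '' Icc T t)), ?_, ?_, ?_, ?_⟩
  · intro t
    exact le_csSup (hbdd t) (mem_insert _ _)
  · intro t u h1 h2
    exact le_csSup (hbdd t) (mem_insert_of_mem _ ⟨u, ⟨h1, h2⟩, rfl⟩)
  · intro t
    have hne : (insert (0 : ℝ) (f '' Icc T t)).Nonempty := ⟨0, mem_insert _ _⟩
    obtain ⟨y, hy, hlt⟩ := exists_lt_of_lt_csSup hne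
      (show sSup (insert 0 (f '' Icc T t)) - 1 < sSup (insert 0 (f '' Icc T t)) by linarith)
    rcases hy with rfl | ⟨u, hu, rfl⟩
    · left
      linarith
    · by_cases hfu : 0 < f u
      · right
        exact ⟨u, hu.1, hu.2, hfu, by linarith⟩
      · left
        linarith
  · intro t C hC h
    apply csSup_le ⟨0, mem_insert _ _⟩
    rintro y (rfl | ⟨u, hu, rfl⟩)
    · exact hC
    · exact h u hu.1 hu.2

private theorem tbdd_aux_int {f k : ℝ → ℝ} {x b α β γ : ℝ}
    (hk0 : ∀ x, 0 ≤ k x) (hki : Integrable k) (hk1 : Integrable (fun x => |x| * k x))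
    (hint : IntegrableOn (fun u => f u * k (x - u)) (Ioi 0))
    (hpt : ∀ u, (if 0 < u then f u else 0) ≤ α + β * |x - u| + (if b < |x - u| then γ else 0)) :
    ∫ u in Ioi (0 : ℝ), f u * k (x - u) ≤
      α * (∫ y, k y) + β * (∫ y, |y| * k y) + γ * ∫ y in {y : ℝ | b < |y|}, k y := by
  have hS : MeasurableSet {y : ℝ | b < |y|} := measurableSet_lt measurable_const measurable_norm
  set h : ℝ → ℝ := fun y => α * k y + β * (|y| * k y) + γ * ({y : ℝ | b < |y|}.indicator k y) with hh
  have hhi : Integrable h := by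
    refine ((hki.const_mul α).add (hk1.const_mul β)).add ((hki.indicator hS).const_mul γ)
  have e1 : ∫ y, h y = α * (∫ y, k y) + β * (∫ y, |y| * k y) + γ * ∫ y in {y : ℝ | b < |y|}, k y := by
    rw [hh]
    rw [integral_add, integral_add, integral_const_mul, integral_const_mul, integral_const_mul,
      integral_indicator hS]
    · exact hki.const_mul α
    · exact hk1.const_mul β
    · exact (hki.const_mul α).add (hk1.const_mul β)
    · exact (hki.indicator hS).const_mul γ
  have e2 : ∫ u, h (x - u) = ∫ y, h y := integral_sub_left_eq_self h volume x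
  rw [← e1, ← e2, ← integral_indicator measurableSet_Ioi]
  apply integral_mono
  · exact hint.integrable_indicator measurableSet_Ioi
  · exact hhi.comp_sub_left x
  · intro u
    have hp := hpt u
    have hku := hk0 (x - u)
    have hmul := mul_le_mul_of_nonneg_right hp hku
    simp only [hh, Set.indicator, mem_Ioi, Set.mem_ofPred_eq]
    split_ifs at hmul ⊢ <;> nlinarith [hmul]

private theorem tbdd_aux_tail {k : ℝ → ℝ} {b : ℝ}
    (hk0 : ∀ x, 0 ≤ k x) (hki : Integrable k) (hk1 : Integrable (fun x => |x| * k x)) :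
    b * ∫ y in {y : ℝ | b < |y|}, k y ≤ ∫ y, |y| * k y := by
  have hS : MeasurableSet {y : ℝ | b < |y|} := measurableSet_lt measurable_const measurable_norm
  rw [← integral_const_mul]
  calc ∫ y in {y : ℝ | b < |y|}, b * k y ≤ ∫ y in {y : ℝ | b < |y|}, |y| * k y := by
        apply setIntegral_mono_on (hki.const_mul b).integrableOn hk1.integrableOn hS
        intro y hy
        exact mul_le_mul_of_nonneg_right (le_of_lt hy) (hk0 y)
    _ ≤ ∫ y, |y| * k y := by
        apply setIntegral_le_integral hk1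
        filter_upwards with y
        exact mul_nonneg (abs_nonneg y) (hk0 y)

theorem tauber_bdd {f k : ℝ → ℝ} {T u0 K : ℝ} (hf : Measurable f)
    (hloc : ∀ X : ℝ, ∃ B : ℝ, ∀ t, 0 ≤ t → t ≤ X → |f t| ≤ B) (hT : 0 ≤ T) (hu0 : 0 < u0) (hK : 0 ≤ K)
    (hslow : ∀ t u, T ≤ t → u0 ≤ u → f (t + u) ≤ f t + K * (1 + u))
    (hk0 : ∀ x, 0 ≤ k x) (hki : Integrable k) (hk1 : Integrable (fun x => |x| * k x)) (hkpos : 0 < ∫ x, k x)
    (hint : ∀ t, IntegrableOn (fun u => f u * k (t - u)) (Ioi 0))
    (hbd : ∃ B T' : ℝ, ∀ t, T' ≤ t → |∫ u in Ioi (0 : ℝ), f u * k (t - u)| ≤ B) :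
    ∃ B : ℝ, ∀ t, 0 ≤ t → |f t| ≤ B := by
  have _hf := hf
  obtain ⟨B, T', hbd⟩ := hbd
  obtain ⟨B0, hB0⟩ := hloc (T + u0)
  have hB0n : 0 ≤ B0 := le_trans (abs_nonneg _) (hB0 0 le_rfl (by linarith))
  have hBn : 0 ≤ B := le_trans (abs_nonneg _) (hbd T' le_rfl)
  set m : ℝ := ∫ x, k x with hm
  set m1 : ℝ := ∫ x, |x| * k x with hm1
  have hm1n : 0 ≤ m1 := integral_nonneg fun y => mul_nonneg (abs_nonneg y) (hk0 y)
  set b : ℝ := 8 * m1 / m + 1 with hb
  have hbpos : 0 < b := by positivity
  set mb : ℝ := ∫ y in {y : ℝ | b < |y|}, k y with hmb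
  have hmbn : 0 ≤ mb := integral_nonneg fun y => hk0 y
  have hmb8 : mb ≤ m / 8 := by
    have h1 : b * mb ≤ m1 := tbdd_aux_tail hk0 hki hk1
    have h2 : b * m = 8 * m1 + m := by
      rw [hb]; field_simp
    have h3 : b * mb ≤ b * (m / 8) := by nlinarith
    exact le_of_mul_le_mul_left h3 hbpos
  obtain ⟨Φ, hΦ0, hΦ, hΦ1, hΦm⟩ := tbdd_aux_sup hloc hT
  have hloc' : ∀ X : ℝ, ∃ B : ℝ, ∀ t, 0 ≤ t → t ≤ X → |(-f t)| ≤ B := by
    intro X
    obtain ⟨B, hB⟩ := hloc X
    exact ⟨B, fun t h1 h2 => by rw [abs_neg]; exact hB t h1 h2⟩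
  obtain ⟨Ψ, hΨ0, hΨ, hΨ1, hΨm⟩ := tbdd_aux_sup (f := fun t => -f t) hloc' hT
  have hmono : ∀ s t, s ≤ t → Φ s ≤ Φ t := fun s t hst =>
    hΦm s (Φ t) (hΦ0 t) fun u h1 h2 => hΦ t u h1 (h2.trans hst)
  have hgrow : ∀ t s, T ≤ t → 0 ≤ s → Φ (t + s) ≤ Φ t + K * (1 + u0 + s) + B0 := by
    intro t s ht hs
    have hKn : 0 ≤ K * (1 + u0 + s) := by positivity
    refine hΦm _ _ (by linarith [hΦ0 t]) ?_
    intro u h1 h2
    by_cases hut : u ≤ t
    · linarith [hΦ t u h1 hut]
    · push Not at hut
      by_cases hu2 : T ≤ u - u0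
      · rcases le_total t (u - u0) with h3 | h3
        · have h4 := hslow t (u - t) ht (by linarith)
          rw [show t + (u - t) = u by ring] at h4
          have h5 := hΦ t t ht le_rfl
          have h6 : K * (1 + (u - t)) ≤ K * (1 + u0 + s) := mul_le_mul_of_nonneg_left (by linarith) hK
          linarith
        · have h4 := hslow (u - u0) u0 hu2 le_rfl
          rw [show u - u0 + u0 = u by ring] at h4
          have h5 := hΦ t (u - u0) hu2 h3
          have h6 : K * (1 + u0) ≤ K * (1 + u0 + s) := mul_le_mul_of_nonneg_left (by linarith) hK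
          linarith
      · push Not at hu2
        have h4 := hB0 u (hT.trans h1) (by linarith)
        have h5 := le_abs_self (f u)
        linarith [hΦ0 t]
  -- lower bound
  obtain ⟨B1, hB1⟩ := hloc T'
  set D : ℝ := (B + K * m1) / m with hD
  have hDn : 0 ≤ D := by positivity
  have hDm : D * m = B + K * m1 := by rw [hD]; field_simp
  obtain ⟨C1, hC1n, hC1⟩ : ∃ C1 : ℝ, 0 ≤ C1 ∧ ∀ t, Ψ t ≤ C1 + Φ t / 4 := by
    refine ⟨1 + |B1| + 2 * (D + K * (1 + u0 + b)) + (K * (1 + 2 * u0) + 2 * B0), by positivity, ?_⟩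
    intro t
    have hp1 : 0 ≤ |B1| := abs_nonneg _
    have hp2 : 0 ≤ K * (1 + u0 + b) := by positivity
    have hp3 : 0 ≤ K * (1 + 2 * u0) := by positivity
    rcases hΨ1 t with h | ⟨t1, h1, h2, h3, h4⟩
    · linarith [hΦ0 t]
    · by_cases hx : t1 + u0 + b < T'
      · have h5 := hB1 t1 (hT.trans h1) (by linarith)
        have h6 := neg_le_abs (f t1)
        have h7 := le_abs_self B1
        linarith [hΦ0 t]
      · push Not at hx
        have hF := hbd (t1 + u0 + b) hx
        have hF' := (abs_le.1 hF).1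
        have hΦ' := hgrow t1 u0 h1 hu0.le
        have hmon := hmono t1 t h2
        have hg0 : 0 ≤ -f t1 + Φ (t1 + u0) + B0 := by linarith [hΦ0 (t1 + u0)]
        have key := tbdd_aux_int (f := f) (x := t1 + u0 + b) (b := b) (α := f t1 + K * (1 + u0 + b)) (β := K)
          (γ := -f t1 + Φ (t1 + u0) + B0) hk0 hki hk1 (hint _) (by
            intro u
            have hKy : 0 ≤ K * |t1 + u0 + b - u| := by positivity
            have hy1 := le_abs_self (t1 + u0 + b - u)
            have hy2 := neg_le_abs (t1 + u0 + b - u)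
            by_cases hu : 0 < u
            · rw [if_pos hu]
              by_cases hu1 : t1 + u0 ≤ u
              · have h5 := hslow t1 (u - t1) h1 (by linarith)
                rw [show t1 + (u - t1) = u by ring] at h5
                have h6 : K * (1 + (u - t1)) ≤ K * (1 + u0 + b + |t1 + u0 + b - u|) :=
                  mul_le_mul_of_nonneg_left (by linarith) hK
                have h7 : K * (1 + u0 + b + |t1 + u0 + b - u|) =
                  K * (1 + u0 + b) + K * |t1 + u0 + b - u| := by ring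
                split_ifs <;> linarith
              · push Not at hu1
                have hlt : b < |t1 + u0 + b - u| := by linarith
                rw [if_pos hlt]
                by_cases hu2 : T ≤ u
                · have h5 := hΦ (t1 + u0) u hu2 hu1.le
                  linarith
                · push Not at hu2
                  have h5 := hB0 u hu.le (by linarith)
                  have h6 := le_abs_self (f u)
                  linarith [hΦ0 (t1 + u0)]
            · rw [if_neg hu]
              push Not at hu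
              have hlt : b < |t1 + u0 + b - u| := by linarith
              rw [if_pos hlt]
              linarith [hΦ0 (t1 + u0)])
        rw [← hm, ← hm1, ← hmb] at key
        have h8 : (-f t1 + Φ (t1 + u0) + B0) * mb ≤ (-f t1 + Φ (t1 + u0) + B0) * (m / 8) :=
          mul_le_mul_of_nonneg_left hmb8 hg0
        have h9 : m * (7 / 8 * (-f t1)) ≤ m * (D + K * (1 + u0 + b) + (Φ (t1 + u0) + B0) / 8) := by
          nlinarith [hDm]
        have h10 := le_of_mul_le_mul_left h9 hkpos
        linarith [hΦ0 t]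
  -- upper bound
  obtain ⟨B2, hB2⟩ := hloc (max T' (T + b + 1) + u0 + b)
  set D' : ℝ := (B + (K + K / 4) * m1) / m with hD'
  have hD'n : 0 ≤ D' := by positivity
  have hD'm : D' * m = B + (K + K / 4) * m1 := by rw [hD']; field_simp
  obtain ⟨C5, hC5⟩ : ∃ C5 : ℝ, ∀ t, Φ t ≤ C5 := by
    refine ⟨1 + |B2| + 2 * (D' + K * (1 + u0 + b) + K * (1 + 2 * u0 + b) / 4
      + (B0 + C1 + (1 + B0) / 4)), ?_⟩
    intro t
    have hp1 : 0 ≤ |B2| := abs_nonneg _
    have hp2 : 0 ≤ K * (1 + u0 + b) := by positivity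
    have hp3 : 0 ≤ K * (1 + 2 * u0 + b) := by positivity
    rcases hΦ1 t with h | ⟨t0, h1, h2, h3, h4⟩
    · linarith
    · by_cases hx : t0 - u0 - b < max T' (T + b + 1)
      · have h5 := hB2 t0 (hT.trans h1) (by linarith)
        have h6 := le_abs_self (f t0)
        have h7 := le_abs_self B2
        linarith
      · push Not at hx
        have hx1 : T' ≤ t0 - u0 - b := le_trans (le_max_left _ _) hx
        have hx2 : T + b + 1 ≤ t0 - u0 - b := le_trans (le_max_right _ _) hx
        have hF := hbd (t0 - u0 - b) hx1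
        have hF' := (abs_le.1 hF).2
        have hg0 : 0 ≤ (1 + 1 / 4) * f t0 + (B0 + C1 + (1 + B0) / 4) := by linarith
        have hneg : IntegrableOn (fun u => (-f u) * k (t0 - u0 - b - u)) (Ioi 0) := by
          have := (hint (t0 - u0 - b)).neg
          refine this.congr (Filter.Eventually.of_forall fun u => ?_)
          simp
        have key := tbdd_aux_int (f := fun u => -f u) (x := t0 - u0 - b) (b := b)
          (α := -f t0 + K * (1 + u0 + b) + K * (1 + 2 * u0 + b) / 4) (β := K + K / 4)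
          (γ := (1 + 1 / 4) * f t0 + (B0 + C1 + (1 + B0) / 4)) hk0 hki hk1 hneg (by
            intro u
            have hKy : 0 ≤ K * |t0 - u0 - b - u| := by positivity
            have hy1 := le_abs_self (t0 - u0 - b - u)
            have hy2 := neg_le_abs (t0 - u0 - b - u)
            have hee : (K + K / 4) * |t0 - u0 - b - u| =
              K * |t0 - u0 - b - u| + K * |t0 - u0 - b - u| / 4 := by ring
            rw [hee]
            by_cases hlt : b < |t0 - u0 - b - u|
            · rw [if_pos hlt]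
              by_cases hu : 0 < u
              · rw [if_pos hu]
                by_cases hu2 : T ≤ u
                · by_cases hu3 : u ≤ t0 - u0
                  · have h5 := hslow u (t0 - u) hu2 (by linarith)
                    rw [show u + (t0 - u) = t0 by ring] at h5
                    have h6 : K * (1 + (t0 - u)) ≤ K * (1 + u0 + b + |t0 - u0 - b - u|) :=
                      mul_le_mul_of_nonneg_left (by linarith) hK
                    have h7 : K * (1 + u0 + b + |t0 - u0 - b - u|) =
                      K * (1 + u0 + b) + K * |t0 - u0 - b - u| := by ring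
                    linarith
                  · push Not at hu3
                    have h5 := hΨ u u hu2 le_rfl
                    have h6 := hC1 u
                    have h7 : Φ u ≤ Φ t0 + K * (1 + 2 * u0 + b + |t0 - u0 - b - u|) + B0 := by
                      have hKK : 0 ≤ K * (1 + 2 * u0 + b + |t0 - u0 - b - u|) := by positivity
                      rcases le_total u t0 with h8 | h8
                      · linarith [hmono u t0 h8]
                      · have h9 := hgrow t0 (u - t0) h1 (by linarith)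
                        rw [show t0 + (u - t0) = u by ring] at h9
                        have h10 : K * (1 + u0 + (u - t0)) ≤ K * (1 + 2 * u0 + b + |t0 - u0 - b - u|) :=
                          mul_le_mul_of_nonneg_left (by linarith) hK
                        linarith
                    have h8 := hmono t0 t h2
                    have h9 : K * (1 + 2 * u0 + b + |t0 - u0 - b - u|) =
                      K * (1 + 2 * u0 + b) + K * |t0 - u0 - b - u| := by ring
                    linarith
                · push Not at hu2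
                  have h5 := hB0 u hu.le (by linarith)
                  have h6 := neg_le_abs (f u)
                  linarith
              · rw [if_neg hu]
                linarith
            · rw [if_neg hlt]
              push Not at hlt
              have hu2 : T ≤ u := by linarith
              have hu : 0 < u := by linarith
              rw [if_pos hu]
              have h5 := hslow u (t0 - u) hu2 (by linarith)
              rw [show u + (t0 - u) = t0 by ring] at h5
              have h6 : K * (1 + (t0 - u)) ≤ K * (1 + u0 + b + |t0 - u0 - b - u|) :=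
                mul_le_mul_of_nonneg_left (by linarith) hK
              have h7 : K * (1 + u0 + b + |t0 - u0 - b - u|) =
                K * (1 + u0 + b) + K * |t0 - u0 - b - u| := by ring
              linarith)
        rw [← hm, ← hm1, ← hmb] at key
        have hkey2 : ∫ u in Ioi (0 : ℝ), (-f u) * k (t0 - u0 - b - u) =
            -∫ u in Ioi (0 : ℝ), f u * k (t0 - u0 - b - u) := by
          rw [← integral_neg]
          congr 1
          ext u
          ring
        rw [hkey2] at key
        have h8 : ((1 + 1 / 4) * f t0 + (B0 + C1 + (1 + B0) / 4)) * mb ≤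
            ((1 + 1 / 4) * f t0 + (B0 + C1 + (1 + B0) / 4)) * (m / 8) :=
          mul_le_mul_of_nonneg_left hmb8 hg0
        have h9 : m * (27 / 32 * f t0) ≤ m * (D' + K * (1 + u0 + b) + K * (1 + 2 * u0 + b) / 4
            + (B0 + C1 + (1 + B0) / 4) / 8) := by
          nlinarith [hD'm]
        have h10 := le_of_mul_le_mul_left h9 hkpos
        linarith
  refine ⟨max B0 (max C5 (C1 + C5 / 4)), ?_⟩
  intro t ht
  by_cases htT : T ≤ t
  · have h1 := hΦ t t htT le_rfl
    have h2 := hΨ t t htT le_rfl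
    have h3 := hC1 t
    have h4 := hC5 t
    rw [abs_le]
    constructor
    · have : C1 + C5 / 4 ≤ max B0 (max C5 (C1 + C5 / 4)) := le_max_of_le_right (le_max_right _ _)
      linarith
    · have : C5 ≤ max B0 (max C5 (C1 + C5 / 4)) := le_max_of_le_right (le_max_left _ _)
      linarith
  · push Not at htT
    exact le_trans (hB0 t ht (by linarith)) (le_max_left _ _)

end Pool.Agent.Helper58.BSD
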