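import Mathlib
import Pool.Agent.Helper58.BSD.TDefs

/-!
# T7. The Fourier inequality for the squared Fejér kernel (weight 10, project BSD)

PROOF. `ψ a = 1 - |a| / R ∈ [0, 1]` on `[-R, R]`. `(kR R x : ℂ) = ∫_{-R}^{R} ψ a e^{i a x} da` (the sine part is odd:
`intervalIntegral.integral_comp_neg`). Hence for fixed `t`,
`∫_{u>0} f u kR(t-u) kR(t-u) du = ∫_a ∫_b ψ a ψ b e^{i (a+b) t} fhat (a + b) db da`, `fhat τ = ∫_{u>0} f u e^{-i τ u} du`, by Fubini
(`integral_prod`, the integrand on `[-R,R] × [-R,R] × (0,∞)` is bounded by `|f u|`; do it in two steps, one kernel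
at a time). So the absolute value is at most `∫_{-R}^{R} ∫_{-R}^{R} ‖fhat (a + b)‖ db da`, and for each `a ∈ [-R, R]` the inner
integral is `∫_{a-R}^{a+R} ‖fhat‖ ≤ ∫_{-2R}^{2R} ‖fhat‖` (`fhat` is continuous, so everything is integrable).
-/

namespace Pool.Agent.Helper58.BSD

open Complex Filter Topology MeasureTheory Set Pool.Agent.Helper13.Bsd Pool.Agent.Helper7.GW

private theorem tf_psi {R : ℝ} (hR : 0 < R) {a : ℝ} (ha : a ∈ Ioc (-R) R) : 0 ≤ 1 - |a| / R := by
  have : |a| ≤ R := abs_le.2 ⟨ha.1.le, ha.2⟩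
  have := (div_le_one hR).2 this
  linarith

private theorem tf_psi1 {R : ℝ} (hR : 0 < R) (a : ℝ) : 1 - |a| / R ≤ 1 := by
  have : 0 ≤ |a| / R := by positivity
  linarith

private theorem tf_kRcont (R : ℝ) : Continuous (kR R) := by
  unfold kR
  apply intervalIntegral.continuous_parametric_intervalIntegral_of_continuous'
  simp only [Function.uncurry_def]
  fun_prop

private theorem tf_abs {R : ℝ} (hR : 0 < R) (x : ℝ) : |kR R x| ≤ 2 * R := by
  have h := intervalIntegral.norm_integral_le_of_norm_le_const (a := -R) (b := R) (C := 1)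
    (f := fun a : ℝ => (1 - |a| / R) * Real.cos (a * x))
    (by
      intro a ha
      rw [uIoc_of_le (by linarith)] at ha
      rw [norm_mul, Real.norm_eq_abs, Real.norm_eq_abs, abs_of_nonneg (tf_psi hR ha)]
      calc (1 - |a| / R) * |Real.cos (a * x)| ≤ 1 * 1 :=
            mul_le_mul (tf_psi1 hR a) (Real.abs_cos_le_one _) (abs_nonneg _) zero_le_one
        _ = 1 := one_mul 1)
  rw [Real.norm_eq_abs] at h
  rw [kR]
  calc _ ≤ 1 * |R - -R| := h
    _ = 2 * R := by rw [one_mul, sub_neg_eq_add, abs_of_pos (by linarith)]; ring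

/-- Fourier transform on the half line -/
private noncomputable def hat (g : ℝ → ℂ) (τ : ℝ) : ℂ := ∫ u in Ioi (0 : ℝ), g u * cexp (-((τ : ℂ) * I) * u)

private theorem tf_unim (τ u : ℝ) : ‖cexp (-((τ : ℂ) * I) * u)‖ = 1 := by
  rw [Complex.norm_exp]
  simp

private theorem hat_cont {g : ℝ → ℂ} (hg : IntegrableOn g (Ioi 0)) : Continuous (hat g) := by
  unfold hat
  apply continuous_of_dominated (bound := fun u => ‖g u‖)
  · intro τ
    apply AEStronglyMeasurable.mul hg.aestronglyMeasurable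
    apply Continuous.aestronglyMeasurable
    fun_prop
  · intro τ
    refine Filter.Eventually.of_forall (fun u => ?_)
    rw [norm_mul, tf_unim, mul_one]
  · exact hg.norm
  · refine Filter.Eventually.of_forall (fun u => ?_)
    fun_prop

private theorem tf_cos {g : ℝ → ℂ} (hg : IntegrableOn g (Ioi 0)) (a t : ℝ) :
    ‖∫ u in Ioi (0 : ℝ), g u * (Real.cos (a * (t - u)) : ℂ)‖ ≤ (‖hat g a‖ + ‖hat g (-a)‖) / 2 := by
  have hi : ∀ τ : ℝ, IntegrableOn (fun u : ℝ => g u * cexp (-((τ : ℂ) * I) * u)) (Ioi 0) := by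
    intro τ
    apply Integrable.mul_bdd (c := 1) hg
    · apply Continuous.aestronglyMeasurable
      fun_prop
    · exact Filter.Eventually.of_forall (fun u => (tf_unim τ u).le)
  have e : ∀ u : ℝ, g u * (Real.cos (a * (t - u)) : ℂ)
      = cexp ((a : ℂ) * t * I) / 2 * (g u * cexp (-((a : ℂ) * I) * u))
        + cexp (-((a : ℂ) * t * I)) / 2 * (g u * cexp (-(((-a : ℝ) : ℂ) * I) * u)) := by
    intro u
    rw [Complex.ofReal_cos, Complex.cos]
    have e1 : cexp ((((a * (t - u) : ℝ)) : ℂ) * I) = cexp ((a : ℂ) * t * I) * cexp (-((a : ℂ) * I) * u) := by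
      rw [← Complex.exp_add]
      congr 1
      push_cast
      ring
    have e2 : cexp (-((((a * (t - u) : ℝ)) : ℂ)) * I)
        = cexp (-((a : ℂ) * t * I)) * cexp (-(((-a : ℝ) : ℂ) * I) * u) := by
      rw [← Complex.exp_add]
      congr 1
      push_cast
      ring
    rw [e1, e2]
    ring
  simp_rw [e]
  rw [integral_add ((hi a).const_mul _) ((hi (-a)).const_mul _), integral_const_mul, integral_const_mul]
  have n1 : ‖cexp ((a : ℂ) * t * I) / 2‖ = 1 / 2 := by
    rw [norm_div, Complex.norm_exp]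
    simp
  have n2 : ‖cexp (-((a : ℂ) * t * I)) / 2‖ = 1 / 2 := by
    rw [norm_div, Complex.norm_exp]
    simp
  calc _ ≤ ‖cexp ((a : ℂ) * t * I) / 2 * hat g a‖ + ‖cexp (-((a : ℂ) * t * I)) / 2 * hat g (-a)‖ :=
        norm_add_le _ _
    _ = (‖hat g a‖ + ‖hat g (-a)‖) / 2 := by
        rw [norm_mul, norm_mul, n1, n2]
        ring

private theorem tf_step {g : ℝ → ℂ} (hg : IntegrableOn g (Ioi 0)) {R : ℝ} (hR : 0 < R) (t : ℝ) :
    ‖∫ u in Ioi (0 : ℝ), g u * (kR R (t - u) : ℂ)‖ ≤ ∫ a in (-R)..R, ‖hat g a‖ := by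
  have hRR : -R ≤ R := by linarith
  have h1 : ∀ u : ℝ, g u * (kR R (t - u) : ℂ)
      = ∫ a in Ioc (-R) R, g u * (((1 - |a| / R) * Real.cos (a * (t - u)) : ℝ) : ℂ) := by
    intro u
    rw [kR, intervalIntegral.integral_of_le hRR, ← integral_complex_ofReal, ← integral_const_mul]
  simp_rw [h1]
  have hint : Integrable (Function.uncurry (fun (u a : ℝ) => g u * (((1 - |a| / R) * Real.cos (a * (t - u)) : ℝ) : ℂ)))
      ((volume.restrict (Ioi (0 : ℝ))).prod (volume.restrict (Ioc (-R) R))) := by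
    have b1 : Integrable (fun z : ℝ × ℝ => g z.1 * ((1 - |z.2| / R : ℝ) : ℂ))
        ((volume.restrict (Ioi (0 : ℝ))).prod (volume.restrict (Ioc (-R) R))) := by
      refine Integrable.mul_prod (f := g) (g := fun a : ℝ => ((1 - |a| / R : ℝ) : ℂ)) hg ?_
      have : Continuous (fun a : ℝ => ((1 - |a| / R : ℝ) : ℂ)) := by fun_prop
      exact (this.integrableOn_Icc (a := -R) (b := R)).mono_set Ioc_subset_Icc_self
    have b2 := b1.mul_bdd (c := 1) (g := fun z : ℝ × ℝ => ((Real.cos (z.2 * (t - z.1)) : ℝ) : ℂ))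
      (by apply Continuous.aestronglyMeasurable; fun_prop)
      (Filter.Eventually.of_forall (fun z => by
        rw [Complex.norm_real, Real.norm_eq_abs]
        exact Real.abs_cos_le_one _))
    refine b2.congr (Filter.Eventually.of_forall (fun z => ?_))
    simp only [Function.uncurry]
    push_cast
    ring
  rw [integral_integral_swap hint]
  have hgc := hat_cont hg
  have h3 : ‖∫ a in Ioc (-R) R, ∫ u in Ioi (0 : ℝ), g u * (((1 - |a| / R) * Real.cos (a * (t - u)) : ℝ) : ℂ)‖
      ≤ ∫ a in Ioc (-R) R, (‖hat g a‖ + ‖hat g (-a)‖) / 2 := by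
    apply norm_integral_le_of_norm_le
    · have : Continuous (fun a : ℝ => (‖hat g a‖ + ‖hat g (-a)‖) / 2) := by fun_prop
      exact (this.integrableOn_Icc (a := -R) (b := R)).mono_set Ioc_subset_Icc_self
    · refine (ae_restrict_iff' measurableSet_Ioc).2 (Filter.Eventually.of_forall (fun a ha => ?_))
      have e : ∀ u : ℝ, g u * (((1 - |a| / R) * Real.cos (a * (t - u)) : ℝ) : ℂ)
          = ((1 - |a| / R : ℝ) : ℂ) * (g u * (Real.cos (a * (t - u)) : ℂ)) := by
        intro u
        push_cast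
        ring
      simp_rw [e]
      rw [integral_const_mul, norm_mul, Complex.norm_real, Real.norm_eq_abs, abs_of_nonneg (tf_psi hR ha)]
      calc (1 - |a| / R) * ‖∫ u in Ioi (0 : ℝ), g u * (Real.cos (a * (t - u)) : ℂ)‖
          ≤ 1 * ‖∫ u in Ioi (0 : ℝ), g u * (Real.cos (a * (t - u)) : ℂ)‖ :=
            mul_le_mul_of_nonneg_right (tf_psi1 hR a) (norm_nonneg _)
        _ ≤ (‖hat g a‖ + ‖hat g (-a)‖) / 2 := by rw [one_mul]; exact tf_cos hg a t
  refine h3.trans (le_of_eq ?_)
  rw [← intervalIntegral.integral_of_le hRR, intervalIntegral.integral_div,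
    intervalIntegral.integral_add (by apply Continuous.intervalIntegrable; fun_prop)
      (by apply Continuous.intervalIntegrable; fun_prop)]
  have h4 : ∫ a in (-R)..R, ‖hat g (-a)‖ = ∫ a in (-R)..R, ‖hat g a‖ := by
    have := intervalIntegral.integral_comp_neg (a := -R) (b := R) (fun a => ‖hat g a‖)
    simpa using this
  rw [h4]
  ring

theorem fourier_ineq {f : ℝ → ℝ} (hf : IntegrableOn f (Ioi 0)) {R : ℝ} (hR : 0 < R) (t : ℝ) :
    |∫ u in Ioi (0 : ℝ), f u * kern R (t - u)| ≤
      2 * R * ∫ τ in Icc (-(2 * R)) (2 * R), ‖∫ u in Ioi (0 : ℝ), (f u : ℂ) * cexp (-((τ : ℂ) * I) * u)‖ := by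
  have hRR : -R ≤ R := by linarith
  have hfc : IntegrableOn (fun u : ℝ => (f u : ℂ)) (Ioi 0) := hf.ofReal
  have hg1 : IntegrableOn (fun u : ℝ => (f u : ℂ) * (kR R (t - u) : ℂ)) (Ioi 0) := by
    apply Integrable.mul_bdd (c := 2 * R) hfc
    · apply Continuous.aestronglyMeasurable
      exact Complex.continuous_ofReal.comp ((tf_kRcont R).comp (by fun_prop))
    · refine Filter.Eventually.of_forall (fun u => ?_)
      rw [Complex.norm_real, Real.norm_eq_abs]
      exact tf_abs hR _
  have hfh : Continuous (hat (fun u => (f u : ℂ))) := hat_cont hfc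
  have h0 : |∫ u in Ioi (0 : ℝ), f u * kern R (t - u)|
      = ‖∫ u in Ioi (0 : ℝ), ((f u : ℂ) * (kR R (t - u) : ℂ)) * (kR R (t - u) : ℂ)‖ := by
    rw [← Real.norm_eq_abs, ← Complex.norm_real, ← integral_complex_ofReal]
    congr 2
    funext u
    rw [kern]
    push_cast
    ring
  rw [h0]
  refine (tf_step hg1 hR t).trans ?_
  set J : ℝ := ∫ τ in Icc (-(2 * R)) (2 * R), ‖∫ u in Ioi (0 : ℝ), (f u : ℂ) * cexp (-((τ : ℂ) * I) * u)‖ with hJ
  have h2 : ∀ a ∈ Icc (-R) R, ‖hat (fun u : ℝ => (f u : ℂ) * (kR R (t - u) : ℂ)) a‖ ≤ J := by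
    intro a ha
    have hg2 : IntegrableOn (fun u : ℝ => (f u : ℂ) * cexp (-((a : ℂ) * I) * u)) (Ioi 0) := by
      apply Integrable.mul_bdd (c := 1) hfc
      · apply Continuous.aestronglyMeasurable
        fun_prop
      · exact Filter.Eventually.of_forall (fun u => (tf_unim a u).le)
    have e1 : hat (fun u : ℝ => (f u : ℂ) * (kR R (t - u) : ℂ)) a
        = ∫ u in Ioi (0 : ℝ), ((f u : ℂ) * cexp (-((a : ℂ) * I) * u)) * (kR R (t - u) : ℂ) := by
      unfold hat
      congr 1
      funext u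
      ring
    rw [e1]
    refine (tf_step hg2 hR t).trans ?_
    have e2 : ∀ b : ℝ, hat (fun u : ℝ => (f u : ℂ) * cexp (-((a : ℂ) * I) * u)) b
        = hat (fun u => (f u : ℂ)) (b + a) := by
      intro b
      unfold hat
      congr 1
      funext u
      rw [mul_assoc, ← Complex.exp_add]
      congr 2
      push_cast
      ring
    simp_rw [e2]
    rw [intervalIntegral.integral_comp_add_right (fun x => ‖hat (fun u => (f u : ℂ)) x‖) a,
      intervalIntegral.integral_of_le (by linarith)]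
    apply setIntegral_mono_set
    · have : Continuous (fun a : ℝ => ‖hat (fun u => (f u : ℂ)) a‖) := by fun_prop
      exact this.integrableOn_Icc
    · exact Filter.Eventually.of_forall (fun x => norm_nonneg _)
    · apply LE.le.eventuallyLE
      intro x hx
      have h3 := hx.1
      have h4 := hx.2
      have h5 := ha.1
      have h6 := ha.2
      constructor <;> linarith
  calc ∫ a in (-R)..R, ‖hat (fun u : ℝ => (f u : ℂ) * (kR R (t - u) : ℂ)) a‖
      ≤ ∫ a in (-R)..R, J := by
        apply intervalIntegral.integral_mono_on hRR _ _ h2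
        · apply Continuous.intervalIntegrable
          exact (hat_cont hg1).norm
        · simp
    _ = 2 * R * J := by
        rw [intervalIntegral.integral_const, smul_eq_mul]
        ring

end Pool.Agent.Helper58.BSD
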