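import Mathlib
import Pool.Agent.Helper58.BSD.TDefs

/-!
# T8. The kernel (weight 10, project BSD)

PROOF. `kR_eq`: for `x ≠ 0` integrate by parts, or differentiate: an antiderivative of `(1 - a/R) cos (a x)` on `[0, R]` is
`(1 - a/R) sin (a x) / x - cos (a x) / (R x^2)`; double by symmetry (`intervalIntegral.integral_comp_neg`). `kR_abs`: the integrand is at most
`1 - |a|/R` with integral `R`. Hence `0 ≤ kR`, `kR R x * x ^ 2 ≤ 4 / R`. `kern R x = kR ^ 2 ≤ R ^ 2`, `kern R x * x ^ 4 ≤ 16 / R ^ 2`.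
Continuity: parametric interval integral (`intervalIntegral.continuous_parametric_intervalIntegral_of_continuous'`).
Integrability of `kern` and `|x| kern`: dominated by `C / (1 + x ^ 2)` (`integrable_inv_one_add_sq`):
`kern (1 + x^2) ≤ …` and `|x| (1 + x ^ 2) kern ≤ …` from the two bounds (`|x| + |x|^3 ≤ 2 (1 + x ^ 4)`).
`mass_pos`: `kR R 0 = R > 0`, continuous and nonnegative. `kern_conc`: `kern R x = R ^ 2 Φ (R x)`, or directly:
`∫_{|x| ≥ δ} kern R ≤ ∫_{|x| ≥ δ} 16 R⁻² x⁻⁴ = (32/3) R⁻² δ⁻³`, and `∫ kern R ≥ c R` with `c > 0`: for `|x| ≤ 1 / R`,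
`cos (a x) ≥ cos 1 ≥ 1/2`, so `kR R x ≥ R / 2`, `∫ kern R ≥ (2/R) (R/2)^2 = R / 2`. So `R` large enough works.
-/

namespace Pool.Agent.Helper58.BSD

open Complex Filter Topology MeasureTheory Set Pool.Agent.Helper13.Bsd Pool.Agent.Helper7.GW

private theorem tk_even {f : ℝ → ℝ} (hf : Continuous f) (he : ∀ a, f (-a) = f a) (R : ℝ) :
    ∫ a in (-R)..R, f a = 2 * ∫ a in (0 : ℝ)..R, f a := by
  have h1 : ∫ a in (-R)..(0 : ℝ), f a = ∫ a in (0 : ℝ)..R, f a := by
    have := intervalIntegral.integral_comp_neg (a := -R) (b := 0) f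
    simpa [he] using this
  rw [← intervalIntegral.integral_add_adjacent_intervals (b := 0) (hf.intervalIntegrable _ _)
    (hf.intervalIntegrable _ _), h1]
  ring

private theorem tk_cont (R x : ℝ) : Continuous (fun a : ℝ => (1 - |a| / R) * Real.cos (a * x)) := by
  fun_prop

private theorem tk_ev (R x : ℝ) : kR R x = 2 * ∫ a in (0 : ℝ)..R, (1 - |a| / R) * Real.cos (a * x) := by
  rw [kR]
  apply tk_even (tk_cont R x)
  intro a
  rw [abs_neg, neg_mul, Real.cos_neg]

private theorem tk_half {R : ℝ} (hR : 0 < R) {x : ℝ} (hx : x ≠ 0) :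
    ∫ a in (0 : ℝ)..R, (1 - |a| / R) * Real.cos (a * x) = (1 - Real.cos (R * x)) / (R * x ^ 2) := by
  have h1 : ∫ a in (0 : ℝ)..R, (1 - |a| / R) * Real.cos (a * x)
      = ∫ a in (0 : ℝ)..R, (1 - a / R) * Real.cos (a * x) := by
    apply intervalIntegral.integral_congr
    intro a ha
    rw [uIcc_of_le hR.le] at ha
    simp only [abs_of_nonneg ha.1]
  rw [h1]
  have h2 : ∀ a ∈ uIcc 0 R, HasDerivAt
      (fun a : ℝ => (1 - a / R) * Real.sin (a * x) / x - Real.cos (a * x) / (R * x ^ 2))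
      ((1 - a / R) * Real.cos (a * x)) a := by
    intro a _
    have e1 : HasDerivAt (fun a : ℝ => a * x) x a := by simpa using (hasDerivAt_id a).mul_const x
    have e2 : HasDerivAt (fun a : ℝ => Real.sin (a * x)) (Real.cos (a * x) * x) a := e1.sin
    have e3 : HasDerivAt (fun a : ℝ => Real.cos (a * x)) (-Real.sin (a * x) * x) a := e1.cos
    have e4 : HasDerivAt (fun a : ℝ => 1 - a / R) (-(1 / R)) a := by
      simpa using ((hasDerivAt_id a).div_const R).const_sub 1
    have e5 := ((e4.mul e2).div_const x).sub (e3.div_const (R * x ^ 2))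
    refine HasDerivAt.congr_deriv e5 ?_
    field_simp
    ring
  rw [intervalIntegral.integral_eq_sub_of_hasDerivAt h2 ?_]
  · have hRR : R / R = 1 := div_self hR.ne'
    simp only [hRR, sub_self, zero_mul, zero_div, zero_sub, Real.sin_zero, mul_zero, Real.cos_zero]
    ring
  · apply Continuous.intervalIntegrable
    fun_prop

private theorem tk_tri {R : ℝ} (hR : 0 < R) : ∫ a in (-R)..R, (1 - |a| / R) = R := by
  rw [tk_even (f := fun a : ℝ => 1 - |a| / R) (by fun_prop) (by intro a; simp)]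
  have h1 : ∫ a in (0 : ℝ)..R, (1 - |a| / R) = ∫ a in (0 : ℝ)..R, (1 - a / R) := by
    apply intervalIntegral.integral_congr
    intro a ha
    rw [uIcc_of_le hR.le] at ha
    simp only [abs_of_nonneg ha.1]
  rw [h1, intervalIntegral.integral_sub (by simp) (by apply Continuous.intervalIntegrable; fun_prop),
    intervalIntegral.integral_div, integral_id]
  simp
  field_simp
  ring

private theorem tk_psi {R : ℝ} (hR : 0 < R) {a : ℝ} (ha : a ∈ Ioc (-R) R) : 0 ≤ 1 - |a| / R := by
  have : |a| ≤ R := abs_le.2 ⟨ha.1.le, ha.2⟩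
  have := (div_le_one hR).2 this
  linarith

private theorem tk_abs {R : ℝ} (hR : 0 < R) (x : ℝ) : |kR R x| ≤ R := by
  have h := intervalIntegral.norm_integral_le_of_norm_le (a := -R) (b := R) (μ := volume)
    (f := fun a : ℝ => (1 - |a| / R) * Real.cos (a * x)) (g := fun a : ℝ => 1 - |a| / R) (by linarith)
    (by
      refine Filter.Eventually.of_forall (fun a ha => ?_)
      rw [norm_mul, Real.norm_eq_abs, Real.norm_eq_abs, abs_of_nonneg (tk_psi hR ha)]
      exact mul_le_of_le_one_right (tk_psi hR ha) (Real.abs_cos_le_one _))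
    (by apply Continuous.intervalIntegrable; fun_prop)
  rw [tk_tri hR, Real.norm_eq_abs] at h
  exact h

private theorem tk_low {R : ℝ} (hR : 0 < R) {x : ℝ} (hx : |x| ≤ 1 / R) : R / 2 ≤ kR R x := by
  have h1 : ∫ a in (-R)..R, (1 - |a| / R) / 2 ≤ kR R x := by
    rw [kR]
    apply intervalIntegral.integral_mono_on (by linarith)
      (by apply Continuous.intervalIntegrable; fun_prop)
      (by apply Continuous.intervalIntegrable; fun_prop)
    intro a ha
    have ha' : |a| ≤ R := abs_le.2 ⟨ha.1, ha.2⟩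
    have h2 : 0 ≤ 1 - |a| / R := by
      have := (div_le_one hR).2 ha'
      linarith
    have h3 : |a * x| ≤ 1 := by
      rw [abs_mul]
      calc |a| * |x| ≤ R * (1 / R) := mul_le_mul ha' hx (abs_nonneg _) hR.le
        _ = 1 := by field_simp
    have h4 : (a * x) ^ 2 ≤ 1 := by
      rw [← sq_abs]
      nlinarith [abs_nonneg (a * x)]
    have h5 := Real.one_sub_sq_div_two_le_cos (x := a * x)
    have h6 : 1 / 2 ≤ Real.cos (a * x) := by linarith
    nlinarith
  rw [intervalIntegral.integral_div, tk_tri hR] at h1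
  exact h1

private theorem tk_kRcont (R : ℝ) : Continuous (kR R) := by
  unfold kR
  apply intervalIntegral.continuous_parametric_intervalIntegral_of_continuous'
  simp only [Function.uncurry_def]
  fun_prop

theorem kR_eq {R : ℝ} (hR : 0 < R) {x : ℝ} (hx : x ≠ 0) : kR R x = 2 * (1 - Real.cos (R * x)) / (R * x ^ 2) := by
  rw [tk_ev, tk_half hR hx]
  ring

theorem kern_nonneg (R x : ℝ) : 0 ≤ kern R x := by
  exact sq_nonneg _

theorem kern_le {R : ℝ} (hR : 0 < R) (x : ℝ) : kern R x ≤ R ^ 2 := by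
  have h := tk_abs hR x
  rw [kern, ← sq_abs]
  exact pow_le_pow_left₀ (abs_nonneg _) h 2

theorem kern_decay {R : ℝ} (hR : 0 < R) (x : ℝ) : kern R x * x ^ 4 ≤ 16 / R ^ 2 := by
  rcases eq_or_ne x 0 with rfl | hx
  · simp
    positivity
  · have h1 : kR R x * x ^ 2 = 2 * (1 - Real.cos (R * x)) / R := by
      rw [kR_eq hR hx]
      field_simp
    have h2 : 0 ≤ 2 * (1 - Real.cos (R * x)) / R := by
      have := Real.cos_le_one (R * x)
      apply div_nonneg _ hR.le
      linarith
    have h3 : 2 * (1 - Real.cos (R * x)) / R ≤ 4 / R := by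
      have := Real.neg_one_le_cos (R * x)
      apply div_le_div_of_nonneg_right _ hR.le
      linarith
    calc kern R x * x ^ 4 = (kR R x * x ^ 2) ^ 2 := by rw [kern]; ring
      _ ≤ (4 / R) ^ 2 := by rw [h1]; exact pow_le_pow_left₀ h2 h3 2
      _ = 16 / R ^ 2 := by rw [div_pow]; norm_num

theorem continuous_kern {R : ℝ} (hR : 0 < R) : Continuous (kern R) := by
  unfold kern
  exact (tk_kRcont R).pow 2

theorem integrable_kern {R : ℝ} (hR : 0 < R) : Integrable (kern R) := by
  have hg : Integrable (fun x : ℝ => (2 * R ^ 2 + 16 / R ^ 2) * (1 + x ^ 2)⁻¹) :=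
    integrable_inv_one_add_sq.const_mul _
  refine hg.mono' (continuous_kern hR).aestronglyMeasurable (Filter.Eventually.of_forall (fun x => ?_))
  rw [Real.norm_eq_abs, abs_of_nonneg (kern_nonneg R x)]
  have h1 := kern_le hR x
  have h2 := kern_decay hR x
  have h0 := kern_nonneg R x
  rw [← div_eq_mul_inv, le_div_iff₀ (by positivity)]
  have h3 : x ^ 2 ≤ 1 + x ^ 4 := by nlinarith [sq_nonneg (x ^ 2 - 1), sq_nonneg x]
  nlinarith [mul_le_mul_of_nonneg_left h3 h0]

theorem integrable_abs_kern {R : ℝ} (hR : 0 < R) : Integrable (fun x => |x| * kern R x) := by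
  have hg : Integrable (fun x : ℝ => (2 * R ^ 2 + 32 / R ^ 2) * (1 + x ^ 2)⁻¹) :=
    integrable_inv_one_add_sq.const_mul _
  refine hg.mono' (continuous_abs.mul (continuous_kern hR)).aestronglyMeasurable
    (Filter.Eventually.of_forall (fun x => ?_))
  have h1 := kern_le hR x
  have h2 := kern_decay hR x
  have h0 := kern_nonneg R x
  rw [Real.norm_eq_abs, abs_of_nonneg (mul_nonneg (abs_nonneg _) h0)]
  rw [← div_eq_mul_inv, le_div_iff₀ (by positivity)]
  have ha : 0 ≤ |x| := abs_nonneg x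
  have h3 : |x| + |x| * x ^ 2 ≤ 2 * (1 + x ^ 4) := by
    rw [← sq_abs x, show x ^ 4 = |x| ^ 4 by rw [show (4 : ℕ) = 2 * 2 by norm_num, pow_mul, pow_mul, sq_abs]]
    nlinarith [sq_nonneg (|x| - 1), sq_nonneg (|x| ^ 2 - 1), sq_nonneg (|x| ^ 2 - |x|)]
  have h5 : |x| * kern R x * (1 + x ^ 2) = kern R x * (|x| + |x| * x ^ 2) := by ring
  rw [h5]
  have h6 : 32 / R ^ 2 = 2 * (16 / R ^ 2) := by ring
  rw [h6]
  nlinarith [mul_le_mul_of_nonneg_left h3 h0]

private theorem tk_mass {R : ℝ} (hR : 0 < R) : R / 2 ≤ ∫ x, kern R x := by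
  have h1 : ∫ x in Icc (-(1 / R)) (1 / R), R ^ 2 / 4 ≤ ∫ x in Icc (-(1 / R)) (1 / R), kern R x := by
    apply setIntegral_mono_on _ (integrable_kern hR).integrableOn measurableSet_Icc
    · intro x hx
      have hx' : |x| ≤ 1 / R := abs_le.2 hx
      have h2 := tk_low hR hx'
      rw [kern]
      nlinarith
    · exact integrableOn_const (by simp)
  have h2 : ∫ x in Icc (-(1 / R)) (1 / R), kern R x ≤ ∫ x, kern R x :=
    setIntegral_le_integral (integrable_kern hR) (Filter.Eventually.of_forall (fun x => kern_nonneg R x))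
  have h3 : ∫ x in Icc (-(1 / R)) (1 / R), R ^ 2 / 4 = R / 2 := by
    rw [setIntegral_const]
    have : volume.real (Icc (-(1 / R)) (1 / R)) = 2 / R := by
      rw [Real.volume_real_Icc_of_le (by have : 0 < 1 / R := by positivity
                                         linarith)]
      ring
    rw [this, smul_eq_mul]
    field_simp
    ring
  linarith

theorem mass_pos {R : ℝ} (hR : 0 < R) : 0 < ∫ x, kern R x := by
  exact lt_of_lt_of_le (by positivity) (tk_mass hR)

theorem kern_conc (δ : ℝ) (hδ : 0 < δ) (ε : ℝ) (hε : 0 < ε) :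
    ∃ R : ℝ, 0 < R ∧ ∫ x in {x : ℝ | δ ≤ |x|}, kern R x ≤ ε * ∫ x, kern R x := by
  set D : ℝ := 1 / δ ^ 2 + 1 / δ ^ 4 with hD
  have hDp : 0 < D := by positivity
  refine ⟨max 1 (32 * D * Real.pi / ε), lt_of_lt_of_le one_pos (le_max_left _ _), ?_⟩
  set R : ℝ := max 1 (32 * D * Real.pi / ε) with hRd
  have hR1 : 1 ≤ R := le_max_left _ _
  have hR : 0 < R := lt_of_lt_of_le one_pos hR1
  have hR2 : 32 * D * Real.pi / ε ≤ R := le_max_right _ _
  have hS : MeasurableSet {x : ℝ | δ ≤ |x|} := (isClosed_le continuous_const continuous_abs).measurableSet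
  have hg : Integrable (fun x : ℝ => (16 / R ^ 2 * D) * (1 + x ^ 2)⁻¹) :=
    integrable_inv_one_add_sq.const_mul _
  have key : ∀ x ∈ {x : ℝ | δ ≤ |x|}, kern R x ≤ (16 / R ^ 2 * D) * (1 + x ^ 2)⁻¹ := by
    intro x hx
    have hx' : δ ≤ |x| := hx
    have hx2 : δ ^ 2 ≤ x ^ 2 := by
      rw [← sq_abs x]
      exact pow_le_pow_left₀ hδ.le hx' 2
    have hx4 : δ ^ 4 ≤ x ^ 4 := by
      have := pow_le_pow_left₀ (by positivity) hx2 2
      calc δ ^ 4 = (δ ^ 2) ^ 2 := by ring
        _ ≤ (x ^ 2) ^ 2 := this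
        _ = x ^ 4 := by ring
    have h2 := kern_decay hR x
    have h0 := kern_nonneg R x
    have h3 : 1 + x ^ 2 ≤ D * x ^ 4 := by
      have e1 : 1 ≤ 1 / δ ^ 4 * x ^ 4 := by
        rw [one_div, ← div_eq_inv_mul, le_div_iff₀ (by positivity)]
        linarith
      have e2 : x ^ 2 ≤ 1 / δ ^ 2 * x ^ 4 := by
        rw [one_div, ← div_eq_inv_mul, le_div_iff₀ (by positivity)]
        nlinarith [sq_nonneg x]
      rw [hD, add_mul]
      linarith
    rw [← div_eq_mul_inv, le_div_iff₀ (by positivity)]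
    calc kern R x * (1 + x ^ 2) ≤ kern R x * (D * x ^ 4) := mul_le_mul_of_nonneg_left h3 h0
      _ = D * (kern R x * x ^ 4) := by ring
      _ ≤ D * (16 / R ^ 2) := mul_le_mul_of_nonneg_left h2 hDp.le
      _ = 16 / R ^ 2 * D := by ring
  have h1 : ∫ x in {x : ℝ | δ ≤ |x|}, kern R x ≤ (16 / R ^ 2 * D) * Real.pi := by
    calc ∫ x in {x : ℝ | δ ≤ |x|}, kern R x
        ≤ ∫ x in {x : ℝ | δ ≤ |x|}, (16 / R ^ 2 * D) * (1 + x ^ 2)⁻¹ :=
          setIntegral_mono_on (integrable_kern hR).integrableOn hg.integrableOn hS key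
      _ ≤ ∫ x, (16 / R ^ 2 * D) * (1 + x ^ 2)⁻¹ :=
          setIntegral_le_integral hg (Filter.Eventually.of_forall (fun x => by positivity))
      _ = (16 / R ^ 2 * D) * Real.pi := by
          rw [integral_const_mul, integral_univ_inv_one_add_sq]
  have h2 : (16 / R ^ 2 * D) * Real.pi ≤ ε * (R / 2) := by
    have e1 : 32 * D * Real.pi ≤ ε * R := by
      rw [div_le_iff₀ hε] at hR2
      linarith
    have e2 : 16 / R ^ 2 * D * Real.pi = (32 * D * Real.pi) / (2 * R ^ 2) := by
      field_simp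
      ring
    rw [e2, div_le_iff₀ (by positivity)]
    have e3 : 1 ≤ R ^ 2 := by nlinarith
    have e4 : 0 ≤ ε * R := by positivity
    nlinarith [mul_le_mul_of_nonneg_left e3 e4]
  calc ∫ x in {x : ℝ | δ ≤ |x|}, kern R x ≤ (16 / R ^ 2 * D) * Real.pi := h1
    _ ≤ ε * (R / 2) := h2
    _ ≤ ε * ∫ x, kern R x := mul_le_mul_of_nonneg_left (tk_mass hR) hε.le

end Pool.Agent.Helper58.BSD
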