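import Mathlib
import Pool.Agent.Helper58.BSD.TDefs

/-!
# T3. Mean growth of `v` when `G 0 ≠ 0` (weight 10, project BSD)

PROOF. For real `x > 0`, `G x = exp (-(x Lap v x))` and `Lap v x` is real (`re_Lap_ofReal`), so `x Lap v x = -log ‖G x‖`. `G` is continuous and
nonzero on the compact interval `[0, 1]`, so `|log ‖G x‖| ≤ M` there. Let `b t = C (1 + t) - v t ≥ 0` for `t > 0`. For `T ≥ 1`, `x = 1 / T`:
`∫_0^∞ b e^{-x t} = C (T + T ^ 2) - Lap v x ≤ C (T + T ^ 2) + M T` (`∫ e^{-xt} = 1/x`, `∫ t e^{-xt} = 1/x^2`), and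
`∫_0^T b ≤ e ∫_0^T b e^{-t/T}`. Finally `|v t| ≤ b t + C (1 + t)`.
-/

namespace Pool.Agent.Helper58.BSD

open Complex Filter Topology MeasureTheory Set Pool.Agent.Helper13.Bsd Pool.Agent.Helper7.GW

variable {v : ℝ → ℝ} {G : ℂ → ℂ} {A a η : ℝ}

theorem integrable_kernel {f : ℝ → ℝ} (hf : Measurable f) (hloc : ∀ X : ℝ, IntegrableOn f (Ioc 0 X)) {D : ℝ}
    (hD : ∀ T : ℝ, 1 ≤ T → ∫ t in Ioc 0 T, |f t| ≤ D * T ^ 2) {k : ℝ → ℝ} (hk : Measurable k) {M : ℝ}
    (hk1 : ∀ x, |k x| ≤ M) (hk2 : ∀ x, |k x| * x ^ 4 ≤ M) (t : ℝ) :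
    IntegrableOn (fun u => f u * k (t - u)) (Ioi 0) := by
  have hM0 : 0 ≤ M := (abs_nonneg _).trans (hk1 0)
  obtain ⟨N, hN⟩ := exists_nat_ge (2 * |t| + 2)
  have hN2 : (2 : ℝ) ≤ N := by
    have := abs_nonneg t
    linarith
  have hmeas : Measurable (fun u => f u * k (t - u)) :=
    hf.mul (hk.comp (measurable_const.sub measurable_id))
  have hloc2 : ∀ X : ℝ, IntegrableOn (fun u => f u * k (t - u)) (Ioc 0 X) := by
    intro X
    have h1 : IntegrableOn (fun u => |f u| * M) (Ioc 0 X) := (hloc X).abs.mul_const M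
    refine Integrable.mono' h1 hmeas.aestronglyMeasurable ?_
    filter_upwards with u
    rw [norm_mul, Real.norm_eq_abs, Real.norm_eq_abs]
    exact mul_le_mul_of_nonneg_left (hk1 _) (abs_nonneg _)
  have hD0 : 0 ≤ D := by
    have h1 := hD 1 le_rfl
    have h2 : 0 ≤ ∫ t in Ioc (0 : ℝ) 1, |f t| := integral_nonneg fun _ => abs_nonneg _
    linarith
  set s : ℕ → Set ℝ := fun i => Ioc ((N : ℝ) + i) ((N : ℝ) + i + 1) with hs
  have hsub : ∀ i, s i ⊆ Ioc 0 ((N : ℝ) + i + 1) := by
    intro i u hu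
    refine ⟨?_, hu.2⟩
    have h1 : (0 : ℝ) ≤ i := by positivity
    have := hu.1
    linarith
  have h2 : IntegrableOn (fun u => f u * k (t - u)) (⋃ i, s i) := by
    apply integrableOn_iUnion_of_summable_integral_norm (fun i => (hloc2 _).mono_set (hsub i))
    apply Summable.of_nonneg_of_le (fun i => integral_nonneg fun _ => norm_nonneg _)
      (f := fun i : ℕ => 64 * M * D * (1 / ((i : ℝ) + 1) ^ 2))
    · intro i
      have hi0 : (0 : ℝ) ≤ i := by positivity
      have hNi : (0 : ℝ) < (N : ℝ) + i := by linarith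
      have hb : ∀ u ∈ s i, ‖f u * k (t - u)‖ ≤ |f u| * (16 * M / ((N : ℝ) + i) ^ 4) := by
        intro u hu
        have hu1 := hu.1
        rw [norm_mul, Real.norm_eq_abs, Real.norm_eq_abs]
        apply mul_le_mul_of_nonneg_left _ (abs_nonneg _)
        have h3 := hk2 (t - u)
        have h4 : ((N : ℝ) + i) / 2 ≤ u - t := by
          have := le_abs_self t
          have := neg_abs_le t
          nlinarith
        have h5 : (((N : ℝ) + i) / 2) ^ 4 ≤ (t - u) ^ 4 := by
          have h6 : (t - u) ^ 4 = (u - t) ^ 4 := by ring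
          rw [h6]
          exact pow_le_pow_left₀ (by linarith) h4 4
        have h7 : |k (t - u)| * (((N : ℝ) + i) / 2) ^ 4 ≤ M :=
          (mul_le_mul_of_nonneg_left h5 (abs_nonneg _)).trans h3
        rw [le_div_iff₀ (by positivity)]
        have h8 : (((N : ℝ) + i) / 2) ^ 4 = ((N : ℝ) + i) ^ 4 / 16 := by ring
        rw [h8] at h7
        linarith
      calc ∫ u in s i, ‖f u * k (t - u)‖ ≤ ∫ u in s i, |f u| * (16 * M / ((N : ℝ) + i) ^ 4) := by
            apply setIntegral_mono_on ((hloc2 _).mono_set (hsub i)).norm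
              (((hloc _).mono_set (hsub i)).abs.mul_const _) measurableSet_Ioc hb
        _ = (∫ u in s i, |f u|) * (16 * M / ((N : ℝ) + i) ^ 4) := by rw [integral_mul_const]
        _ ≤ (D * ((N : ℝ) + i + 1) ^ 2) * (16 * M / ((N : ℝ) + i) ^ 4) := by
            apply mul_le_mul_of_nonneg_right _ (by positivity)
            refine le_trans ?_ (hD ((N : ℝ) + i + 1) (by linarith))
            apply setIntegral_mono_set (hloc _).abs
            · filter_upwards with u
              exact abs_nonneg _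
            · exact (hsub i).eventuallyLE
        _ ≤ (D * (4 * ((N : ℝ) + i) ^ 2)) * (16 * M / ((N : ℝ) + i) ^ 4) := by
            apply mul_le_mul_of_nonneg_right _ (by positivity)
            apply mul_le_mul_of_nonneg_left _ hD0
            nlinarith
        _ = 64 * M * D * (1 / ((N : ℝ) + i) ^ 2) := by
            field_simp
            ring
        _ ≤ _ := by
            apply mul_le_mul_of_nonneg_left _ (by positivity)
            apply one_div_le_one_div_of_le (by positivity)
            apply pow_le_pow_left₀ (by positivity)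
            linarith
    · apply Summable.mul_left
      have h3 := (summable_nat_add_iff 1).mpr (Real.summable_one_div_nat_pow.mpr (by norm_num : 1 < 2))
      refine h3.congr fun i => ?_
      push_cast
      rfl
  have h3 : Ioi (0 : ℝ) ⊆ Ioc 0 (N : ℝ) ∪ ⋃ i, s i := by
    intro u hu
    have hu0 : 0 < u := hu
    by_cases h : u ≤ N
    · exact Or.inl ⟨hu0, h⟩
    · push Not at h
      right
      rw [mem_iUnion]
      have h4 : N < ⌈u⌉₊ := Nat.lt_ceil.mpr h
      refine ⟨⌈u⌉₊ - 1 - N, ?_⟩
      have h5 : ((⌈u⌉₊ - 1 - N : ℕ) : ℝ) = (⌈u⌉₊ : ℝ) - 1 - N := by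
        rw [Nat.sub_sub, Nat.cast_sub (by omega)]
        push_cast
        ring
      simp only [hs, mem_Ioc, h5]
      have h6 := Nat.ceil_lt_add_one hu0.le
      have h7 := Nat.le_ceil u
      constructor <;> linarith
  exact ((hloc2 N).union h2).mono_set h3

theorem l1_growth (hS : Setup v G A a η) (h0 : G 0 ≠ 0) (hint : ∀ x, 0 < x → LapInt v x)
    (hid : ∀ w : ℂ, 0 < w.re → G w = cexp (-(w * Lap v w))) {C : ℝ} (hC : 0 ≤ C)
    (hup : ∀ t, 0 ≤ t → v t ≤ C * (1 + t)) :
    ∃ D : ℝ, 0 ≤ D ∧ ∀ T : ℝ, 1 ≤ T → ∫ t in Ioc 0 T, |v t| ≤ D * T ^ 2 := by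
  -- bound for log of the norm of G on (0,1]
  obtain ⟨M, hM⟩ : ∃ M : ℝ, ∀ x : ℝ, 0 < x → x ≤ 1 → |Real.log ‖G (x : ℂ)‖| ≤ M := by
    have hne : ∀ x ∈ Icc (0 : ℝ) 1, ‖G (x : ℂ)‖ ≠ 0 := by
      intro x hx
      rcases hx.1.eq_or_lt with h | h
      · rw [← h, ofReal_zero]
        exact norm_ne_zero_iff.mpr h0
      · rw [hid (x : ℂ) (by simpa using h), norm_exp]
        exact (Real.exp_pos _).ne'
    have hcont : ContinuousOn (fun x : ℝ => Real.log ‖G (x : ℂ)‖) (Icc (0 : ℝ) 1) := by
      apply ContinuousOn.log _ hne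
      apply ContinuousOn.norm
      apply hS.diff.continuousOn.comp continuous_ofReal.continuousOn
      intro x hx
      have h1 := hS.hη
      have h2 := hx.1
      show -η < ((x : ℝ) : ℂ).re
      rw [ofReal_re]
      linarith
    obtain ⟨M, hM⟩ := (isCompact_Icc.image_of_continuousOn hcont.abs).bddAbove
    exact ⟨M, fun x hx hx1 => hM ⟨x, ⟨hx.le, hx1⟩, rfl⟩⟩
  have hreal : ∀ x : ℝ, 0 < x → x * ∫ t in Ioi (0 : ℝ), v t * Real.exp (-x * t)
      = -Real.log ‖G (x : ℂ)‖ := by
    intro x hx
    rw [hid (x : ℂ) (by simpa using hx), norm_exp, Real.log_exp, re_Lap_ofReal, neg_re, neg_neg,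
      ← ofReal_mul, ofReal_re]
  have hM0 : 0 ≤ M := (abs_nonneg _).trans (hM 1 one_pos le_rfl)
  refine ⟨Real.exp 1 * (2 * C + M) + 2 * C, by positivity, ?_⟩
  intro T hT
  have hT0 : 0 < T := by linarith
  set x : ℝ := 1 / T with hx
  have hx0 : 0 < x := by positivity
  have hx1 : x ≤ 1 := by
    rw [hx, div_le_one hT0]
    exact hT
  -- integrals of `1` and `t`
  have hi1 : IntegrableOn (fun t : ℝ => Real.exp (-x * t)) (Ioi 0) := by
    have := integrableOn_exp_mul_Ioi (by linarith : -x < 0) 0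
    exact this
  have hi2 : IntegrableOn (fun t : ℝ => t * Real.exp (-x * t)) (Ioi 0) := by
    have h := Real.GammaIntegral_convergent (s := 2) (by norm_num)
    have h2 := (integrableOn_Ioi_comp_mul_left_iff
      (fun u : ℝ => Real.exp (-u) * u ^ ((2 : ℝ) - 1)) 0 hx0).mpr (by simpa using h)
    refine IntegrableOn.congr_fun (h2.const_mul (1 / x)) ?_ measurableSet_Ioi
    intro t ht
    have ht' : 0 < t := ht
    simp only
    rw [show (2 : ℝ) - 1 = 1 by norm_num, Real.rpow_one]
    field_simp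
  have hI1 : ∫ t in Ioi (0 : ℝ), Real.exp (-x * t) = 1 / x := by
    rw [integral_exp_mul_Ioi (by linarith : -x < 0)]
    simp
  have hI2 : ∫ t in Ioi (0 : ℝ), t * Real.exp (-x * t) = 1 / x ^ 2 := by
    have h := Real.integral_rpow_mul_exp_neg_mul_Ioi (a := 2) (r := x) (by norm_num) hx0
    have h2 : ∫ t in Ioi (0 : ℝ), t * Real.exp (-x * t)
        = ∫ t in Ioi (0 : ℝ), t ^ ((2 : ℝ) - 1) * Real.exp (-(x * t)) := by
      apply setIntegral_congr_fun measurableSet_Ioi
      intro t _
      simp only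
      rw [show (2 : ℝ) - 1 = 1 by norm_num, Real.rpow_one, neg_mul]
    rw [h2, h]
    have : Real.Gamma 2 = 1 := by
      have := Real.Gamma_nat_eq_factorial 1
      simpa [one_add_one_eq_two] using this
    rw [this]
    simp
  -- the nonnegative function `b`
  have hvi := hint x hx0
  unfold LapInt at hvi
  have hbint : IntegrableOn (fun t => (C * (1 + t) - v t) * Real.exp (-x * t)) (Ioi 0) := by
    have h1 := ((hi1.add hi2).const_mul C).sub hvi
    refine h1.congr ?_
    filter_upwards with t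
    simp only [Pi.add_apply, Pi.sub_apply]
    ring
  have hbval : ∫ t in Ioi (0 : ℝ), (C * (1 + t) - v t) * Real.exp (-x * t)
      = C * (1 / x + 1 / x ^ 2) - ∫ t in Ioi (0 : ℝ), v t * Real.exp (-x * t) := by
    have e : (fun t : ℝ => (C * (1 + t) - v t) * Real.exp (-x * t))
        = fun t => C * (Real.exp (-x * t) + t * Real.exp (-x * t)) - v t * Real.exp (-x * t) := by
      funext t; ring
    have h12 : IntegrableOn (fun t : ℝ => Real.exp (-x * t) + t * Real.exp (-x * t)) (Ioi 0) := hi1.add hi2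
    rw [e, integral_sub (h12.const_mul C) hvi, integral_const_mul,
      integral_add hi1 hi2, hI1, hI2]
  have hvb : |∫ t in Ioi (0 : ℝ), v t * Real.exp (-x * t)| ≤ M * T := by
    have h1 := hreal x hx0
    have h2 := hM x hx0 hx1
    have h3 : x * |∫ t in Ioi (0 : ℝ), v t * Real.exp (-x * t)| ≤ M := by
      rw [← abs_of_pos hx0, ← abs_mul, abs_of_pos hx0, h1, abs_neg]
      exact h2
    have h4 : x * (M * T) = M := by
      rw [hx]; field_simp
    rw [← h4] at h3
    exact le_of_mul_le_mul_left h3 hx0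
  have hbT : ∫ t in Ioi (0 : ℝ), (C * (1 + t) - v t) * Real.exp (-x * t) ≤ (2 * C + M) * T ^ 2 := by
    rw [hbval]
    have h1 : 1 / x = T := by rw [hx]; field_simp
    have h2 : 1 / x ^ 2 = T ^ 2 := by rw [hx]; field_simp
    rw [h1, h2]
    have h3 := (abs_le.mp hvb).1
    have h4 : T ≤ T ^ 2 := by nlinarith
    have h5 := mul_le_mul_of_nonneg_left h4 hC
    have h6 := mul_le_mul_of_nonneg_left h4 hM0
    nlinarith
  have hvloc : IntegrableOn v (Ioc 0 T) := by
    have h1 : IntegrableOn (fun _ : ℝ => A * Real.exp (a * T)) (Ioc 0 T) := by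
      exact continuous_const.integrableOn_Ioc
    refine Integrable.mono' h1 hS.grow.meas.aestronglyMeasurable ?_
    rw [ae_restrict_iff' measurableSet_Ioc]
    filter_upwards with t ht
    refine (hS.grow.bd t ht.1).trans ?_
    apply mul_le_mul_of_nonneg_left _ hS.grow.hA
    rw [Real.exp_le_exp]
    exact mul_le_mul_of_nonneg_left ht.2 hS.grow.ha
  have hlin : IntegrableOn (fun t : ℝ => C * (1 + t)) (Ioc 0 T) := by
    apply Continuous.integrableOn_Ioc
    fun_prop
  have hbloc : IntegrableOn (fun t => C * (1 + t) - v t) (Ioc 0 T) := hlin.sub hvloc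
  have hb0 : ∀ t, 0 < t → 0 ≤ C * (1 + t) - v t := fun t ht => by
    have := hup t ht.le
    linarith
  have hb1 : ∫ t in Ioc 0 T, (C * (1 + t) - v t) ≤ Real.exp 1 * ((2 * C + M) * T ^ 2) := by
    have h1 : ∫ t in Ioc 0 T, (C * (1 + t) - v t)
        ≤ ∫ t in Ioc 0 T, Real.exp 1 * ((C * (1 + t) - v t) * Real.exp (-x * t)) := by
      apply setIntegral_mono_on hbloc _ measurableSet_Ioc
      · intro t ht
        have h2 : 1 ≤ Real.exp 1 * Real.exp (-x * t) := by
          rw [← Real.exp_add, Real.one_le_exp_iff]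
          have : x * t ≤ 1 := by
            rw [hx, one_div, inv_mul_le_iff₀ hT0]
            simpa using ht.2
          linarith
        have h3 := hb0 t ht.1
        nlinarith
      · exact (hbint.mono_set Ioc_subset_Ioi_self).const_mul _
    refine h1.trans ?_
    rw [integral_const_mul]
    apply mul_le_mul_of_nonneg_left _ (Real.exp_pos 1).le
    refine le_trans ?_ hbT
    apply setIntegral_mono_set hbint
    · rw [EventuallyLE, ae_restrict_iff' measurableSet_Ioi]
      filter_upwards with t ht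
      exact mul_nonneg (hb0 t ht) (Real.exp_pos _).le
    · exact Ioc_subset_Ioi_self.eventuallyLE
  have hsum : IntegrableOn (fun t => (C * (1 + t) - v t) + C * (1 + t)) (Ioc 0 T) := hbloc.add hlin
  calc ∫ t in Ioc 0 T, |v t| ≤ ∫ t in Ioc 0 T, ((C * (1 + t) - v t) + C * (1 + t)) := by
        apply setIntegral_mono_on hvloc.abs hsum measurableSet_Ioc
        intro t ht
        have h1 := hb0 t ht.1
        have h2 : 0 ≤ C * (1 + t) := mul_nonneg hC (by linarith [ht.1])
        rw [abs_le]
        constructor <;> linarith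
    _ = (∫ t in Ioc 0 T, (C * (1 + t) - v t)) + ∫ t in Ioc 0 T, C * (1 + t) :=
        integral_add hbloc hlin
    _ ≤ Real.exp 1 * ((2 * C + M) * T ^ 2) + 2 * C * T ^ 2 := by
        apply add_le_add hb1
        calc ∫ t in Ioc 0 T, C * (1 + t) ≤ ∫ t in Ioc 0 T, C * (1 + T) := by
              apply setIntegral_mono_on hlin _ measurableSet_Ioc
              · intro t ht
                apply mul_le_mul_of_nonneg_left _ hC
                linarith [ht.2]
              · exact continuous_const.integrableOn_Ioc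
          _ = C * (1 + T) * T := by
              rw [setIntegral_const, measureReal_def, Real.volume_Ioc, sub_zero,
                ENNReal.toReal_ofReal hT0.le, smul_eq_mul]
              ring
          _ ≤ 2 * C * T ^ 2 := by
              have h1 : (1 + T) * T ≤ 2 * T ^ 2 := by nlinarith
              have h2 := mul_le_mul_of_nonneg_left h1 hC
              nlinarith
    _ = _ := by ring

end Pool.Agent.Helper58.BSD
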