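import Mathlib
import Pool.Agent.Helper58.BSD.TDefs
import Pool.Agent.Helper58.BSD.TL1
import Pool.Agent.Helper58.BSD.TFour
import Pool.Agent.Helper58.BSD.TKern

/-!
# T9. The kernel means tend to zero (weight 10, project BSD)

PROOF. `h u = v u - κ`, `κ = kap G`. Its Laplace transform is `q w = Lap v w - κ / w` (`Re w > 0`). Mean growth of `h`:
`∫_0^T |h| ≤ D T ^ 2 + |κ| T ≤ (D + |κ|) T ^ 2`; so `integrable_kernel` (`kern_le`, `kern_decay`) gives integrability.
For `σ > 0` let `I_σ(t) = ∫_{u>0} h u e^{-σ u} kern R (t - u) du`. (1) `h e^{-σ u}` is integrable (`LapInt`), `kern` is bounded and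
`kern R (t - u) → 0` as `t → ∞` for fixed `u` (`kern_decay`), so `I_σ(t) → 0` as `t → ∞` (dominated convergence). (2) For
`σ, σ' < σ0`: `fourier_ineq` with `f u = h u e^{-σ u} - h u e^{-σ' u}` and `fhat τ = q (σ + iτ) - q (σ' + iτ)` gives
`|I_σ(t) - I_σ'(t)| ≤ 2 R ∫_{[-2R, 2R]} ‖q (σ + iτ) - q (σ' + iτ)‖ dτ ≤ ε` for all `t` (`CauchyL1` with `B = 2 R`). (3) As `σ' → 0+`,
`I_σ'(t) → ∫ h u kern R (t - u) du` (dominated convergence with the integrable bound `|h u| kern R (t - u)`). So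
`|∫ h kern - I_σ(t)| ≤ ε` for all `t`, and (1) finishes.
-/

namespace Pool.Agent.Helper58.BSD

open Complex Filter Topology MeasureTheory Set Pool.Agent.Helper13.Bsd Pool.Agent.Helper7.GW

variable {v : ℝ → ℝ} {G : ℂ → ℂ} {A a η : ℝ}

/-- the Laplace transform of `h = v - κ` -/
private theorem tc_lap {x : ℝ} {w : ℂ} (hw : w.re = x) (hx : 0 < x) (hint : LapInt v x)
    (hmeas : Measurable v) (κ : ℝ) :
    IntegrableOn (fun u : ℝ => ((v u - κ : ℝ) : ℂ) * cexp (-w * u)) (Ioi 0) ∧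
    ∫ u in Ioi (0 : ℝ), ((v u - κ : ℝ) : ℂ) * cexp (-w * u) = Lap v w - (κ : ℂ) / w := by
  have hwre : (-w).re < 0 := by
    rw [Complex.neg_re, hw]
    linarith
  have hw0 : w ≠ 0 := by
    rintro rfl
    rw [Complex.zero_re] at hw
    exact hx.ne hw
  have h1 : IntegrableOn (fun u : ℝ => cexp (-w * u)) (Ioi 0) :=
    integrableOn_exp_mul_complex_Ioi hwre 0
  have h2 : IntegrableOn (fun u : ℝ => (v u : ℂ) * cexp (-w * u)) (Ioi 0) := by
    refine Integrable.mono' (g := fun u => |v u * Real.exp (-x * u)|) hint.abs ?_ ?_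
    · exact ((Complex.measurable_ofReal.comp hmeas).mul (by fun_prop)).aestronglyMeasurable
    · refine Filter.Eventually.of_forall fun u => ?_
      rw [norm_mul, Complex.norm_real, Complex.norm_exp, abs_mul, abs_of_pos (Real.exp_pos _),
        Real.norm_eq_abs]
      apply le_of_eq
      congr 2
      simp [Complex.mul_re, hw]
  have h3 : (fun u : ℝ => ((v u - κ : ℝ) : ℂ) * cexp (-w * u)) =
      fun u : ℝ => (v u : ℂ) * cexp (-w * u) - (κ : ℂ) * cexp (-w * u) := by
    funext u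
    push_cast
    ring
  rw [h3]
  refine ⟨h2.sub (h1.const_mul _), ?_⟩
  rw [integral_sub h2 (h1.const_mul _), integral_const_mul, integral_exp_mul_complex_Ioi hwre 0]
  unfold Lap
  congr 1
  rw [Complex.ofReal_zero, mul_zero, Complex.exp_zero]
  field_simp

private theorem tc_exp {x : ℝ} (hx : 0 < x) (hint : LapInt v x) (κ : ℝ) :
    IntegrableOn (fun u : ℝ => (v u - κ) * Real.exp (-x * u)) (Ioi 0) := by
  have h1 : IntegrableOn (fun u : ℝ => Real.exp (-x * u)) (Ioi 0) :=
    integrableOn_exp_mul_Ioi (by linarith) 0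
  have h2 : (fun u : ℝ => (v u - κ) * Real.exp (-x * u)) =
      fun u : ℝ => v u * Real.exp (-x * u) - κ * Real.exp (-x * u) := by
    funext u
    ring
  rw [h2]
  exact Integrable.sub hint (h1.const_mul _)

private theorem tc_kern_tendsto {R : ℝ} (hR : 0 < R) (u : ℝ) :
    Tendsto (fun t : ℝ => kern R (t - u)) atTop (𝓝 0) := by
  have h1 : Tendsto (fun t : ℝ => 16 / R ^ 2 * ((t - u) ^ 4)⁻¹) atTop (𝓝 0) := by
    have h2 : Tendsto (fun t : ℝ => (t - u) ^ 4) atTop atTop :=
      (tendsto_pow_atTop (by norm_num)).comp (tendsto_atTop_add_const_right _ (-u) tendsto_id)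
    have h3 := h2.inv_tendsto_atTop.const_mul (16 / R ^ 2)
    rw [mul_zero] at h3
    exact h3
  refine squeeze_zero' (Filter.Eventually.of_forall fun t => kern_nonneg R _) ?_ h1
  filter_upwards [eventually_gt_atTop u] with t ht
  have h4 : 0 < (t - u) ^ 4 := pow_pos (by linarith) 4
  rw [← div_eq_mul_inv, le_div_iff₀ h4]
  exact kern_decay hR _

theorem kernel_mean (hv : Grow v A a) (hint : ∀ x, 0 < x → LapInt v x) {D : ℝ}
    (hD : ∀ T : ℝ, 1 ≤ T → ∫ t in Ioc 0 T, |v t| ≤ D * T ^ 2) (κ : ℝ)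
    (hcau : ∀ B : ℝ, CauchyL1 (fun w => Lap v w - (κ : ℂ) / w) (Icc (-B) B)) {R : ℝ} (hR : 0 < R) :
    (∀ t, IntegrableOn (fun u => (v u - κ) * kern R (t - u)) (Ioi 0)) ∧
    Tendsto (fun t => ∫ u in Ioi (0 : ℝ), (v u - κ) * kern R (t - u)) atTop (𝓝 0) := by
  have hm : Measurable (fun u => v u - κ) := hv.meas.sub_const κ
  have hk0 := kern_nonneg R
  have hkle : ∀ x, kern R x ≤ R ^ 2 := kern_le hR
  have hkm : Measurable (kern R) := (continuous_kern hR).measurable
  -- integrability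
  have hloc0 : ∀ X : ℝ, IntegrableOn v (Ioc 0 X) := by
    intro X
    refine Integrable.mono' (g := fun _ => A * Real.exp (a * X)) (integrable_const _)
      hv.meas.aestronglyMeasurable ?_
    refine (ae_restrict_iff' measurableSet_Ioc).2 (Filter.Eventually.of_forall fun u hu => ?_)
    refine (hv.bd u hu.1).trans ?_
    have h1 : a * u ≤ a * X := mul_le_mul_of_nonneg_left hu.2 hv.ha
    exact mul_le_mul_of_nonneg_left (Real.exp_le_exp.2 h1) hv.hA
  have hloc : ∀ X : ℝ, IntegrableOn (fun u => v u - κ) (Ioc 0 X) := fun X =>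
    (hloc0 X).sub (integrable_const κ)
  have hD' : ∀ T : ℝ, 1 ≤ T → ∫ t in Ioc 0 T, |v t - κ| ≤ (D + |κ|) * T ^ 2 := by
    intro T hT
    have h1 : ∫ t in Ioc 0 T, |v t - κ| ≤ ∫ t in Ioc 0 T, (|v t| + |κ|) := by
      refine integral_mono (hloc T).abs ((hloc0 T).abs.add (integrable_const _)) fun u => ?_
      exact abs_sub _ _
    rw [integral_add (hloc0 T).abs (integrable_const _)] at h1
    have h2 : ∫ _ in Ioc 0 T, |κ| = |κ| * T := by
      rw [integral_const]
      simp [Measure.real, Real.volume_Ioc]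
      rw [ENNReal.toReal_ofReal (by linarith)]
      ring
    have h3 := hD T hT
    have h4 : |κ| * T ≤ |κ| * T ^ 2 := mul_le_mul_of_nonneg_left (by nlinarith) (abs_nonneg _)
    rw [h2] at h1
    linarith
  have hInt : ∀ t, IntegrableOn (fun u => (v u - κ) * kern R (t - u)) (Ioi 0) := by
    intro t
    refine integrable_kernel hm hloc hD' hkm (M := max (R ^ 2) (16 / R ^ 2)) (fun x => ?_)
      (fun x => ?_) t
    · rw [abs_of_nonneg (hk0 x)]
      exact (hkle x).trans (le_max_left _ _)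
    · rw [abs_of_nonneg (hk0 x)]
      exact (kern_decay hR x).trans (le_max_right _ _)
  refine ⟨hInt, ?_⟩
  -- the damped integrals
  let Ic : ℝ → ℝ → ℝ := fun σ t => ∫ u in Ioi (0 : ℝ), (v u - κ) * Real.exp (-σ * u) * kern R (t - u)
  have hIc : ∀ σ, 0 < σ → ∀ t, IntegrableOn
      (fun u => (v u - κ) * Real.exp (-σ * u) * kern R (t - u)) (Ioi 0) := by
    intro σ hσ t
    refine Integrable.mul_bdd (c := R ^ 2) (tc_exp hσ (hint σ hσ) κ)
      (hkm.comp (measurable_const.sub measurable_id)).aestronglyMeasurable ?_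
    refine Filter.Eventually.of_forall fun u => ?_
    rw [Real.norm_eq_abs, abs_of_nonneg (hk0 _)]
    exact hkle _
  -- (1)
  have h1 : ∀ σ, 0 < σ → Tendsto (Ic σ) atTop (𝓝 0) := by
    intro σ hσ
    have h2 : Tendsto (Ic σ) atTop (𝓝 (∫ _ in Ioi (0 : ℝ), (0 : ℝ))) := by
      refine tendsto_integral_filter_of_dominated_convergence
        (fun u => |(v u - κ) * Real.exp (-σ * u)| * R ^ 2) ?_ ?_ ?_ ?_
      · exact Filter.Eventually.of_forall fun t => (hIc σ hσ t).aestronglyMeasurable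
      · refine Filter.Eventually.of_forall fun t => Filter.Eventually.of_forall fun u => ?_
        rw [norm_mul, Real.norm_eq_abs, Real.norm_eq_abs (kern R _), abs_of_nonneg (hk0 _)]
        exact mul_le_mul_of_nonneg_left (hkle _) (abs_nonneg _)
      · exact (tc_exp hσ (hint σ hσ) κ).abs.mul_const _
      · refine Filter.Eventually.of_forall fun u => ?_
        have h3 := (tc_kern_tendsto hR u).const_mul ((v u - κ) * Real.exp (-σ * u))
        rw [mul_zero] at h3
        exact h3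
    rwa [integral_zero] at h2
  -- (2)
  have h2 : ∀ σ σ', 0 < σ → 0 < σ' → ∀ t, |Ic σ t - Ic σ' t| ≤
      2 * R * ∫ τ in Icc (-(2 * R)) (2 * R),
        ‖(Lap v ((σ : ℂ) + (τ : ℂ) * I) - (κ : ℂ) / ((σ : ℂ) + (τ : ℂ) * I)) -
          (Lap v ((σ' : ℂ) + (τ : ℂ) * I) - (κ : ℂ) / ((σ' : ℂ) + (τ : ℂ) * I))‖ := by
    intro σ σ' hσ hσ' t
    have hf : IntegrableOn (fun u : ℝ => (v u - κ) * Real.exp (-σ * u) -
        (v u - κ) * Real.exp (-σ' * u)) (Ioi 0) :=
      (tc_exp hσ (hint σ hσ) κ).sub (tc_exp hσ' (hint σ' hσ') κ)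
    have h3 := fourier_ineq hf hR t
    have h4 : ∫ u in Ioi (0 : ℝ), ((v u - κ) * Real.exp (-σ * u) -
        (v u - κ) * Real.exp (-σ' * u)) * kern R (t - u) = Ic σ t - Ic σ' t := by
      change _ = (∫ u in Ioi (0 : ℝ), (v u - κ) * Real.exp (-σ * u) * kern R (t - u)) -
        ∫ u in Ioi (0 : ℝ), (v u - κ) * Real.exp (-σ' * u) * kern R (t - u)
      rw [← integral_sub (hIc σ hσ t) (hIc σ' hσ' t)]
      refine integral_congr_ae (Filter.Eventually.of_forall fun u => ?_)
      ring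
    rw [h4] at h3
    refine h3.trans (le_of_eq ?_)
    congr 1
    refine integral_congr_ae (Filter.Eventually.of_forall fun τ => ?_)
    beta_reduce
    congr 1
    have hre : ∀ s : ℝ, ((s : ℂ) + (τ : ℂ) * I).re = s := fun s => by simp
    obtain ⟨h5, h6⟩ := tc_lap (hre σ) hσ (hint σ hσ) hv.meas κ
    obtain ⟨h7, h8⟩ := tc_lap (hre σ') hσ' (hint σ' hσ') hv.meas κ
    rw [← h6, ← h8, ← integral_sub h5 h7]
    refine integral_congr_ae (Filter.Eventually.of_forall fun u => ?_)
    beta_reduce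
    have h9 : ∀ s : ℝ, cexp (-((s : ℂ) + (τ : ℂ) * I) * u) =
        cexp (((-s * u : ℝ) : ℂ)) * cexp (-((τ : ℂ) * I) * u) := by
      intro s
      rw [← Complex.exp_add]
      congr 1
      push_cast
      ring
    rw [h9, h9]
    push_cast
    ring
  -- (3)
  have h3 : ∀ t, Tendsto (fun σ => Ic σ t) (𝓝[>] 0)
      (𝓝 (∫ u in Ioi (0 : ℝ), (v u - κ) * kern R (t - u))) := by
    intro t
    refine tendsto_integral_filter_of_dominated_convergence
      (fun u => |(v u - κ) * kern R (t - u)|) ?_ ?_ (hInt t).abs ?_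
    · filter_upwards [self_mem_nhdsWithin] with σ hσ
      exact (hIc σ hσ t).aestronglyMeasurable
    · filter_upwards [self_mem_nhdsWithin] with σ hσ
      refine (ae_restrict_iff' measurableSet_Ioi).2 (Filter.Eventually.of_forall fun u hu => ?_)
      have h4 : Real.exp (-σ * u) ≤ 1 := by
        rw [Real.exp_le_one_iff]
        have h5 : 0 < σ * u := mul_pos hσ hu
        linarith
      have h5 : (v u - κ) * Real.exp (-σ * u) * kern R (t - u) =
          Real.exp (-σ * u) * ((v u - κ) * kern R (t - u)) := by ring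
      rw [h5, norm_mul, Real.norm_eq_abs, abs_of_pos (Real.exp_pos _), Real.norm_eq_abs]
      exact mul_le_of_le_one_left (abs_nonneg _) h4
    · refine Filter.Eventually.of_forall fun u => ?_
      have h4 : Tendsto (fun σ : ℝ => (v u - κ) * Real.exp (-σ * u) * kern R (t - u)) (𝓝 0)
          (𝓝 ((v u - κ) * Real.exp (-0 * u) * kern R (t - u))) := by
        apply Continuous.tendsto
        fun_prop
      have h5 : (v u - κ) * Real.exp (-0 * u) * kern R (t - u) = (v u - κ) * kern R (t - u) := by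
        rw [neg_zero, zero_mul, Real.exp_zero, mul_one]
      rw [h5] at h4
      exact h4.mono_left nhdsWithin_le_nhds
  -- conclusion
  rw [Metric.tendsto_atTop]
  intro ε hε
  obtain ⟨σ0, hσ0, hc⟩ := hcau (2 * R) (ε / (4 * R)) (by positivity)
  have hσ : 0 < σ0 / 2 := by linarith
  have h4 : ∀ t, |(∫ u in Ioi (0 : ℝ), (v u - κ) * kern R (t - u)) - Ic (σ0 / 2) t| ≤ ε / 2 := by
    intro t
    have h5 : Tendsto (fun σ => |Ic σ t - Ic (σ0 / 2) t|) (𝓝[>] 0)
        (𝓝 |(∫ u in Ioi (0 : ℝ), (v u - κ) * kern R (t - u)) - Ic (σ0 / 2) t|) :=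
      ((h3 t).sub_const _).abs
    refine le_of_tendsto h5 ?_
    filter_upwards [Ioo_mem_nhdsGT hσ0] with σ hσ'
    refine (h2 σ (σ0 / 2) hσ'.1 hσ t).trans ?_
    have h6 := hc σ (σ0 / 2) hσ'.1 hσ'.2 hσ (by linarith)
    have h7 : 2 * R * (ε / (4 * R)) = ε / 2 := by
      field_simp
      ring
    rw [← h7]
    exact mul_le_mul_of_nonneg_left h6 (by positivity)
  obtain ⟨T, hT⟩ := Metric.tendsto_atTop.1 (h1 (σ0 / 2) hσ) (ε / 2) (by linarith)
  refine ⟨T, fun t ht => ?_⟩
  have h5 := hT t ht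
  rw [Real.dist_eq, sub_zero] at h5 ⊢
  have h6 := h4 t
  have h7 := abs_add_le ((∫ u in Ioi (0 : ℝ), (v u - κ) * kern R (t - u)) - Ic (σ0 / 2) t)
    (Ic (σ0 / 2) t)
  rw [sub_add_cancel] at h7
  linarith

end Pool.Agent.Helper58.BSD
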