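import Mathlib
import Pool.Agent.Helper58.BSD.TDefs

/-!
# T6. Gluing the local Cauchy property (weight 10, project BSD)

PROOF. `CauchyL1 q S` and `CauchyL1 q S'` imply `CauchyL1 q (S ∪ S')` for measurable bounded `S, S'` (`σ0 = min`,
`∫_{S ∪ S'} ≤ ∫_S + ∫_{S'}`, `setIntegral_union_le`-type; the integrand is continuous in `τ` for fixed `σ, σ' > 0`, hence integrable on
bounded sets), and `CauchyL1 q S` implies `CauchyL1 q S'` for `S' ⊆ S` (`setIntegral_mono_set`). The compact interval `[-B, B]` is covered by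
finitely many of the open intervals `(τ0 - δ, τ0 + δ)`: use `IsCompact.induction_on` with
`p S := ∃ S' measurable, bounded, S ⊆ S', CauchyL1 q S'`.
-/

namespace Pool.Agent.Helper58.BSD

open Complex Filter Topology MeasureTheory Set Pool.Agent.Helper13.Bsd Pool.Agent.Helper7.GW

private lemma h75_line {q : ℂ → ℂ} (hqc : ContinuousOn q {w : ℂ | 0 < w.re}) {σ : ℝ} (hσ : 0 < σ) :
    Continuous fun τ : ℝ => q ((σ : ℂ) + (τ : ℂ) * I) := by
  refine hqc.comp_continuous (by fun_prop) fun τ => ?_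
  simpa using hσ

private lemma h75_int {q : ℂ → ℂ} (hqc : ContinuousOn q {w : ℂ | 0 < w.re}) {σ σ' : ℝ} (hσ : 0 < σ)
    (hσ' : 0 < σ') {S : Set ℝ} {A : ℝ} (hS : S ⊆ Icc (-A) A) :
    IntegrableOn (fun τ : ℝ => ‖q ((σ : ℂ) + (τ : ℂ) * I) - q ((σ' : ℂ) + (τ : ℂ) * I)‖) S := by
  have h1 : Continuous fun τ : ℝ => ‖q ((σ : ℂ) + (τ : ℂ) * I) - q ((σ' : ℂ) + (τ : ℂ) * I)‖ :=
    ((h75_line hqc hσ).sub (h75_line hqc hσ')).norm
  exact (h1.continuousOn.integrableOn_compact isCompact_Icc).mono_set hS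

private lemma h75_mono {q : ℂ → ℂ} (hqc : ContinuousOn q {w : ℂ | 0 < w.re}) {S T : Set ℝ} {A : ℝ}
    (hT : T ⊆ Icc (-A) A) (hST : S ⊆ T) (h : CauchyL1 q T) : CauchyL1 q S := by
  intro ε hε
  obtain ⟨σ0, h0, h1⟩ := h ε hε
  refine ⟨σ0, h0, fun σ σ' a b c d => le_trans ?_ (h1 σ σ' a b c d)⟩
  refine setIntegral_mono_set (h75_int hqc a c hT) ?_ hST.eventuallyLE
  exact Eventually.of_forall fun _ => norm_nonneg _

private lemma h75_union {q : ℂ → ℂ} (hqc : ContinuousOn q {w : ℂ | 0 < w.re}) {S T : Set ℝ} {A : ℝ}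
    (hS : S ⊆ Icc (-A) A) (hT : T ⊆ Icc (-A) A) (mS : MeasurableSet S) (mT : MeasurableSet T)
    (h : CauchyL1 q S) (h' : CauchyL1 q T) : CauchyL1 q (S ∪ T) := by
  intro ε hε
  obtain ⟨σ1, h0, h1⟩ := h (ε / 2) (by linarith)
  obtain ⟨σ2, h2, h3⟩ := h' (ε / 2) (by linarith)
  refine ⟨min σ1 σ2, lt_min h0 h2, fun σ σ' a b c d => ?_⟩
  have e1 := h1 σ σ' a (b.trans_le (min_le_left _ _)) c (d.trans_le (min_le_left _ _))
  have e2 := h3 σ σ' a (b.trans_le (min_le_right _ _)) c (d.trans_le (min_le_right _ _))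
  have iS := h75_int hqc a c hS
  have iT := h75_int hqc a c hT
  have hd : Disjoint S (T \ S) := disjoint_sdiff_right
  rw [← union_sdiff_self, setIntegral_union hd (mT.diff mS) iS (iT.mono_set sdiff_subset)]
  have e3 : ∫ τ in T \ S, ‖q ((σ : ℂ) + (τ : ℂ) * I) - q ((σ' : ℂ) + (τ : ℂ) * I)‖ ≤
      ∫ τ in T, ‖q ((σ : ℂ) + (τ : ℂ) * I) - q ((σ' : ℂ) + (τ : ℂ) * I)‖ :=
    setIntegral_mono_set iT (Eventually.of_forall fun _ => norm_nonneg _)
      (sdiff_subset.eventuallyLE)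
  linarith

theorem cauchy_glue {q : ℂ → ℂ} (hqc : ContinuousOn q {w : ℂ | 0 < w.re})
    (h : ∀ τ0 : ℝ, ∃ δ : ℝ, 0 < δ ∧ CauchyL1 q (Icc (τ0 - δ) (τ0 + δ))) (B : ℝ) :
    CauchyL1 q (Icc (-B) B) := by
  have key : ∃ S' : Set ℝ, MeasurableSet S' ∧ (∃ A : ℝ, S' ⊆ Icc (-A) A) ∧ Icc (-B) B ⊆ S' ∧
      CauchyL1 q S' := by
    refine isCompact_Icc.induction_on (p := fun S => ∃ S' : Set ℝ, MeasurableSet S' ∧
      (∃ A : ℝ, S' ⊆ Icc (-A) A) ∧ S ⊆ S' ∧ CauchyL1 q S') ?_ ?_ ?_ ?_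
    · refine ⟨∅, MeasurableSet.empty, ⟨0, empty_subset _⟩, subset_rfl, ?_⟩
      intro ε hε
      exact ⟨1, one_pos, fun σ σ' _ _ _ _ => by simpa using hε.le⟩
    · rintro S T hST ⟨S', a, b, c, d⟩
      exact ⟨S', a, b, hST.trans c, d⟩
    · rintro S T ⟨S', a, ⟨A, b⟩, c, d⟩ ⟨T', a', ⟨A', b'⟩, c', d'⟩
      have hA : Icc (-A) A ⊆ Icc (-(max A A')) (max A A') :=
        Icc_subset_Icc (neg_le_neg (le_max_left _ _)) (le_max_left _ _)
      have hA' : Icc (-A') A' ⊆ Icc (-(max A A')) (max A A') :=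
        Icc_subset_Icc (neg_le_neg (le_max_right _ _)) (le_max_right _ _)
      exact ⟨S' ∪ T', a.union a', ⟨max A A', union_subset (b.trans hA) (b'.trans hA')⟩,
        union_subset_union c c', h75_union hqc (b.trans hA) (b'.trans hA') a a' d d'⟩
    · intro τ0 _
      obtain ⟨δ, hδ, hc⟩ := h τ0
      refine ⟨Icc (τ0 - δ) (τ0 + δ), mem_nhdsWithin_of_mem_nhds
        (Icc_mem_nhds (by linarith) (by linarith)), Icc (τ0 - δ) (τ0 + δ), measurableSet_Icc,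
        ⟨|τ0| + δ, Icc_subset_Icc ?_ ?_⟩, subset_rfl, hc⟩
      · have := neg_abs_le τ0
        linarith
      · have := le_abs_self τ0
        linarith
  obtain ⟨S', _, ⟨A, b⟩, c, d⟩ := key
  exact h75_mono hqc b c d

end Pool.Agent.Helper58.BSD
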