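import Mathlib
import Pool.Agent.Helper58.BSD.TDefs
import Pool.Agent.Helper58.BSD.TKern

/-!
# T11. One-sided Tauberian limit theorem (weight 10, project BSD)

PROOF. `c = log 2`. Given `0 < ε`, let `T` be as in `hslow` and `R` from `kern_conc` with `δ = c / 4` and `ε' = ε / (1 + B)` (take `ε' ≤ 1/2`), `m = ∫ kern R > 0`
(`mass_pos`), `F(t) = ∫_{u>0} f u kern R (t - u) du → 0`.
UPPER: `t` large, `x = t - 3c/4`. For `|x - u| < c/4`, `t - u ∈ [c/2, c]`, so `f u ≥ f t - ε`. Hence
`F x ≥ (f t - ε) m' - B (m - m')`, with `m' = ∫_{|y| < c/4} kern R ∈ [(1 - ε') m, m]`, so `f t - ε ≤ (F x + B ε' m) / m'`; `F x ≤ ε m` for `t` large and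
`m' ≥ m / 2`: `f t ≤ ε + 2 ε + 2 ε`.
LOWER: `x = t + 3c/4`. For `|x - u| < c/4`, `u - t ∈ [c/2, c]`, `f u ≤ f t + ε`; `F x ≤ (f t + ε) m' + B (m - m')`, so
`f t ≥ -ε - 2 ε - 2 ε`. (For `x` large the set `|x - u| < c/4` is inside `u > 0`.)
-/

namespace Pool.Agent.Helper58.BSD

open Filter Topology MeasureTheory Set

private theorem tlim_aux_int {f k : ℝ → ℝ} {x δ A γ : ℝ}
    (hk0 : ∀ x, 0 ≤ k x) (hki : Integrable k)
    (hint : IntegrableOn (fun u => f u * k (x - u)) (Ioi 0))
    (hpt : ∀ u, (if 0 < u then f u else 0) ≤ A + (if δ ≤ |x - u| then γ else 0)) :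
    ∫ u in Ioi (0 : ℝ), f u * k (x - u) ≤
      A * (∫ y, k y) + γ * ∫ y in {y : ℝ | δ ≤ |y|}, k y := by
  have hS : MeasurableSet {y : ℝ | δ ≤ |y|} := measurableSet_le measurable_const measurable_norm
  set h : ℝ → ℝ := fun y => A * k y + γ * ({y : ℝ | δ ≤ |y|}.indicator k y) with hh
  have hhi : Integrable h := (hki.const_mul A).add ((hki.indicator hS).const_mul γ)
  have e1 : ∫ y, h y = A * (∫ y, k y) + γ * ∫ y in {y : ℝ | δ ≤ |y|}, k y := by
    rw [hh]
    rw [integral_add, integral_const_mul, integral_const_mul, integral_indicator hS]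
    · exact hki.const_mul A
    · exact (hki.indicator hS).const_mul γ
  have e2 : ∫ u, h (x - u) = ∫ y, h y := integral_sub_left_eq_self h volume x
  rw [← e1, ← e2, ← integral_indicator measurableSet_Ioi]
  apply integral_mono
  · exact hint.integrable_indicator measurableSet_Ioi
  · exact hhi.comp_sub_left x
  · intro u
    have hp := hpt u
    have hku := hk0 (x - u)
    have hmul := mul_le_mul_of_nonneg_right hp hku
    simp only [hh, Set.indicator, mem_Ioi, Set.mem_ofPred_eq]
    split_ifs at hmul ⊢ <;> nlinarith [hmul]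

theorem tauber_lim {f : ℝ → ℝ} {B : ℝ} (hf : Measurable f) (hB : ∀ t, 0 ≤ t → |f t| ≤ B)
    (hslow : ∀ ε : ℝ, 0 < ε → ∃ T : ℝ, 0 ≤ T ∧ ∀ t u, T ≤ t → Real.log 2 / 2 ≤ u → u ≤ Real.log 2 →
      f (t + u) ≤ f t + ε)
    (hker : ∀ R : ℝ, 0 < R → Tendsto (fun t => ∫ u in Ioi (0 : ℝ), f u * kern R (t - u)) atTop (𝓝 0)) :
    Tendsto f atTop (𝓝 0) := by
  have hBn : 0 ≤ B := le_trans (abs_nonneg _) (hB 0 le_rfl)
  have hc : 0 < Real.log 2 := Real.log_pos (by norm_num)
  rw [Metric.tendsto_atTop]
  intro e he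
  set ε : ℝ := e / 6 with hε
  have hεp : 0 < ε := by positivity
  obtain ⟨T, hT0, hT⟩ := hslow ε hεp
  set ε' : ℝ := min (ε / (1 + B)) (1 / 2) with hε'
  have hε'p : 0 < ε' := lt_min (by positivity) (by norm_num)
  have hε'1 : ε' ≤ 1 / 2 := min_le_right _ _
  have hε'2 : ε' * (1 + B) ≤ ε := by
    have h1 : ε' ≤ ε / (1 + B) := min_le_left _ _
    have h2 : 0 < 1 + B := by linarith
    calc ε' * (1 + B) ≤ ε / (1 + B) * (1 + B) := mul_le_mul_of_nonneg_right h1 h2.le
      _ = ε := by field_simp
  obtain ⟨R, hR, hconc⟩ := kern_conc (Real.log 2 / 4) (by positivity) ε' hε'p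
  set m : ℝ := ∫ x, kern R x with hm
  have hmp : 0 < m := mass_pos hR
  set md : ℝ := ∫ x in {x : ℝ | Real.log 2 / 4 ≤ |x|}, kern R x with hmd
  have hki := integrable_kern hR
  have hk0 := kern_nonneg R
  have hFt := (Metric.tendsto_atTop.1 (hker R hR)) (ε * m) (by positivity)
  obtain ⟨X0, hX0⟩ := hFt
  have hint : ∀ x, IntegrableOn (fun u => f u * kern R (x - u)) (Ioi 0) := by
    intro x
    apply (hki.comp_sub_left x).integrableOn.bdd_mul (c := B) hf.aestronglyMeasurable
    filter_upwards [ae_restrict_mem measurableSet_Ioi] with u hu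
    exact hB u (le_of_lt hu)
  have hF : ∀ x, X0 ≤ x → |∫ u in Ioi (0 : ℝ), f u * kern R (x - u)| ≤ ε * m := by
    intro x hx
    have := hX0 x hx
    rw [Real.dist_eq, sub_zero] at this
    exact this.le
  refine ⟨max (X0 + Real.log 2) (T + Real.log 2), ?_⟩
  intro t ht
  have ht1 : X0 + Real.log 2 ≤ t := le_trans (le_max_left _ _) ht
  have ht2 : T + Real.log 2 ≤ t := le_trans (le_max_right _ _) ht
  have ht0 : 0 ≤ t := by linarith
  have hft := abs_le.1 (hB t ht0)
  rw [Real.dist_eq, sub_zero]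
  have hsmall : (2 * B + ε) * md ≤ (3 * ε) * m := by
    have h1 : (2 * B + ε) * md ≤ (2 * B + ε) * (ε' * m) :=
      mul_le_mul_of_nonneg_left hconc (by positivity)
    have h2 : (2 * B + ε) * ε' ≤ 3 * ε := by nlinarith
    calc (2 * B + ε) * md ≤ (2 * B + ε) * (ε' * m) := h1
      _ = ((2 * B + ε) * ε') * m := by ring
      _ ≤ (3 * ε) * m := mul_le_mul_of_nonneg_right h2 hmp.le
  have hup : f t ≤ 5 * ε := by
    have hneg : IntegrableOn (fun u => (-f u) * kern R (t - 3 * Real.log 2 / 4 - u)) (Ioi 0) := by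
      have := (hint (t - 3 * Real.log 2 / 4)).neg
      refine this.congr (Filter.Eventually.of_forall fun u => ?_)
      simp
    have key := tlim_aux_int (f := fun u => -f u) (k := kern R) (x := t - 3 * Real.log 2 / 4)
      (δ := Real.log 2 / 4) (A := -(f t - ε)) (γ := 2 * B + ε) hk0 hki hneg (by
        intro u
        by_cases hd : Real.log 2 / 4 ≤ |t - 3 * Real.log 2 / 4 - u|
        · rw [if_pos hd]
          split_ifs with hu
          · have := abs_le.1 (hB u hu.le)
            linarith [this.1, hft.2]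
          · linarith [hft.2]
        · rw [if_neg hd]
          push Not at hd
          have h1 := abs_lt.1 hd
          have hu : 0 < u := by linarith [h1.2]
          rw [if_pos hu]
          have h2 := hT u (t - u) (by linarith [h1.2]) (by linarith [h1.1]) (by linarith [h1.2])
          rw [show u + (t - u) = t by ring] at h2
          linarith)
    have hkey2 : ∫ u in Ioi (0 : ℝ), (-f u) * kern R (t - 3 * Real.log 2 / 4 - u) =
        -∫ u in Ioi (0 : ℝ), f u * kern R (t - 3 * Real.log 2 / 4 - u) := by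
      rw [← integral_neg]
      congr 1
      ext u
      ring
    rw [hkey2, ← hm, ← hmd] at key
    have h3 := (abs_le.1 (hF (t - 3 * Real.log 2 / 4) (by linarith))).2
    have h4 : (f t - ε) * m ≤ (4 * ε) * m := by linarith
    have h5 := le_of_mul_le_mul_right h4 hmp
    linarith
  have hlo : -(5 * ε) ≤ f t := by
    have key := tlim_aux_int (f := f) (k := kern R) (x := t + 3 * Real.log 2 / 4)
      (δ := Real.log 2 / 4) (A := f t + ε) (γ := 2 * B + ε) hk0 hki (hint _) (by
        intro u
        by_cases hd : Real.log 2 / 4 ≤ |t + 3 * Real.log 2 / 4 - u|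
        · rw [if_pos hd]
          split_ifs with hu
          · have := abs_le.1 (hB u hu.le)
            linarith [this.2, hft.1]
          · linarith [hft.1]
        · rw [if_neg hd]
          push Not at hd
          have h1 := abs_lt.1 hd
          have hu : 0 < u := by linarith [h1.2]
          rw [if_pos hu]
          have h2 := hT t (u - t) (by linarith) (by linarith [h1.2]) (by linarith [h1.1])
          rw [show t + (u - t) = u by ring] at h2
          linarith)
    rw [← hm, ← hmd] at key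
    have h3 := (abs_le.1 (hF (t + 3 * Real.log 2 / 4) (by linarith))).1
    have h4 : (-(4 * ε)) * m ≤ (f t + ε) * m := by linarith
    have h5 := le_of_mul_le_mul_right h4 hmp
    linarith
  rw [abs_lt]
  constructor <;> linarith

end Pool.Agent.Helper58.BSD
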