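import Mathlib
import Pool.Agent.Helper58.BSD.TDefs

/-!
# T4. A logarithmic boundary singularity is harmless in `L¹` (weight 10, project BSD)

PROOF. `box τ0 δ` is compact, so `‖α‖, ‖β‖ ≤ M` on it. For `0 < σ ≤ min δ 1` and `0 < |τ - τ0| ≤ δ`, with `w = σ + i τ`:
`‖log (w - i τ0)‖ ≤ |log ‖w - i τ0‖| + π` and `|τ - τ0| ≤ ‖w - i τ0‖ ≤ 1 + δ`, so it is at most
`|log |τ - τ0|| + log (1 + δ) + π`. So `‖q (σ + i τ)‖` is dominated by `M (|log |τ - τ0|| + log (1 + δ) + π) + M`, which is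
integrable on `[τ0 - δ, τ0 + δ]` (`intervalIntegral.intervalIntegrable_log'`). For fixed `τ ≠ τ0`, `q (σ + i τ)` converges, as `σ → 0+`, to
`H τ = α (i τ) log (i (τ - τ0)) + β (i τ)` (`log` is continuous at `i (τ - τ0)`, which is in the slit plane). By dominated convergence
`∫ ‖q (σ + i τ) - H τ‖ → 0` (`σ → 0+`, filter `𝓝[>] 0`, dominated by twice the bound), hence the Cauchy property (triangle
inequality; measurability: `τ ↦ q (σ + iτ)` is continuous on the interval for fixed `σ > 0`, being equal to a continuous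
function there).
-/

namespace Pool.Agent.Helper58.BSD

open Complex Filter Topology MeasureTheory Set Pool.Agent.Helper13.Bsd Pool.Agent.Helper7.GW

theorem tlog_box_compact (τ0 δ : ℝ) : IsCompact (box τ0 δ) := by
  have h : box τ0 δ = Icc (0 : ℝ) δ ×ℂ Icc (τ0 - δ) (τ0 + δ) := by
    ext w
    simp only [box, Set.mem_ofPred_eq, mem_reProdIm, mem_Icc, abs_le]
    constructor
    · rintro ⟨h1, h2, h3, h4⟩
      exact ⟨⟨h1, h2⟩, by linarith, by linarith⟩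
    · rintro ⟨⟨h1, h2⟩, h3, h4⟩
      exact ⟨h1, h2, by linarith, by linarith⟩
  rw [h]
  exact isCompact_Icc.reProdIm isCompact_Icc

theorem tlog_mem_box {τ0 δ σ τ : ℝ} (h0 : 0 ≤ σ) (h1 : σ ≤ δ) (h2 : τ ∈ Icc (τ0 - δ) (τ0 + δ)) :
    (σ : ℂ) + (τ : ℂ) * I ∈ box τ0 δ := by
  have hre : ((σ : ℂ) + (τ : ℂ) * I).re = σ := by simp
  have him : ((σ : ℂ) + (τ : ℂ) * I).im = τ := by simp
  refine ⟨?_, ?_, ?_⟩
  · rw [hre]; exact h0
  · rw [hre]; exact h1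
  · rw [him, abs_le]
    exact ⟨by linarith [h2.1], by linarith [h2.2]⟩

theorem tlog_norm_log (z : ℂ) : ‖Complex.log z‖ ≤ |Real.log ‖z‖| + Real.pi := by
  have h : Complex.log z = (Real.log ‖z‖ : ℂ) + (arg z : ℂ) * I := rfl
  rw [h]
  refine (norm_add_le _ _).trans ?_
  rw [norm_mul, Complex.norm_I, mul_one, Complex.norm_real, Complex.norm_real, Real.norm_eq_abs,
    Real.norm_eq_abs]
  have := abs_arg_le_pi z
  linarith

theorem tlog_bound {τ0 δ σ τ : ℝ} (h0 : 0 ≤ σ) (h1 : σ ≤ 1)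
    (h2 : τ ∈ Icc (τ0 - δ) (τ0 + δ)) (hne : τ ≠ τ0) :
    ‖Complex.log ((σ : ℂ) + (τ : ℂ) * I - (τ0 : ℂ) * I)‖ ≤
      |Real.log (τ - τ0)| + Real.log (1 + δ) + Real.pi := by
  have hδ : |τ - τ0| ≤ δ := by
    rw [abs_le]; exact ⟨by linarith [h2.1], by linarith [h2.2]⟩
  have hpos : 0 < |τ - τ0| := abs_pos.2 (sub_ne_zero.2 hne)
  set z : ℂ := (σ : ℂ) + (τ : ℂ) * I - (τ0 : ℂ) * I with hz
  have hre : z.re = σ := by simp [hz]
  have him : z.im = τ - τ0 := by simp [hz]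
  have hlow : |τ - τ0| ≤ ‖z‖ := by
    rw [← him]; exact Complex.abs_im_le_norm z
  have hup : ‖z‖ ≤ 1 + δ := by
    refine (Complex.norm_le_abs_re_add_abs_im z).trans ?_
    rw [hre, him, abs_of_nonneg h0]
    exact add_le_add h1 hδ
  have hz0 : 0 < ‖z‖ := lt_of_lt_of_le hpos hlow
  have hl1 : Real.log |τ - τ0| ≤ Real.log ‖z‖ := Real.log_le_log hpos hlow
  have hl2 : Real.log ‖z‖ ≤ Real.log (1 + δ) := Real.log_le_log hz0 hup
  have hl3 : 0 ≤ Real.log (1 + δ) := Real.log_nonneg (by linarith)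
  have h4 : |Real.log ‖z‖| ≤ |Real.log (τ - τ0)| + Real.log (1 + δ) := by
    rw [Real.log_abs] at hl1
    rw [abs_le]
    constructor
    · have := neg_abs_le (Real.log (τ - τ0))
      linarith
    · have := abs_nonneg (Real.log (τ - τ0))
      linarith
  have h5 := tlog_norm_log z
  linarith

theorem tlog_integrable {τ0 δ : ℝ} (hδ : 0 < δ) :
    IntegrableOn (fun τ : ℝ => |Real.log (τ - τ0)|) (Icc (τ0 - δ) (τ0 + δ)) := by
  have h1 : IntervalIntegrable Real.log volume (-δ) δ := intervalIntegral.intervalIntegrable_log'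
  have h2 : IntervalIntegrable (fun τ : ℝ => Real.log (τ - τ0)) volume (-δ + τ0) (δ + τ0) :=
    h1.comp_sub_right τ0
  have h3 : -δ + τ0 = τ0 - δ := by ring
  have h4 : δ + τ0 = τ0 + δ := by ring
  rw [h3, h4] at h2
  have h5 := (intervalIntegrable_iff_integrableOn_Icc_of_le (by linarith)).1 h2
  exact h5.abs

theorem cauchyL1_log {q α β : ℂ → ℂ} {τ0 δ : ℝ} (hδ : 0 < δ) (hα : ContinuousOn α (box τ0 δ))
    (hβ : ContinuousOn β (box τ0 δ))
    (hq : ∀ w ∈ box τ0 δ, 0 < w.re → q w = α w * Complex.log (w - (τ0 : ℂ) * I) + β w) :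
    CauchyL1 q (Icc (τ0 - δ) (τ0 + δ)) := by
  classical
  set S : Set ℝ := Icc (τ0 - δ) (τ0 + δ) with hS
  obtain ⟨M1, hM1⟩ := (tlog_box_compact τ0 δ).exists_bound_of_continuousOn hα
  obtain ⟨M2, hM2⟩ := (tlog_box_compact τ0 δ).exists_bound_of_continuousOn hβ
  -- the functions
  let F : ℝ → ℝ → ℂ := fun σ τ => α ((σ : ℂ) + (τ : ℂ) * I) *
    Complex.log ((σ : ℂ) + (τ : ℂ) * I - (τ0 : ℂ) * I) + β ((σ : ℂ) + (τ : ℂ) * I)
  let M : ℝ := |M1| + |M2|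
  let bd : ℝ → ℝ := fun τ => M * (|Real.log (τ - τ0)| + Real.log (1 + δ) + Real.pi) + M
  have hMn : 0 ≤ M := by positivity
  have hl3 : 0 ≤ Real.log (1 + δ) := Real.log_nonneg (by linarith)
  -- continuity of the inclusion
  have hcont : ∀ σ : ℝ, Continuous fun τ : ℝ => (σ : ℂ) + (τ : ℂ) * I := fun σ => by fun_prop
  have hmeas : ∀ σ : ℝ, 0 ≤ σ → σ ≤ δ → AEStronglyMeasurable (F σ) (volume.restrict S) := by
    intro σ h0 h1
    have ha : ContinuousOn (fun τ : ℝ => α ((σ : ℂ) + (τ : ℂ) * I)) S :=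
      hα.comp (hcont σ).continuousOn fun τ hτ => tlog_mem_box h0 h1 hτ
    have hb : ContinuousOn (fun τ : ℝ => β ((σ : ℂ) + (τ : ℂ) * I)) S :=
      hβ.comp (hcont σ).continuousOn fun τ hτ => tlog_mem_box h0 h1 hτ
    have hl : Measurable fun τ : ℝ => Complex.log ((σ : ℂ) + (τ : ℂ) * I - (τ0 : ℂ) * I) :=
      Complex.measurable_log.comp ((hcont σ).sub continuous_const).measurable
    exact ((ha.aestronglyMeasurable measurableSet_Icc).mul hl.aestronglyMeasurable).add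
      (hb.aestronglyMeasurable measurableSet_Icc)
  have hbd : ∀ σ : ℝ, 0 ≤ σ → σ ≤ δ → σ ≤ 1 → ∀ τ ∈ S, τ ≠ τ0 → ‖F σ τ‖ ≤ bd τ := by
    intro σ h0 h1 h2 τ hτ hne
    have hb := tlog_mem_box h0 h1 hτ
    have ha1 : ‖α ((σ : ℂ) + (τ : ℂ) * I)‖ ≤ M :=
      (hM1 _ hb).trans ((le_abs_self _).trans (le_add_of_nonneg_right (abs_nonneg _)))
    have ha2 : ‖β ((σ : ℂ) + (τ : ℂ) * I)‖ ≤ M :=
      (hM2 _ hb).trans ((le_abs_self _).trans (le_add_of_nonneg_left (abs_nonneg _)))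
    refine (norm_add_le _ _).trans ?_
    rw [norm_mul]
    exact add_le_add (mul_le_mul ha1 (tlog_bound h0 h2 hτ hne) (norm_nonneg _) hMn) ha2
  have hbi : Integrable bd (volume.restrict S) := by
    have h1 := tlog_integrable (τ0 := τ0) hδ
    have h2 : IntegrableOn (fun _ : ℝ => Real.log (1 + δ) + Real.pi) S :=
      (continuous_const.integrableOn_Icc)
    have h3 : IntegrableOn (fun _ : ℝ => M) S := (continuous_const.integrableOn_Icc)
    have h4 := ((h1.add h2).const_mul M).add h3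
    refine h4.congr (Filter.Eventually.of_forall fun τ => ?_)
    simp only [Pi.add_apply, bd]
    ring
  have hne : ∀ᵐ τ ∂(volume.restrict S), τ ≠ τ0 := by
    refine ae_restrict_of_ae ?_
    have := (measure_singleton (μ := (volume : Measure ℝ)) τ0)
    exact compl_mem_ae_iff.2 this
  have hmem : ∀ᵐ τ ∂(volume.restrict S), τ ∈ S := ae_restrict_mem measurableSet_Icc
  have hint : ∀ σ : ℝ, 0 ≤ σ → σ ≤ δ → σ ≤ 1 → Integrable (F σ) (volume.restrict S) := by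
    intro σ h0 h1 h2
    refine hbi.mono' (hmeas σ h0 h1) ?_
    filter_upwards [hne, hmem] with τ h3 h4
    exact hbd σ h0 h1 h2 τ h4 h3
  -- dominated convergence
  have hlim : Tendsto (fun σ : ℝ => ∫ τ in S, ‖F σ τ - F 0 τ‖) (𝓝[>] 0) (𝓝 0) := by
    have h00 : (∫ τ in S, (0 : ℝ)) = 0 := by simp
    have hev : ∀ᶠ σ : ℝ in 𝓝[>] 0, 0 < σ ∧ σ ≤ δ ∧ σ ≤ 1 := by
      have h1 : ∀ᶠ σ : ℝ in 𝓝 0, σ < min δ 1 :=
        eventually_lt_nhds (lt_min hδ one_pos)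
      filter_upwards [self_mem_nhdsWithin, h1.filter_mono nhdsWithin_le_nhds] with σ h2 h3
      exact ⟨h2, (lt_min_iff.1 h3).1.le, (lt_min_iff.1 h3).2.le⟩
    have key : Tendsto (fun σ : ℝ => ∫ τ in S, ‖F σ τ - F 0 τ‖) (𝓝[>] 0)
        (𝓝 (∫ τ in S, (0 : ℝ))) := by
     refine tendsto_integral_filter_of_dominated_convergence (fun τ => 2 * bd τ) ?_ ?_ ?_ ?_
     · filter_upwards [hev] with σ hσ
       exact ((hmeas σ hσ.1.le hσ.2.1).sub (hmeas 0 le_rfl hδ.le)).norm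
     · filter_upwards [hev] with σ hσ
       filter_upwards [hne, hmem] with τ h3 h4
       have h5 := hbd σ hσ.1.le hσ.2.1 hσ.2.2 τ h4 h3
       have h6 := hbd 0 le_rfl hδ.le zero_le_one τ h4 h3
       rw [norm_norm]
       refine (norm_sub_le _ _).trans ?_
       linarith
     · exact hbi.const_mul 2
     · filter_upwards [hne, hmem] with τ h3 h4
       have hb0 : (((0 : ℝ) : ℂ) + (τ : ℂ) * I) ∈ box τ0 δ := tlog_mem_box le_rfl hδ.le h4
       have hpt : Tendsto (fun σ : ℝ => (σ : ℂ) + (τ : ℂ) * I) (𝓝[>] 0)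
           (𝓝[box τ0 δ] (((0 : ℝ) : ℂ) + (τ : ℂ) * I)) := by
         refine tendsto_nhdsWithin_iff.2 ⟨?_, ?_⟩
         · have hc : Continuous fun σ : ℝ => (σ : ℂ) + (τ : ℂ) * I := by fun_prop
           exact (hc.tendsto 0).mono_left nhdsWithin_le_nhds
         · filter_upwards [hev] with σ hσ
           exact tlog_mem_box hσ.1.le hσ.2.1 h4
       have h7 : Tendsto (fun σ : ℝ => α ((σ : ℂ) + (τ : ℂ) * I)) (𝓝[>] 0)
           (𝓝 (α (((0 : ℝ) : ℂ) + (τ : ℂ) * I))) := (hα _ hb0).tendsto.comp hpt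
       have h8 : Tendsto (fun σ : ℝ => β ((σ : ℂ) + (τ : ℂ) * I)) (𝓝[>] 0)
           (𝓝 (β (((0 : ℝ) : ℂ) + (τ : ℂ) * I))) := (hβ _ hb0).tendsto.comp hpt
       have hslit : (((0 : ℝ) : ℂ) + (τ : ℂ) * I - (τ0 : ℂ) * I) ∈ slitPlane := by
         rw [mem_slitPlane_iff]
         right
         simpa using sub_ne_zero.2 h3
       have h9 : Tendsto (fun σ : ℝ => Complex.log ((σ : ℂ) + (τ : ℂ) * I - (τ0 : ℂ) * I)) (𝓝[>] 0)
           (𝓝 (Complex.log (((0 : ℝ) : ℂ) + (τ : ℂ) * I - (τ0 : ℂ) * I))) := by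
         have hc : ContinuousAt (fun σ : ℝ => Complex.log ((σ : ℂ) + (τ : ℂ) * I - (τ0 : ℂ) * I)) 0 := by
           refine ContinuousAt.clog ?_ hslit
           fun_prop
         exact hc.tendsto.mono_left nhdsWithin_le_nhds
       have h10 : Tendsto (fun σ : ℝ => F σ τ) (𝓝[>] 0) (𝓝 (F 0 τ)) := (h7.mul h9).add h8
       have h11 := (h10.sub_const (F 0 τ)).norm
       simpa using h11
    rwa [h00] at key
  intro ε hε
  have h1 : ∀ᶠ σ : ℝ in 𝓝[>] 0, (∫ τ in S, ‖F σ τ - F 0 τ‖) < ε / 2 :=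
    hlim.eventually (eventually_lt_nhds (by linarith))
  obtain ⟨σ1, hσ1, h2⟩ := mem_nhdsGT_iff_exists_Ioo_subset.1 h1
  have hσ1' : 0 < σ1 := hσ1
  refine ⟨min σ1 (min δ 1), lt_min hσ1' (lt_min hδ one_pos), ?_⟩
  intro σ σ' h3 h4 h5 h6
  have a1 := (lt_min_iff.1 h4).1
  have a2 := (lt_min_iff.1 (lt_min_iff.1 h4).2).1
  have a3 := (lt_min_iff.1 (lt_min_iff.1 h4).2).2
  have b1 := (lt_min_iff.1 h6).1
  have b2 := (lt_min_iff.1 (lt_min_iff.1 h6).2).1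
  have b3 := (lt_min_iff.1 (lt_min_iff.1 h6).2).2
  have c1 : (∫ τ in S, ‖F σ τ - F 0 τ‖) < ε / 2 := h2 ⟨h3, a1⟩
  have c2 : (∫ τ in S, ‖F σ' τ - F 0 τ‖) < ε / 2 := h2 ⟨h5, b1⟩
  have i0 := hint 0 le_rfl hδ.le zero_le_one
  have i1 := ((hint σ h3.le a2.le a3.le).sub i0).norm
  have i2 := ((hint σ' h5.le b2.le b3.le).sub i0).norm
  have hEq : ∀ σ : ℝ, 0 < σ → σ < δ → ∀ τ ∈ S, q ((σ : ℂ) + (τ : ℂ) * I) = F σ τ := by
    intro σ g1 g2 τ g3
    refine hq _ (tlog_mem_box g1.le g2.le g3) ?_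
    simpa using g1
  have c3 : ∫ τ in S, ‖q ((σ : ℂ) + (τ : ℂ) * I) - q ((σ' : ℂ) + (τ : ℂ) * I)‖ ≤
      ∫ τ in S, (‖F σ τ - F 0 τ‖ + ‖F σ' τ - F 0 τ‖) := by
    have e1 : ∫ τ in S, ‖q ((σ : ℂ) + (τ : ℂ) * I) - q ((σ' : ℂ) + (τ : ℂ) * I)‖ =
        ∫ τ in S, ‖F σ τ - F σ' τ‖ := by
      refine setIntegral_congr_fun measurableSet_Icc fun τ hτ => ?_
      show ‖q ((σ : ℂ) + (τ : ℂ) * I) - q ((σ' : ℂ) + (τ : ℂ) * I)‖ = ‖F σ τ - F σ' τ‖
      rw [hEq σ h3 a2 τ hτ, hEq σ' h5 b2 τ hτ]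
    rw [e1]
    refine integral_mono ?_ (i1.add i2) fun τ => ?_
    · exact ((hint σ h3.le a2.le a3.le).sub (hint σ' h5.le b2.le b3.le)).norm
    · have : F σ τ - F σ' τ = (F σ τ - F 0 τ) - (F σ' τ - F 0 τ) := by ring
      show ‖F σ τ - F σ' τ‖ ≤ ‖F σ τ - F 0 τ‖ + ‖F σ' τ - F 0 τ‖
      rw [this]
      exact norm_sub_le _ _
  have c4 : ∫ τ in S, (‖F σ τ - F 0 τ‖ + ‖F σ' τ - F 0 τ‖) =
      (∫ τ in S, ‖F σ τ - F 0 τ‖) + ∫ τ in S, ‖F σ' τ - F 0 τ‖ := integral_add i1 i2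
  linarith

end Pool.Agent.Helper58.BSD
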