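import Mathlib
import Pool.Agent.Helper58.BSD.TDefs
import Pool.Agent.Helper58.BSD.TLog

/-!
# T5b. The Laplace transform near a boundary point i τ0, τ0 ≠ 0 (case τ0 ≠ 0) (weight 10, project BSD)

PROOF. `q w = Lap v w - κ / w`, `κ = kap G = -log ‖G 0‖`. `G` is not identically zero near any point of `Re w > -η` (identity theorem: it is
nonzero at real points `x > 0`).
Case `τ0 ≠ 0`. Let `m` be the (finite) order of `G` at `i τ0`, `G w = (w - i τ0)^m g w` near `i τ0`, `g` analytic, `g (i τ0) ≠ 0`. Take a closed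
ball of radius `2 δ < |τ0|` on which this holds and `g w / g (i τ0)` lies in the slit plane; put
`ℓ w = log (g w / g (i τ0)) + log (g (i τ0))`, analytic, `exp ℓ = g`. On the half ball `Re w > 0`:
`exp (-(w Lap v w)) = exp (m log (w - i τ0) + ℓ w)` (`Re (w - i τ0) > 0`), so the continuous function
`(w Lap v w + m log (w - i τ0) + ℓ w) / (2 π i)` is integer valued on a convex set, hence a constant `n`
(`IsPreconnected.constant` or: the function is continuous with values in the discrete set). So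
`q w = -(m / w) log (w - i τ0) - (ℓ w - 2 π i n + κ) / w` on the half box, both coefficients continuous on `box τ0 δ` (`0 ∉ box`). Apply
`cauchyL1_log`.
Case `τ0 = 0`. For real `x > 0`, `G x = exp (-(x Lap v x)) > 0` (`Lap v x` real), so `G 0 = ‖G 0‖ = exp (-κ)` (limit of positive
reals, nonzero). On a ball around `0`, `ℓ w = log (G w / G 0)` is analytic, `ℓ 0 = 0`; on the half ball
`exp (-(w Lap v w)) = exp (-κ + ℓ w)`, so `w Lap v w - κ + ℓ w ∈ 2 π i ℤ` is constant, and `0` because it is real at real points.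
So `q w = -ℓ w / w = -dslope ℓ 0 w`, continuous on the whole ball. Apply `cauchyL1_log` with `α = 0`.
-/

namespace Pool.Agent.Helper58.BSD

open Complex Filter Topology MeasureTheory Set Pool.Agent.Helper13.Bsd Pool.Agent.Helper7.GW

/-- A continuous integer valued function on a preconnected set is constant. -/
private theorem t5_const {S : Set ℂ} (hS : IsPreconnected S) {F : ℂ → ℂ} (hF : ContinuousOn F S)
    (hint : ∀ w ∈ S, ∃ n : ℤ, F w = (n : ℂ)) : ∃ n : ℤ, ∀ w ∈ S, F w = (n : ℂ) := by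
  rcases S.eq_empty_or_nonempty with he | ⟨a, ha⟩
  · exact ⟨0, fun w hw => by simp [he] at hw⟩
  have key : ∀ x ∈ S, ∀ y ∈ S, ∀ n k : ℤ, F x = (n : ℂ) → F y = (k : ℂ) → ¬ n < k := by
    intro x hx y hy n k hn hk hlt
    have hre : ContinuousOn (fun w => (F w).re) S := Complex.continuous_re.comp_continuousOn hF
    have h1 := hS.intermediate_value hx hy hre
    have h2 : ((n : ℝ) + 1 / 2) ∈ Icc ((F x).re) ((F y).re) := by
      rw [hn, hk]
      simp only [Complex.intCast_re, mem_Icc]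
      have h3 : (n : ℝ) + 1 ≤ k := by exact_mod_cast hlt
      constructor
      · linarith
      · linarith
    obtain ⟨c, hc, hc2⟩ := h1 h2
    obtain ⟨j, hj⟩ := hint c hc
    simp only [hj, Complex.intCast_re] at hc2
    have h4 : (2 * j : ℝ) = 2 * n + 1 := by linarith
    have h5 : (2 * j : ℤ) = 2 * n + 1 := by exact_mod_cast h4
    omega
  obtain ⟨n, hn⟩ := hint a ha
  refine ⟨n, fun w hw => ?_⟩
  obtain ⟨k, hk⟩ := hint w hw
  have h1 := key a ha w hw n k hn hk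
  have h2 := key w hw a ha k n hk hn
  have h3 : n = k := by omega
  rw [hk, h3]

/-- The local form at a boundary point: zero order `m`, nonvanishing continuous factor `g`. -/
private theorem t5_factor {G L : ℂ → ℂ} {z0 : ℂ} (hz0 : z0.re = 0) (hG : AnalyticAt ℂ G z0)
    (hid : ∀ w : ℂ, 0 < w.re → G w = cexp (-(w * L w))) :
    ∃ (m : ℕ) (g : ℂ → ℂ) (r : ℝ), 0 < r ∧ g z0 ≠ 0 ∧
      ∀ w, ‖w - z0‖ < r → ContinuousAt g w ∧ g w / g z0 ∈ slitPlane ∧ G w = (w - z0) ^ m * g w := by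
  have hne : ¬ ∀ᶠ z in 𝓝 z0, G z = 0 := by
    intro h
    obtain ⟨r, hr, hr2⟩ := Metric.eventually_nhds_iff.1 h
    have h1 := hr2 (y := z0 + ((r / 2 : ℝ) : ℂ)) (by
      rw [dist_eq_norm, add_sub_cancel_left, norm_real, Real.norm_eq_abs, abs_of_pos (by linarith)]
      linarith)
    rw [hid _ (by
      rw [add_re, hz0, ofReal_re]
      linarith)] at h1
    exact Complex.exp_ne_zero _ h1
  obtain ⟨m, g, hg, hg0, hev⟩ := (hG.exists_eventuallyEq_pow_smul_nonzero_iff).2 hne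
  have hg1 : ∀ᶠ z in 𝓝 z0, g z / g z0 ∈ slitPlane := by
    have hc : ContinuousAt (fun z => g z / g z0) z0 := hg.continuousAt.div_const _
    refine hc.eventually_mem (Complex.isOpen_slitPlane.mem_nhds ?_)
    rw [div_self hg0]
    exact Complex.one_mem_slitPlane
  obtain ⟨r, hr, hr2⟩ := Metric.eventually_nhds_iff.1 ((hg.eventually_analyticAt.and hg1).and hev)
  refine ⟨m, g, r, hr, hg0, fun w hw => ?_⟩
  obtain ⟨⟨h1, h2⟩, h3⟩ := hr2 (y := w) (by rwa [dist_eq_norm])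
  exact ⟨h1.continuousAt, h2, by rw [h3, smul_eq_mul]⟩

private theorem t5_near {w : ℂ} {τ0 δ : ℝ} (hw : w ∈ box τ0 δ) : ‖w - (τ0 : ℂ) * I‖ ≤ 2 * δ := by
  obtain ⟨h1, h2, h3⟩ := hw
  refine (Complex.norm_le_abs_re_add_abs_im _).trans ?_
  have e1 : (w - (τ0 : ℂ) * I).re = w.re := by simp
  have e2 : (w - (τ0 : ℂ) * I).im = w.im - τ0 := by simp
  rw [e1, e2, abs_of_nonneg h1]
  linarith

private theorem t5_convex (τ0 δ : ℝ) : Convex ℝ (box τ0 δ ∩ {w : ℂ | 0 < w.re}) := by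
  have h1 : box τ0 δ ∩ {w : ℂ | 0 < w.re} =
      (({w : ℂ | 0 < w.re} ∩ {w : ℂ | w.re ≤ δ}) ∩
        ({w : ℂ | τ0 - δ ≤ w.im} ∩ {w : ℂ | w.im ≤ τ0 + δ})) := by
    ext w
    simp only [box, mem_inter_iff, mem_ofPred_eq, abs_le]
    constructor
    · rintro ⟨⟨a, b, c, d⟩, e⟩
      exact ⟨⟨e, b⟩, by linarith, by linarith⟩
    · rintro ⟨⟨e, b⟩, c, d⟩
      exact ⟨⟨e.le, b, by linarith, by linarith⟩, e⟩
  rw [h1]
  exact ((convex_halfSpace_re_gt 0).inter (convex_halfSpace_re_le δ)).inter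
    ((convex_halfSpace_im_ge _).inter (convex_halfSpace_im_le _))

/-- The Laplace transform on the half box, in terms of the logarithm. -/
private theorem t5_main {G L : ℂ → ℂ} {τ0 : ℝ} (hτ : τ0 ≠ 0) (hG : AnalyticAt ℂ G ((τ0 : ℂ) * I))
    (hL : ContinuousOn L {w : ℂ | 0 < w.re})
    (hid : ∀ w : ℂ, 0 < w.re → G w = cexp (-(w * L w))) (κ : ℂ) :
    ∃ (δ : ℝ) (α β : ℂ → ℂ), 0 < δ ∧ ContinuousOn α (box τ0 δ) ∧ ContinuousOn β (box τ0 δ) ∧
      ∀ w ∈ box τ0 δ, 0 < w.re → L w - κ / w = α w * Complex.log (w - (τ0 : ℂ) * I) + β w := by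
  obtain ⟨m, g, r, hr, hg0, hfac⟩ := t5_factor (z0 := (τ0 : ℂ) * I) (by simp) hG hid
  obtain ⟨δ, hδ⟩ : ∃ δ : ℝ, δ = min r |τ0| / 4 := ⟨_, rfl⟩
  have hmin : 0 < min r |τ0| := lt_min hr (abs_pos.2 hτ)
  have hδ0 : 0 < δ := by rw [hδ]; linarith
  have hδr : 2 * δ < r := by
    have := min_le_left r |τ0|
    rw [hδ]; linarith
  have hδτ : δ < |τ0| := by
    have := min_le_right r |τ0|
    rw [hδ]; linarith
  have hball : ∀ w ∈ box τ0 δ, ‖w - (τ0 : ℂ) * I‖ < r := fun w hw => (t5_near hw).trans_lt hδr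
  have hw0 : ∀ w ∈ box τ0 δ, w ≠ 0 := by
    rintro w ⟨-, -, h3⟩ rfl
    rw [zero_im, zero_sub, abs_neg] at h3
    linarith
  obtain ⟨ℓ, hℓ⟩ : ∃ ℓ : ℂ → ℂ, ∀ w, ℓ w = Complex.log (g w / g ((τ0 : ℂ) * I)) +
      Complex.log (g ((τ0 : ℂ) * I)) := ⟨_, fun w => rfl⟩
  have hℓc : ContinuousOn ℓ (box τ0 δ) := by
    intro w hw
    obtain ⟨h1, h2, -⟩ := hfac w (hball w hw)
    have h3 : ContinuousAt (fun w => Complex.log (g w / g ((τ0 : ℂ) * I)) +
        Complex.log (g ((τ0 : ℂ) * I))) w :=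
      ((h1.div_const _).clog h2).add continuousAt_const
    exact (h3.congr (Eventually.of_forall fun z => (hℓ z).symm)).continuousWithinAt
  have hℓe : ∀ w ∈ box τ0 δ, cexp (ℓ w) = g w := by
    intro w hw
    obtain ⟨h1, h2, -⟩ := hfac w (hball w hw)
    rw [hℓ, Complex.exp_add, Complex.exp_log (Complex.slitPlane_ne_zero h2), Complex.exp_log hg0,
      div_mul_cancel₀ _ hg0]
  obtain ⟨F, hF⟩ : ∃ F : ℂ → ℂ, ∀ w, F w =
      (w * L w + m * Complex.log (w - (τ0 : ℂ) * I) + ℓ w) / (2 * (Real.pi : ℂ) * I) := ⟨_, fun w => rfl⟩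
  have hpi : (2 * (Real.pi : ℂ) * I) ≠ 0 := Complex.two_pi_I_ne_zero
  have hslit : ∀ w : ℂ, 0 < w.re → w - (τ0 : ℂ) * I ∈ slitPlane := by
    intro w hw
    left
    simpa using hw
  have hFc : ContinuousOn F (box τ0 δ ∩ {w : ℂ | 0 < w.re}) := by
    have h1 : ContinuousOn (fun w => (w * L w + m * Complex.log (w - (τ0 : ℂ) * I) + ℓ w) /
        (2 * (Real.pi : ℂ) * I)) (box τ0 δ ∩ {w : ℂ | 0 < w.re}) := by
      refine ContinuousOn.div_const ((((continuousOn_id).mul (hL.mono inter_subset_right)).add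
        (continuousOn_const.mul ?_)).add (hℓc.mono inter_subset_left)) _
      intro w hw
      exact ((continuousAt_id.sub continuousAt_const).clog (hslit w hw.2)).continuousWithinAt
    exact h1.congr fun w _ => hF w
  have hFi : ∀ w ∈ box τ0 δ ∩ {w : ℂ | 0 < w.re}, ∃ n : ℤ, F w = (n : ℂ) := by
    rintro w ⟨hw, hw2⟩
    have hwre : 0 < w.re := hw2
    obtain ⟨-, -, h3⟩ := hfac w (hball w hw)
    have hexp : cexp (w * L w + m * Complex.log (w - (τ0 : ℂ) * I) + ℓ w) = 1 := by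
      rw [Complex.exp_add, Complex.exp_add, Complex.exp_nat_mul,
        Complex.exp_log (Complex.slitPlane_ne_zero (hslit w hwre)), hℓe w hw, mul_assoc, ← h3,
        hid w hwre, ← Complex.exp_add, add_neg_cancel, Complex.exp_zero]
    obtain ⟨n, hn⟩ := Complex.exp_eq_one_iff.1 hexp
    refine ⟨n, ?_⟩
    rw [hF, hn, mul_div_assoc, div_self hpi, mul_one]
  obtain ⟨n, hn⟩ := t5_const (t5_convex τ0 δ).isPreconnected hFc hFi
  refine ⟨δ, fun w => -(m : ℂ) / w, fun w => ((n : ℂ) * (2 * (Real.pi : ℂ) * I) - ℓ w - κ) / w, hδ0,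
    ?_, ?_, ?_⟩
  · exact continuousOn_const.div continuousOn_id hw0
  · exact ((continuousOn_const.sub hℓc).sub continuousOn_const).div continuousOn_id hw0
  · intro w hw hwre
    have h1 := hn w ⟨hw, hwre⟩
    rw [hF, div_eq_iff hpi] at h1
    have h2 : w ≠ 0 := hw0 w hw
    have h3 : L w = ((n : ℂ) * (2 * (Real.pi : ℂ) * I) - m * Complex.log (w - (τ0 : ℂ) * I) - ℓ w) / w := by
      rw [eq_div_iff h2, ← h1]
      ring
    simp only
    rw [h3]
    ring

variable {v : ℝ → ℝ} {G : ℂ → ℂ} {A a η : ℝ}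

theorem local_ne (hS : Setup v G A a η) (h0 : G 0 ≠ 0) (hint : ∀ x, 0 < x → LapInt v x)
    (hid : ∀ w : ℂ, 0 < w.re → G w = cexp (-(w * Lap v w))) (τ0 : ℝ) (hτ : τ0 ≠ 0) :
    ∃ δ : ℝ, 0 < δ ∧ CauchyL1 (fun w => Lap v w - (kap G : ℂ) / w) (Icc (τ0 - δ) (τ0 + δ)) := by
  have hG : AnalyticAt ℂ G ((τ0 : ℂ) * I) := by
    refine hS.diff.analyticAt (IsOpen.mem_nhds ?_ ?_)
    · exact isOpen_lt continuous_const Complex.continuous_re
    · have h1 := hS.hη
      simp only [Set.mem_ofPred_eq, mul_re, ofReal_re, I_re, mul_zero, ofReal_im, I_im, mul_one, sub_self]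
      linarith
  have hL : ContinuousOn (Lap v) {w : ℂ | 0 < w.re} :=
    (differentiableOn_Lap hS.grow.meas 0 hint).continuousOn
  obtain ⟨δ, α, β, hδ, hα, hβ, hq⟩ := t5_main hτ hG hL hid (kap G : ℂ)
  exact ⟨δ, hδ, cauchyL1_log hδ hα hβ hq⟩

end Pool.Agent.Helper58.BSD
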