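import Mathlib
import Pool.Agent.Helper58.BSD.TDefs
import Pool.Agent.Helper58.BSD.TLog

/-!
# T5a. The Laplace transform near the boundary point 0 (case τ0 = 0) (weight 10, project BSD)

PROOF. `q w = Lap v w - κ / w`, `κ = kap G = -log ‖G 0‖`.
For real `x > 0`, `G x = exp (-(x Lap v x)) > 0` (`Lap v x` real), so `G 0 = ‖G 0‖ = exp (-κ)` (limit of positive
reals, nonzero). On a ball around `0`, `ℓ w = log (G w / G 0)` is analytic, `ℓ 0 = 0`; on the half ball
`exp (-(w Lap v w)) = exp (-κ + ℓ w)`, so `w Lap v w - κ + ℓ w ∈ 2 π i ℤ` is constant, and `0` because it is real at real points.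
So `q w = -ℓ w / w = -dslope ℓ 0 w`, continuous on the whole ball. Apply `cauchyL1_log` with `α = 0`.
-/

namespace Pool.Agent.Helper58.BSD

open Complex Filter Topology MeasureTheory Set Pool.Agent.Helper13.Bsd Pool.Agent.Helper7.GW

variable {v : ℝ → ℝ} {G : ℂ → ℂ} {A a η : ℝ}

private theorem lap_im (v : ℝ → ℝ) (x : ℝ) : (Lap v (x : ℂ)).im = 0 := by
  have h : Lap v (x : ℂ) = ((∫ t in Ioi (0 : ℝ), v t * Real.exp (-x * t) : ℝ) : ℂ) := by
    rw [← integral_complex_ofReal]
    unfold Lap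
    refine integral_congr_ae (Eventually.of_forall fun t => ?_)
    simp only
    push_cast
    rfl
  rw [h, ofReal_im]

private theorem real_G (hid : ∀ w : ℂ, 0 < w.re → G w = cexp (-(w * Lap v w))) (x : ℝ) (hx : 0 < x) :
    0 < (G (x : ℂ)).re ∧ (G (x : ℂ)).im = 0 := by
  have h1 : (-((x : ℂ) * Lap v (x : ℂ))).im = 0 := by
    rw [neg_im, mul_im, lap_im, ofReal_im]
    ring
  have h2 : -((x : ℂ) * Lap v (x : ℂ)) = (((-((x : ℂ) * Lap v (x : ℂ))).re : ℝ) : ℂ) := by
    apply Complex.ext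
    · rw [ofReal_re]
    · rw [ofReal_im, h1]
  rw [hid x (by simpa using hx), h2, ← ofReal_exp]
  exact ⟨by rw [ofReal_re]; exact Real.exp_pos _, ofReal_im _⟩

private theorem G_zero (hS : Setup v G A a η)
    (hid : ∀ w : ℂ, 0 < w.re → G w = cexp (-(w * Lap v w))) : G 0 = ((‖G 0‖ : ℝ) : ℂ) := by
  have hopen : IsOpen {s : ℂ | -η < s.re} := isOpen_lt continuous_const continuous_re
  have h0mem : (0 : ℂ) ∈ {s : ℂ | -η < s.re} := by
    simpa using hS.hη
  have hc : ContinuousAt G 0 := (hS.diff.differentiableAt (hopen.mem_nhds h0mem)).continuousAt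
  have ht : Tendsto (fun x : ℝ => G (x : ℂ)) (𝓝[>] 0) (𝓝 (G 0)) := by
    have h1 : Tendsto (fun x : ℝ => (x : ℂ)) (𝓝[>] (0 : ℝ)) (𝓝 (0 : ℂ)) := by
      have := (continuous_ofReal.tendsto (0 : ℝ)).mono_left (nhdsWithin_le_nhds (s := Ioi (0 : ℝ)))
      simpa using this
    exact hc.tendsto.comp h1
  have him : (G 0).im = 0 := by
    have h1 : Tendsto (fun x : ℝ => (G (x : ℂ)).im) (𝓝[>] 0) (𝓝 (G 0).im) :=
      (continuous_im.tendsto _).comp ht
    have h2 : Tendsto (fun x : ℝ => (G (x : ℂ)).im) (𝓝[>] 0) (𝓝 0) := by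
      refine tendsto_const_nhds.congr' ?_
      filter_upwards [self_mem_nhdsWithin] with x hx
      exact (real_G hid x hx).2.symm
    exact tendsto_nhds_unique h1 h2
  have hre : 0 ≤ (G 0).re := by
    have h1 : Tendsto (fun x : ℝ => (G (x : ℂ)).re) (𝓝[>] 0) (𝓝 (G 0).re) :=
      (continuous_re.tendsto _).comp ht
    refine ge_of_tendsto h1 ?_
    filter_upwards [self_mem_nhdsWithin] with x hx
    exact (real_G hid x hx).1.le
  have h3 : G 0 = (((G 0).re : ℝ) : ℂ) := by
    apply Complex.ext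
    · rw [ofReal_re]
    · rw [ofReal_im, him]
  rw [h3, norm_real, Real.norm_of_nonneg hre]

theorem local_zero (hS : Setup v G A a η) (h0 : G 0 ≠ 0) (hint : ∀ x, 0 < x → LapInt v x)
    (hid : ∀ w : ℂ, 0 < w.re → G w = cexp (-(w * Lap v w))) :
    ∃ δ : ℝ, 0 < δ ∧ CauchyL1 (fun w => Lap v w - (kap G : ℂ) / w) (Icc (0 - δ) (0 + δ)) := by
  have hopen : IsOpen {s : ℂ | -η < s.re} := isOpen_lt continuous_const continuous_re
  have h0mem : (0 : ℂ) ∈ {s : ℂ | -η < s.re} := by
    simpa using hS.hη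
  have hG0 := G_zero hS hid
  have hn0 : 0 < ‖G 0‖ := norm_pos_iff.mpr h0
  have hkap : cexp (-(kap G : ℂ)) = G 0 := by
    rw [hG0]
    unfold kap
    push_cast
    rw [neg_neg]
    have h1 : cexp ((Real.log ‖G 0‖ : ℝ) : ℂ) = ((Real.exp (Real.log ‖G 0‖) : ℝ) : ℂ) := by
      rw [ofReal_exp]
    have h2 : ‖((‖G 0‖ : ℝ) : ℂ)‖ = ‖G 0‖ := by
      rw [norm_real, norm_norm]
    rw [Real.exp_log hn0] at h1
    simpa [h2] using h1
  -- the ball
  have hc : ContinuousAt (fun w => G w / G 0) 0 :=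
    ((hS.diff.differentiableAt (hopen.mem_nhds h0mem)).continuousAt).div_const _
  have hslit : ∀ᶠ w in 𝓝 (0 : ℂ), G w / G 0 ∈ slitPlane := by
    apply hc.eventually
    have h1 : G 0 / G 0 ∈ slitPlane := by
      rw [div_self h0]
      exact one_mem_slitPlane
    exact isOpen_slitPlane.mem_nhds h1
  obtain ⟨r, hr0, hr⟩ := Metric.eventually_nhds_iff_ball.mp (hslit.and (hopen.mem_nhds h0mem))
  set ℓ : ℂ → ℂ := fun w => Complex.log (G w / G 0) with hℓ
  have hℓd : DifferentiableOn ℂ ℓ (Metric.ball 0 r) := by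
    intro w hw
    have h1 : DifferentiableAt ℂ (fun w => G w / G 0) w :=
      (hS.diff.differentiableAt (hopen.mem_nhds (hr w hw).2)).div_const _
    exact (h1.clog (hr w hw).1).differentiableWithinAt
  have hℓ0 : ℓ 0 = 0 := by
    simp only [hℓ, div_self h0, Complex.log_one]
  have hexpℓ : ∀ w ∈ Metric.ball (0 : ℂ) r, cexp (ℓ w) = G w / G 0 := by
    intro w hw
    exact Complex.exp_log (slitPlane_ne_zero (hr w hw).1)
  set S : Set ℂ := Metric.ball 0 r ∩ {w : ℂ | 0 < w.re} with hSdef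
  have hSo : IsOpen S := Metric.isOpen_ball.inter (isOpen_lt continuous_const continuous_re)
  have hSc : Convex ℝ S := (convex_ball (0 : ℂ) r).inter (convex_halfSpace_re_gt 0)
  set h : ℂ → ℂ := fun w => w * Lap v w - (kap G : ℂ) + ℓ w with hh
  have hexp : ∀ w ∈ S, cexp (h w) = 1 := by
    intro w hw
    have hw2 : 0 < w.re := hw.2
    have hGw : G w ≠ 0 := by
      rw [hid w hw2]
      exact exp_ne_zero _
    have h1 : cexp (w * Lap v w) = (G w)⁻¹ := by
      rw [hid w hw2, exp_neg, inv_inv]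
    simp only [hh]
    rw [exp_add, sub_eq_add_neg, exp_add, hkap, h1, hexpℓ w hw.1]
    field_simp
  have hLd : DifferentiableOn ℂ (Lap v) {w | 0 < w.re} :=
    differentiableOn_Lap hS.grow.meas 0 hint
  have hhd : DifferentiableOn ℂ h S := by
    apply DifferentiableOn.add
    · apply DifferentiableOn.sub _ (differentiableOn_const _)
      exact differentiableOn_id.mul (hLd.mono inter_subset_right)
    · exact hℓd.mono inter_subset_left
  have hderiv : S.EqOn (deriv h) 0 := by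
    intro w hw
    have hda := hhd.differentiableAt (hSo.mem_nhds hw)
    have h1 : HasDerivAt (fun w => cexp (h w)) (cexp (h w) * deriv h w) w := hda.hasDerivAt.cexp
    have h2 : (fun w => cexp (h w)) =ᶠ[𝓝 w] fun _ => (1 : ℂ) := by
      filter_upwards [hSo.mem_nhds hw] with z hz
      exact hexp z hz
    have h3 : HasDerivAt (fun w => cexp (h w)) 0 w := (hasDerivAt_const w (1 : ℂ)).congr_of_eventuallyEq h2
    have h4 := h1.unique h3
    rw [hexp w hw, one_mul] at h4
    exact h4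
  have hreal : h ((r / 2 : ℝ) : ℂ) = 0 := by
    have hx : 0 < r / 2 := by positivity
    have hxS : ((r / 2 : ℝ) : ℂ) ∈ S := by
      refine ⟨?_, by simpa using hx⟩
      rw [mem_ball_zero_iff, norm_real, Real.norm_of_nonneg hx.le]
      linarith
    have him : (h ((r / 2 : ℝ) : ℂ)).im = 0 := by
      have h1 := real_G hid (r / 2) hx
      have h2 : G ((r / 2 : ℝ) : ℂ) = (((G ((r / 2 : ℝ) : ℂ)).re : ℝ) : ℂ) := by
        apply Complex.ext
        · rw [ofReal_re]
        · rw [ofReal_im, h1.2]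
      have h3 : ℓ ((r / 2 : ℝ) : ℂ) = ((Real.log ((G ((r / 2 : ℝ) : ℂ)).re / ‖G 0‖) : ℝ) : ℂ) := by
        simp only [hℓ]
        rw [hG0, h2, norm_real, norm_norm, ofReal_re, ← ofReal_div, ofReal_log]
        exact div_nonneg h1.1.le hn0.le
      simp only [hh]
      rw [add_im, sub_im, mul_im, lap_im, ofReal_im, ofReal_im, h3, ofReal_im]
      ring
    have h5 := hexp _ hxS
    have h6 : h ((r / 2 : ℝ) : ℂ) = (((h ((r / 2 : ℝ) : ℂ)).re : ℝ) : ℂ) := by
      apply Complex.ext
      · rw [ofReal_re]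
      · rw [ofReal_im, him]
    rw [h6, ← ofReal_exp] at h5
    have h7 : Real.exp (h ((r / 2 : ℝ) : ℂ)).re = 1 := by exact_mod_cast h5
    rw [Real.exp_eq_one_iff] at h7
    rw [h6, h7]
    rfl
  have hzero : ∀ w ∈ S, h w = 0 := by
    intro w hw
    have hx : 0 < r / 2 := by positivity
    have hxS : ((r / 2 : ℝ) : ℂ) ∈ S := by
      refine ⟨?_, by simpa using hx⟩
      rw [mem_ball_zero_iff, norm_real, Real.norm_of_nonneg hx.le]
      linarith
    rw [hSo.is_const_of_deriv_eq_zero hSc.isPreconnected hhd hderiv hw hxS, hreal]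
  have hδ : 0 < r / 2 := by positivity
  have hbox : box 0 (r / 2) ⊆ Metric.ball (0 : ℂ) r := by
    intro w hw
    obtain ⟨h1, h2, h3⟩ := hw
    rw [sub_zero] at h3
    rw [mem_ball_zero_iff]
    have h4 : ‖w‖ ^ 2 < r ^ 2 := by
      rw [Complex.sq_norm, normSq_apply]
      have h5 := abs_le.mp h3
      nlinarith
    exact lt_of_pow_lt_pow_left₀ 2 hr0.le h4
  refine ⟨r / 2, hδ, cauchyL1_log (α := fun _ => 0) (β := fun w => -dslope ℓ 0 w) hδ continuousOn_const
    ?_ ?_⟩
  · apply ContinuousOn.neg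
    have h1 : ContinuousOn (dslope ℓ 0) (Metric.ball 0 r) :=
      (continuousOn_dslope (Metric.ball_mem_nhds _ hr0)).mpr
        ⟨hℓd.continuousOn, hℓd.differentiableAt (Metric.ball_mem_nhds _ hr0)⟩
    exact h1.mono hbox
  · intro w hw hwre
    have hwS : w ∈ S := ⟨hbox hw, hwre⟩
    have hw0 : w ≠ 0 := by
      rintro rfl
      simp at hwre
    have h1 := hzero w hwS
    simp only [hh] at h1
    rw [zero_mul, zero_add, dslope_of_ne _ hw0, slope_def_field, hℓ0]
    have h2 : Lap v w = ((kap G : ℂ) - ℓ w) / w := by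
      rw [eq_div_iff hw0]
      linear_combination h1
    simp only [h2]
    field_simp
    ring

end Pool.Agent.Helper58.BSD
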