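import Mathlib
import Pool.Agent.Helper58.BSD.TDefs
import Pool.Agent.Helper13.Bsd.Omega
import Pool.Agent.Helper32.M3.Integral

/-!
# T12. The comparison function `Ein` (weight 10, project BSD)

PROOF. `0 ≤ (1 - e^{-u}) / u ≤ 1` for `u > 0` (`k1_nonneg`, `k1_le_one`, Helper13/Bsd/Omega; `k1 u = (1 - exp (-u)) / u`), so `ein` is monotone on
`[0, ∞)`, `0 ≤ ein t ≤ t`, continuous. `lap_ein`: `w Lap ein w = Lap k1 w` (Fubini: `ein t = ∫_{0<u<t} k1 u`,
`∫_{t>u} e^{-w t} dt = e^{-w u} / w`) `= ∫_0^1 dv / (w + v)` (`Lap_k1` with `θ = 0`) `= log (w + 1) - log w` (`Re w > 0`; derivative of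
`log (w + v)`), so `exp` of it is `(1 + w) / w`.
`ein_log`: for `t ≥ 1`, `ein t - log t = ∫_0^1 (1 - e^{-u})/u du - ∫_1^t e^{-u}/u du`, which converges to
`∫_0^1 (1 - e^{-u})/u du - ∫_1^∞ e^{-u}/u du = γ`. Proof that the limit is `γ`: integrate by parts,
`ein t = (1 - e^{-t}) log t - ∫_0^t e^{-u} log u du`, and `∫_0^∞ e^{-u} log u du = -γ`, which is `integral_log` in
Helper32/M3/Integral.lean (import it).
-/

namespace Pool.Agent.Helper58.BSD

open Complex Filter Topology MeasureTheory Set Pool.Agent.Helper13.Bsd Pool.Agent.Helper7.GW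

private theorem k1_nonneg' {u : ℝ} (hu : 0 ≤ u) : 0 ≤ k1 u := by
  rcases hu.eq_or_lt with h | h
  · rw [← h]
    simp [k1]
  · exact k1_nonneg h

private theorem k1_le_one' {u : ℝ} (hu : 0 ≤ u) : k1 u ≤ 1 := by
  rcases hu.eq_or_lt with h | h
  · rw [← h]
    simp [k1]
  · exact k1_le_one h

private theorem k1_ii (a b : ℝ) : IntervalIntegrable k1 volume a b := by
  have hd : Continuous (dslope (fun u : ℝ => 1 - Real.exp (-u)) 0) := by
    rw [continuous_iff_continuousAt]
    intro x
    by_cases hx : x = 0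
    · rw [hx, continuousAt_dslope_same]
      fun_prop
    · rw [continuousAt_dslope_of_ne hx]
      fun_prop
  refine (hd.intervalIntegrable a b).congr_ae ?_
  have h0 : ∀ᵐ u : ℝ ∂(volume.restrict (uIoc a b)), u ≠ 0 :=
    ae_restrict_of_ae (by simp [ae_iff])
  filter_upwards [h0] with u hu
  rw [dslope_of_ne _ hu, slope_def_field]
  simp [k1]

private theorem ein_eq (t : ℝ) : ein t = ∫ u in (0 : ℝ)..t, k1 u := rfl

theorem ein_nonneg {t : ℝ} (ht : 0 ≤ t) : 0 ≤ ein t := by
  rw [ein_eq]
  exact intervalIntegral.integral_nonneg ht fun u hu => k1_nonneg' hu.1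

theorem ein_le {t : ℝ} (ht : 0 ≤ t) : ein t ≤ t := by
  rw [ein_eq]
  have h := intervalIntegral.integral_mono_on ht (k1_ii 0 t)
    (continuous_const.intervalIntegrable 0 t : IntervalIntegrable (fun _ : ℝ => (1 : ℝ)) volume 0 t)
    fun u hu => k1_le_one' hu.1
  simpa using h

theorem ein_mono {s t : ℝ} (hs : 0 ≤ s) (hst : s ≤ t) : ein s ≤ ein t := by
  rw [ein_eq, ein_eq, ← intervalIntegral.integral_add_adjacent_intervals (k1_ii 0 s) (k1_ii s t)]
  have : 0 ≤ ∫ u in s..t, k1 u :=
    intervalIntegral.integral_nonneg hst fun u hu => k1_nonneg' (hs.trans hu.1)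
  linarith

private theorem continuous_ein : Continuous ein :=
  intervalIntegral.continuous_primitive k1_ii 0

theorem measurable_ein : Measurable ein := continuous_ein.measurable

private theorem mul_exp_int {x : ℝ} (hx : 0 < x) :
    IntegrableOn (fun t : ℝ => t * Real.exp (-x * t)) (Ioi (0 : ℝ)) := by
  have h := integrableOn_rpow_mul_exp_neg_mul_rpow (p := 1) (s := 1) (b := x) (by norm_num) one_pos hx
  simpa using h

theorem lapInt_ein {x : ℝ} (hx : 0 < x) : LapInt ein x := by
  unfold LapInt
  refine Integrable.mono' (mul_exp_int hx) ?_ ?_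
  · exact (measurable_ein.mul (by fun_prop)).aestronglyMeasurable
  · rw [ae_restrict_iff' measurableSet_Ioi]
    filter_upwards with t ht
    have ht' : 0 < t := ht
    rw [norm_mul, Real.norm_eq_abs, Real.norm_eq_abs, Real.abs_exp, abs_of_nonneg (ein_nonneg ht'.le)]
    exact mul_le_mul_of_nonneg_right (ein_le ht'.le) (Real.exp_pos _).le

private theorem ein_deriv {t : ℝ} (ht : 0 < t) : HasDerivAt ein (k1 t) t := by
  refine intervalIntegral.integral_hasDerivAt_right (k1_ii 0 t) ?_ ?_
  · exact (measurable_k1.stronglyMeasurable).stronglyMeasurableAtFilter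
  · exact ContinuousAt.div (by fun_prop) (by fun_prop) ht.ne'

private theorem w_lap (w : ℂ) (hw : 0 < w.re) : w * Lap ein w = Lap k1 w := by
  have hw0 : w ≠ 0 := by
    rintro rfl
    simp at hw
  have hk : LapInt k1 w.re := by
    have := LapInt_k1 (θ := 0) hw
    simpa using this
  have hint1 : IntegrableOn (fun t : ℝ => (ein t : ℂ) * cexp (-w * t)) (Ioi (0 : ℝ)) :=
    (lapInt_ein hw).complex measurable_ein
  have hint2 : IntegrableOn (fun t : ℝ => (k1 t : ℂ) * cexp (-w * t)) (Ioi (0 : ℝ)) :=
    hk.complex measurable_k1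
  have key := MeasureTheory.integral_Ioi_mul_deriv_eq_deriv_mul (a := (0 : ℝ)) (a' := (0 : ℂ))
    (b' := (0 : ℂ)) (u := fun t : ℝ => (ein t : ℂ)) (u' := fun t : ℝ => (k1 t : ℂ))
    (v := fun t : ℝ => -(cexp (-w * t) / w)) (v' := fun t : ℝ => cexp (-w * t)) ?_ ?_ ?_ ?_ ?_ ?_
  · unfold Lap
    rw [key, sub_zero, zero_sub, ← integral_neg, ← integral_const_mul]
    apply integral_congr_ae
    filter_upwards with t
    field_simp
  · intro t ht
    exact (ein_deriv ht).ofReal_comp
  · intro t _
    have h2 : HasDerivAt (fun t : ℝ => (t : ℂ)) 1 t := Complex.ofRealCLM.hasDerivAt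
    have h3 := ((h2.const_mul (-w)).cexp.div_const w).neg
    convert! h3 using 1
    field_simp
  · exact hint1
  · have h4 : IntegrableOn (fun t : ℝ => -(w⁻¹) * ((k1 t : ℂ) * cexp (-w * t))) (Ioi (0 : ℝ)) :=
      Integrable.const_mul hint2 _
    refine h4.congr ?_
    filter_upwards with t
    simp only [Pi.mul_apply]
    field_simp
  · have h5 : Continuous fun t : ℝ => (ein t : ℂ) * -(cexp (-w * t) / w) := by
      have := continuous_ein
      fun_prop
    have h6 := (h5.tendsto 0).mono_left (nhdsWithin_le_nhds (s := Ioi (0 : ℝ)))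
    have h7 : ein 0 = 0 := by
      rw [ein_eq, intervalIntegral.integral_same]
    have h6' : Tendsto (fun t : ℝ => (ein t : ℂ) * -(cexp (-w * t) / w)) (𝓝[>] 0) (𝓝 0) := by
      simpa [h7] using h6
    exact h6'
  · rw [tendsto_zero_iff_norm_tendsto_zero]
    have h8 := (tendsto_rpow_mul_exp_neg_mul_atTop_nhds_zero 1 w.re hw).div_const ‖w‖
    rw [zero_div] at h8
    refine squeeze_zero' (Eventually.of_forall fun t => norm_nonneg _) ?_ h8
    filter_upwards [eventually_ge_atTop 0] with t ht
    rw [Pi.mul_apply, norm_mul, norm_neg, norm_div, norm_real, norm_exp, Real.norm_eq_abs,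
      abs_of_nonneg (ein_nonneg ht), mul_div_assoc', Real.rpow_one]
    have h9 : (-w * (t : ℂ)).re = -w.re * t := by simp
    rw [h9]
    gcongr
    exact ein_le ht

theorem lap_ein (w : ℂ) (hw : 0 < w.re) : cexp (w * Lap ein w) = (1 + w) / w := by
  have hw0 : w ≠ 0 := by
    rintro rfl
    simp at hw
  have hw1 : w + 1 ≠ 0 := by
    intro h
    have := congrArg Complex.re h
    simp at this
    linarith
  rw [w_lap w hw]
  have h1 := Lap_k1 0 w hw
  have h2 : (fun t => Real.exp (0 * t) * k1 t) = k1 := by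
    funext t
    simp
  rw [h2] at h1
  rw [h1]
  have h3 : ∫ v in (0 : ℝ)..1, 1 / (w - ((0 : ℝ) : ℂ) + v) = Complex.log (w + 1) - Complex.log w := by
    have h4 : ∀ v ∈ uIcc (0 : ℝ) 1, HasDerivAt (fun v : ℝ => Complex.log (w + v))
        (1 / (w - ((0 : ℝ) : ℂ) + v)) v := by
      intro v hv
      rw [uIcc_of_le zero_le_one] at hv
      have h5 : HasDerivAt (fun v : ℝ => (v : ℂ)) 1 v := Complex.ofRealCLM.hasDerivAt
      have h6 : HasDerivAt (fun v : ℝ => w + (v : ℂ)) 1 v := h5.const_add w
      have h7 : w + (v : ℂ) ∈ slitPlane := by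
        left
        simp only [add_re, ofReal_re]
        linarith [hv.1]
      have h8 := h6.clog_real h7
      simpa using h8
    rw [intervalIntegral.integral_eq_sub_of_hasDerivAt h4]
    · simp
    · apply ContinuousOn.intervalIntegrable
      intro v hv
      rw [uIcc_of_le zero_le_one] at hv
      have h7 : w - ((0 : ℝ) : ℂ) + (v : ℂ) ≠ 0 := by
        intro h
        have := congrArg Complex.re h
        simp at this
        linarith [hv.1]
      have h10 : ContinuousAt (fun v : ℝ => w - ((0 : ℝ) : ℂ) + (v : ℂ)) v := by fun_prop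
      exact (ContinuousAt.div continuousAt_const h10 h7).continuousWithinAt
  rw [h3, Complex.exp_sub, Complex.exp_log hw1, Complex.exp_log hw0, add_comm]

theorem ein_log : Tendsto (fun t => ein t - Real.log t) atTop (𝓝 Real.eulerMascheroniConstant) := by
  have hlog : IntegrableOn (fun u : ℝ => Real.exp (-u) * Real.log u) (Ioi (0 : ℝ)) := by
    refine Integrable.mono' Pool.Agent.Helper32.M3.log_int ?_ ?_
    · exact ((by fun_prop : Measurable fun u : ℝ => Real.exp (-u)).mul
        Real.measurable_log).aestronglyMeasurable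
    · filter_upwards with u
      rw [norm_mul, Real.norm_eq_abs, Real.norm_eq_abs, Real.abs_exp]
  have hid : ∀ t : ℝ, 0 < t → ein t =
      (1 - Real.exp (-t)) * Real.log t - ∫ u in (0 : ℝ)..t, Real.exp (-u) * Real.log u := by
    intro t ht
    have hi1 : IntervalIntegrable (fun u : ℝ => Real.exp (-u) * Real.log u) volume 0 t := by
      rw [intervalIntegrable_iff_integrableOn_Ioc_of_le ht.le]
      exact hlog.mono_set Ioc_subset_Ioi_self
    have h1 := intervalIntegral.integral_eq_sub_of_hasDerivAt_of_tendsto (a := 0) (b := t)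
      (f := fun u => (1 - Real.exp (-u)) * Real.log u)
      (f' := fun u => Real.exp (-u) * Real.log u + k1 u)
      (fa := 0) (fb := (1 - Real.exp (-t)) * Real.log t) ht ?_ (hi1.add (k1_ii 0 t)) ?_ ?_
    · rw [intervalIntegral.integral_add hi1 (k1_ii 0 t), sub_zero] at h1
      rw [ein_eq]
      linarith
    · intro u hu
      have h2 : HasDerivAt (fun u : ℝ => 1 - Real.exp (-u)) (Real.exp (-u)) u := by
        have := ((hasDerivAt_neg u).exp).const_sub 1
        simpa using this
      have h3 := h2.mul (Real.hasDerivAt_log hu.1.ne')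
      convert! h3 using 1
    · have h4 : Tendsto (fun u : ℝ => |u * Real.log u|) (𝓝[>] 0) (𝓝 0) := by
        have h5 := (Real.continuous_mul_log.abs.tendsto 0).mono_left
          (nhdsWithin_le_nhds (s := Ioi (0 : ℝ)))
        simpa using h5
      refine squeeze_zero_norm' ?_ h4
      filter_upwards [self_mem_nhdsWithin] with u hu
      have hu' : 0 < u := hu
      rw [norm_mul, abs_mul, Real.norm_eq_abs, Real.norm_eq_abs]
      refine mul_le_mul_of_nonneg_right ?_ (abs_nonneg _)
      have h6 : Real.exp (-u) ≤ 1 := Real.exp_le_one_iff.mpr (by linarith)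
      have h7 := Real.add_one_le_exp (-u)
      rw [abs_of_nonneg (by linarith), abs_of_pos hu']
      linarith
    · have h8 : ContinuousAt (fun u : ℝ => (1 - Real.exp (-u)) * Real.log u) t :=
        ContinuousAt.mul (by fun_prop) (Real.continuousAt_log ht.ne')
      exact h8.tendsto.mono_left nhdsWithin_le_nhds
  have hlim : Tendsto (fun t : ℝ => ∫ u in (0 : ℝ)..t, Real.exp (-u) * Real.log u) atTop
      (𝓝 (-Real.eulerMascheroniConstant)) := by
    rw [← Pool.Agent.Helper32.M3.integral_log]
    exact intervalIntegral_tendsto_integral_Ioi 0 hlog tendsto_id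
  have hsm : Tendsto (fun t : ℝ => Real.exp (-t) * Real.log t) atTop (𝓝 0) := by
    have h9 := tendsto_rpow_mul_exp_neg_mul_atTop_nhds_zero 1 1 one_pos
    refine squeeze_zero' ?_ ?_ h9
    · filter_upwards [eventually_ge_atTop 1] with t ht
      exact mul_nonneg (Real.exp_pos _).le (Real.log_nonneg ht)
    · filter_upwards [eventually_ge_atTop 1] with t ht
      rw [Real.rpow_one, mul_comm]
      have h10 : Real.log t ≤ t := by
        have := Real.log_le_sub_one_of_pos (lt_of_lt_of_le one_pos ht)
        linarith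
      have h11 : Real.exp (-1 * t) = Real.exp (-t) := by
        congr 1
        ring
      rw [h11]
      exact mul_le_mul_of_nonneg_right h10 (Real.exp_pos _).le
  have hfin : Tendsto (fun t : ℝ => -(Real.exp (-t) * Real.log t) -
      ∫ u in (0 : ℝ)..t, Real.exp (-u) * Real.log u) atTop
      (𝓝 (-0 - -Real.eulerMascheroniConstant)) := hsm.neg.sub hlim
  have e : -0 - -Real.eulerMascheroniConstant = Real.eulerMascheroniConstant := by ring
  rw [e] at hfin
  refine hfin.congr' ?_
  filter_upwards [eventually_gt_atTop 0] with t ht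
  rw [hid t ht]
  ring

end Pool.Agent.Helper58.BSD
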