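import Mathlib
import Pool.Agent.Helper58.BSD.TDefs
import Pool.Agent.Helper58.BSD.TEin

/-!
# T13. Reduction to order zero (weight 10, project BSD)

PROOF. `factor_order`: `G` is analytic at `0`, of order `n`; `n ≠ ⊤` (otherwise `G = 0` near `0` and the limit `g` would be `0`); near `0`,
`G s = s^n h s`, `h 0 ≠ 0` (`AnalyticAt.analyticOrderAt_eq_natCast`), so `‖G y‖ / y^r = y^n / y^r ‖h y‖`, and a positive finite limit
forces `n = r` and `‖h 0‖ = g`. `G1 s = if s = 0 then h 0 else G s / s^r`.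
`setup_reduce`: `v0 = v - r ein`, `G0 s = G1 s (1 + s)^r`. Growth: `|v0 t| ≤ A e^{a t} + r t ≤ (A + r) e^{(a+1) t}`. For `Re w > a + 1`:
`exp (-(w Lap v0 w)) = exp (-(w Lap v w)) exp (w Lap ein w)^r = G w ((1 + w)/w)^r = G1 w (1 + w)^r` (`Lap_sub`, `Lap_const_mul`, `lap_ein`,
`lapInt_ein`).
-/

namespace Pool.Agent.Helper58.BSD

open Complex Filter Topology MeasureTheory Set Pool.Agent.Helper13.Bsd Pool.Agent.Helper7.GW

variable {v : ℝ → ℝ} {G : ℂ → ℂ} {A a η : ℝ}

private theorem lapInt_of_grow (h : Grow v A a) {x : ℝ} (hx : a < x) : LapInt v x := by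
  unfold LapInt
  have h1 : IntegrableOn (fun t : ℝ => A * Real.exp (-(x - a) * t)) (Ioi (0 : ℝ)) :=
    (exp_neg_integrableOn_Ioi 0 (sub_pos.2 hx)).const_mul A
  refine Integrable.mono' h1 ?_ ?_
  · exact (h.meas.mul (Real.measurable_exp.comp (measurable_const.mul measurable_id))).aestronglyMeasurable
  · rw [ae_restrict_iff' measurableSet_Ioi]
    refine Eventually.of_forall fun t ht => ?_
    have ht0 : 0 < t := ht
    rw [norm_mul, Real.norm_eq_abs, Real.norm_eq_abs, abs_of_pos (Real.exp_pos _)]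
    calc |v t| * Real.exp (-x * t) ≤ (A * Real.exp (a * t)) * Real.exp (-x * t) :=
          mul_le_mul_of_nonneg_right (h.bd t ht0) (Real.exp_pos _).le
      _ = A * Real.exp (-(x - a) * t) := by
          rw [mul_assoc, ← Real.exp_add]
          congr 2
          ring

theorem factor_order (hS : Setup v G A a η) (r : ℕ) (g : ℝ) (hg0 : 0 < g)
    (hg : Tendsto (fun y : ℝ => ‖G (y : ℂ)‖ / y ^ r) (𝓝[>] 0) (𝓝 g)) :
    ∃ G1 : ℂ → ℂ, DifferentiableOn ℂ G1 {s : ℂ | -η < s.re} ∧ (∀ s : ℂ, -η < s.re → G s = s ^ r * G1 s) ∧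
      ‖G1 0‖ = g := by
  have hopen : IsOpen {s : ℂ | -η < s.re} := isOpen_lt continuous_const continuous_re
  have h0mem : (0 : ℂ) ∈ {s : ℂ | -η < s.re} := by
    show -η < (0 : ℂ).re
    rw [zero_re]
    linarith [hS.hη]
  have han : AnalyticAt ℂ G 0 := hS.diff.analyticAt (hopen.mem_nhds h0mem)
  have hre : Tendsto (fun y : ℝ => (y : ℂ)) (𝓝[>] 0) (𝓝 (0 : ℂ)) := by
    have h1 : Tendsto (fun y : ℝ => (y : ℂ)) (𝓝 0) (𝓝 ((0 : ℝ) : ℂ)) :=
      continuous_ofReal.tendsto 0
    rw [ofReal_zero] at h1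
    exact h1.mono_left nhdsWithin_le_nhds
  have hpos : ∀ᶠ y : ℝ in 𝓝[>] 0, 0 < y := eventually_mem_nhdsWithin
  have hne : ¬ ∀ᶠ z in 𝓝 (0 : ℂ), G z = 0 := by
    intro h
    have h1 : ∀ᶠ y : ℝ in 𝓝[>] 0, ‖G (y : ℂ)‖ / y ^ r = 0 := by
      filter_upwards [hre.eventually h] with y hy
      rw [hy, norm_zero, zero_div]
    have h2 := tendsto_nhds_unique_of_eventuallyEq hg tendsto_const_nhds h1
    linarith
  obtain ⟨n, h, hh, h0, heq⟩ := han.exists_eventuallyEq_pow_smul_nonzero_iff.2 hne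
  have hT : Tendsto (fun y : ℝ => ‖h (y : ℂ)‖) (𝓝[>] 0) (𝓝 ‖h 0‖) :=
    (hh.continuousAt.tendsto.comp hre).norm
  have heq' : ∀ᶠ y : ℝ in 𝓝[>] 0, ‖G (y : ℂ)‖ = y ^ n * ‖h (y : ℂ)‖ := by
    filter_upwards [hre.eventually heq, hpos] with y hy hy0
    rw [hy, sub_zero, smul_eq_mul, norm_mul, norm_pow, norm_real, Real.norm_eq_abs, abs_of_pos hy0]
  have hpow : ∀ k : ℕ, k ≠ 0 → Tendsto (fun y : ℝ => y ^ k) (𝓝[>] 0) (𝓝 0) := by
    intro k hk
    have h1 : Tendsto (fun y : ℝ => y ^ k) (𝓝 0) (𝓝 ((0 : ℝ) ^ k)) := (continuous_pow k).tendsto 0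
    rw [zero_pow hk] at h1
    exact h1.mono_left nhdsWithin_le_nhds
  have hn : n = r := by
    rcases lt_trichotomy n r with hlt | he | hgt
    · exfalso
      have h1 := (hpow (r - n) (by omega)).mul hg
      rw [zero_mul] at h1
      have h2 : ∀ᶠ y : ℝ in 𝓝[>] 0, y ^ (r - n) * (‖G (y : ℂ)‖ / y ^ r) = ‖h (y : ℂ)‖ := by
        filter_upwards [heq', hpos] with y hy hy0
        rw [hy]
        have e : y ^ r = y ^ (r - n) * y ^ n := by rw [← pow_add]; congr 1; omega
        rw [e]
        have h3 : y ^ (r - n) ≠ 0 := by positivity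
        have h4 : y ^ n ≠ 0 := by positivity
        field_simp
      have h3 := tendsto_nhds_unique_of_eventuallyEq h1 hT h2
      exact h0 (norm_eq_zero.1 h3.symm)
    · exact he
    · exfalso
      have h1 := (hpow (n - r) (by omega)).mul hT
      rw [zero_mul] at h1
      have h2 : ∀ᶠ y : ℝ in 𝓝[>] 0, ‖G (y : ℂ)‖ / y ^ r = y ^ (n - r) * ‖h (y : ℂ)‖ := by
        filter_upwards [heq', hpos] with y hy hy0
        rw [hy]
        have e : y ^ n = y ^ (n - r) * y ^ r := by rw [← pow_add]; congr 1; omega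
        rw [e]
        have h4 : y ^ r ≠ 0 := by positivity
        field_simp
      have h3 := tendsto_nhds_unique_of_eventuallyEq hg h1 h2
      linarith
  subst hn
  have hgh : ‖h 0‖ = g := by
    have h2 : ∀ᶠ y : ℝ in 𝓝[>] 0, ‖G (y : ℂ)‖ / y ^ n = ‖h (y : ℂ)‖ := by
      filter_upwards [heq', hpos] with y hy hy0
      rw [hy]
      have h4 : y ^ n ≠ 0 := by positivity
      field_simp
    exact (tendsto_nhds_unique_of_eventuallyEq hg hT h2).symm
  refine ⟨fun z => if z = 0 then h 0 else G z / z ^ n, ?_, ?_, by simpa using hgh⟩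
  · intro z hz
    by_cases hzx : z = 0
    · subst hzx
      have h1 : (fun y => if y = 0 then h 0 else G y / y ^ n) =ᶠ[𝓝 0] h := by
        filter_upwards [heq] with y hy
        by_cases hyz : y = 0
        · rw [if_pos hyz, hyz]
        · rw [if_neg hyz, hy, smul_eq_mul, sub_zero, mul_div_cancel_left₀ _ (pow_ne_zero _ hyz)]
      exact (hh.differentiableAt.congr_of_eventuallyEq h1).differentiableWithinAt
    · have h1 : (fun y => if y = 0 then h 0 else G y / y ^ n) =ᶠ[𝓝 z] fun y => G y / y ^ n := by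
        filter_upwards [isOpen_ne.mem_nhds hzx] with y hy
        exact if_neg hy
      have h2 : DifferentiableAt ℂ (fun y => G y / y ^ n) z := by
        apply (hS.diff.differentiableAt (hopen.mem_nhds hz)).div
        · fun_prop
        · exact pow_ne_zero _ hzx
      exact (h2.congr_of_eventuallyEq h1).differentiableWithinAt
  · intro z hz
    by_cases hzx : z = 0
    · subst hzx
      have h1 := heq.self_of_nhds
      simpa using h1
    · show G z = z ^ n * (if z = 0 then h 0 else G z / z ^ n)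
      rw [if_neg hzx, mul_div_cancel₀ _ (pow_ne_zero _ hzx)]

theorem setup_reduce (hS : Setup v G A a η) (r : ℕ) (G1 : ℂ → ℂ) (h1 : DifferentiableOn ℂ G1 {s : ℂ | -η < s.re})
    (h2 : ∀ s : ℂ, -η < s.re → G s = s ^ r * G1 s) :
    Setup (fun t => v t - r * ein t) (fun s => G1 s * (1 + s) ^ r) (A + r) (a + 1) η := by
  have hA := hS.grow.hA
  have ha := hS.grow.ha
  refine ⟨⟨?_, by positivity, by linarith, ?_⟩, hS.hη, ?_, ?_⟩
  · exact hS.grow.meas.sub (measurable_const.mul measurable_ein)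
  · intro t ht
    have e1 := ein_nonneg ht.le
    have e2 := ein_le ht.le
    have hr : (0 : ℝ) ≤ r := Nat.cast_nonneg r
    have h3 : t ≤ Real.exp ((a + 1) * t) := by
      have h4 := Real.add_one_le_exp ((a + 1) * t)
      nlinarith
    have h5 : Real.exp (a * t) ≤ Real.exp ((a + 1) * t) :=
      Real.exp_le_exp.2 (by nlinarith)
    calc |v t - r * ein t| ≤ |v t| + |(r : ℝ) * ein t| := abs_sub _ _
      _ ≤ A * Real.exp (a * t) + r * t := by
          rw [abs_of_nonneg (mul_nonneg hr e1)]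
          exact add_le_add (hS.grow.bd t ht) (mul_le_mul_of_nonneg_left e2 hr)
      _ ≤ A * Real.exp ((a + 1) * t) + r * Real.exp ((a + 1) * t) :=
          add_le_add (mul_le_mul_of_nonneg_left h5 hA) (mul_le_mul_of_nonneg_left h3 hr)
      _ = (A + r) * Real.exp ((a + 1) * t) := by ring
  · apply h1.mul
    fun_prop
  · intro w hw
    have hw1 : a < w.re := by linarith
    have hw0 : 0 < w.re := by linarith
    have hwne : w ≠ 0 := by
      intro h
      rw [h, zero_re] at hw0
      exact lt_irrefl _ hw0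
    have e1 : lap (fun t => v t - r * ein t) w = Lap v w - r * Lap ein w := by
      show Lap (fun t => v t - r * ein t) w = _
      have hm : Measurable fun t => (r : ℝ) * ein t := measurable_const.mul measurable_ein
      rw [Lap_sub hS.grow.meas hm
        (lapInt_of_grow hS.grow hw1) ((lapInt_ein hw0).const_mul _), Lap_const_mul]
      push_cast
      rfl
    have e2 : G w = cexp (-(w * Lap v w)) := hS.eq w hw1
    have e3 : cexp (-(w * (Lap v w - r * Lap ein w))) =
        cexp (-(w * Lap v w)) * cexp (w * Lap ein w) ^ r := by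
      rw [← Complex.exp_nat_mul, ← Complex.exp_add]
      congr 1
      ring
    rw [e1, e3, ← e2, lap_ein w hw0, h2 w (by linarith [hS.hη]), div_pow]
    have h5 : w ^ r ≠ 0 := pow_ne_zero _ hwne
    field_simp

end Pool.Agent.Helper58.BSD
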