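import Mathlib
import Pool.Agent.Helper58.BSD.TDefs

/-!
# T1. One-sided uniform convergence theorem (weight 10, project BSD)

PROOF. Core lemma `unif_core`: let `v` be measurable, `0 < c`, `s_n → ∞`, `u_n ∈ [c/2, c]`, `v (s_n + u_n) - v s_n ≥ 2 κ_n` for all `n`.
Then there are `w ∈ (0, c]` and, for infinitely many `n`, a number `s ≥ s_n` (so `s → ∞` along these `n`) with `v (s + w) - v s ≥ κ_n`.
Put `A_n = {x ∈ [0, u_n] : v (s_n + x) - v s_n ≥ κ_n}`, `B_n = {x ∈ [0, u_n] : v (s_n + u_n) - v (s_n + x) ≥ κ_n}`; both are measurable and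
cover `[0, u_n]`, so one of them has measure `≥ c/4`. Either `|A_n| ≥ c/4` for infinitely many `n`, or `|B_n| ≥ c/4` for
infinitely many `n`. In the first case the set of `x ∈ [0, c]` lying in infinitely many `A_n` has measure `≥ c/4`
(limsup of sets in a finite measure space: `measure_limsup`... or: `⋂_m ⋃_{n ≥ m} A_n` is a decreasing intersection of sets of
measure `≥ c/4` in `[0, c]`, `tendsto_measure_iInter_atTop`), so it contains some `x > 0`; take `w = x`, `s = s_n`. In the second case use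
`B'_n = {u_n - x : x ∈ B_n} ⊆ [0, c]` (same measure): some `w > 0` is in infinitely many `B'_n`, and with `s = s_n + u_n - w ≥ s_n`,
`v (s + w) - v s ≥ κ_n`.
`uniform_O`: if it fails for every `K = 2 n`, `T = n` take `s_n ≥ n`, `u_n ∈ [c/2, c]` (`c = log 2`) with
`v (s_n + u_n) > v s_n + 2 n`; the core lemma with `κ_n = n` contradicts `SlowO` at `w`. `uniform_o`: same with `κ_n = ε / 2` constant.
`linear_slow`: for `u ≥ c/2` let `n = ⌈u / c⌉₊ ≥ 1`; then `u / n ∈ [c/2, c]`, so `v (t + u) ≤ v t + n K`, `n ≤ u / c + 1`.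
`upper_lin`: for `t ≥ T + c/2`: `v t ≤ v T + K (1 + (t - T) / c)`; for `t ≤ T + c/2` use the bound of `Grow` (for `t > 0`; `|v 0|` at `0`).
-/

namespace Pool.Agent.Helper58.BSD

open Complex Filter Topology MeasureTheory Set Pool.Agent.Helper13.Bsd Pool.Agent.Helper7.GW

/-- the set of good increments for one `n` -/
private def t1E (v : ℝ → ℝ) (s u κ : ℝ) : Set ℝ :=
  {w | 0 ≤ w ∧ w ≤ u ∧ (v s + κ ≤ v (s + w) ∨ v (s + u - w) + κ ≤ v (s + u))}

private theorem t1E_meas {v : ℝ → ℝ} (hv : Measurable v) (s u κ : ℝ) :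
    MeasurableSet (t1E v s u κ) := by
  unfold t1E
  refine (measurableSet_le measurable_const measurable_id).inter
    ((measurableSet_le measurable_id measurable_const).inter (MeasurableSet.union ?_ ?_))
  · exact measurableSet_le measurable_const (hv.comp (measurable_const.add measurable_id))
  · exact measurableSet_le ((hv.comp (measurable_const.sub measurable_id)).add measurable_const)
      measurable_const

private theorem t1E_vol {v : ℝ → ℝ} (hv : Measurable v) {c s u κ : ℝ} (hc : 0 < c)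
    (hu : c / 2 ≤ u) (h : v s + 2 * κ ≤ v (s + u)) :
    ENNReal.ofReal (c / 4) ≤ volume (t1E v s u κ) := by
  by_contra hcon
  push Not at hcon
  have hsub : Icc (0 : ℝ) u ⊆ t1E v s u κ ∪ (fun x => u - x) ⁻¹' (t1E v s u κ) := by
    rintro w ⟨hw0, hwu⟩
    by_cases h1 : v s + κ ≤ v (s + w)
    · exact Or.inl ⟨hw0, hwu, Or.inl h1⟩
    · push Not at h1
      refine Or.inr ?_
      refine ⟨by simp only; linarith, by simp only; linarith, Or.inr ?_⟩
      simp only
      rw [show s + u - (u - w) = s + w by ring]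
      linarith
  have h1 : volume (Icc (0 : ℝ) u) ≤ volume (t1E v s u κ) + volume (t1E v s u κ) := by
    refine (measure_mono hsub).trans ((measure_union_le _ _).trans ?_)
    rw [(Measure.measurePreserving_sub_left volume u).measure_preimage
      (t1E_meas hv s u κ).nullMeasurableSet]
  rw [Real.volume_Icc, sub_zero] at h1
  have h2 : ENNReal.ofReal (c / 2) ≤ ENNReal.ofReal u := ENNReal.ofReal_le_ofReal hu
  have h3 : ENNReal.ofReal (c / 2) = ENNReal.ofReal (c / 4) + ENNReal.ofReal (c / 4) := by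
    rw [← ENNReal.ofReal_add (by linarith) (by linarith)]
    congr 1
    ring
  have h4 := ENNReal.add_lt_add hcon hcon
  rw [← h3] at h4
  exact absurd (h2.trans h1) (not_le.2 h4)

theorem unif_core {v : ℝ → ℝ} (hv : Measurable v) {c : ℝ} (hc : 0 < c) {s u κ : ℕ → ℝ}
    (hu1 : ∀ n, c / 2 ≤ u n) (hu2 : ∀ n, u n ≤ c) (h : ∀ n, v (s n) + 2 * κ n ≤ v (s n + u n)) :
    ∃ w : ℝ, 0 < w ∧ w ≤ c ∧ ∃ᶠ n in atTop, ∃ x : ℝ, s n ≤ x ∧ v x + κ n ≤ v (x + w) := by
  obtain ⟨E, hE⟩ : ∃ E : ℕ → Set ℝ, E = fun n => t1E v (s n) (u n) (κ n) := ⟨_, rfl⟩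
  have hEm : ∀ n, MeasurableSet (E n) := by
    intro n
    rw [hE]
    exact t1E_meas hv _ _ _
  have hEv : ∀ n, ENNReal.ofReal (c / 4) ≤ volume (E n) := by
    intro n
    rw [hE]
    exact t1E_vol hv hc (hu1 n) (h n)
  have hEc : ∀ n, E n ⊆ Icc 0 c := by
    intro n w hw
    rw [hE] at hw
    exact ⟨hw.1, hw.2.1.trans (hu2 n)⟩
  obtain ⟨F, hF⟩ : ∃ F : ℕ → Set ℝ, F = fun m => ⋃ n ≥ m, E n := ⟨_, rfl⟩
  have hFm : ∀ m, MeasurableSet (F m) := by
    intro m
    rw [hF]
    exact MeasurableSet.iUnion fun n => MeasurableSet.iUnion fun _ => hEm n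
  have hFanti : Antitone F := by
    intro a b hab w hw
    rw [hF] at hw ⊢
    simp only [mem_iUnion] at hw ⊢
    obtain ⟨n, hn, hw⟩ := hw
    exact ⟨n, le_trans hab hn, hw⟩
  have hFc : F 0 ⊆ Icc 0 c := by
    rw [hF]
    exact iUnion₂_subset fun n _ => hEc n
  have hfin : volume (F 0) ≠ ⊤ := by
    refine ne_top_of_le_ne_top ?_ (measure_mono hFc)
    rw [Real.volume_Icc]
    exact ENNReal.ofReal_ne_top
  have hlim := tendsto_measure_iInter_atTop (μ := volume) (s := F)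
    (fun m => (hFm m).nullMeasurableSet) hFanti ⟨0, hfin⟩
  have hFv : ∀ m, ENNReal.ofReal (c / 4) ≤ volume (F m) := by
    intro m
    refine (hEv m).trans (measure_mono ?_)
    rw [hF]
    exact subset_iUnion₂ (s := fun n (_ : n ≥ m) => E n) m le_rfl
  have hge : ENNReal.ofReal (c / 4) ≤ volume (⋂ m, F m) :=
    ge_of_tendsto' hlim fun m => hFv m
  have hpos : 0 < volume ((⋂ m, F m) \ {0}) := by
    rw [measure_sdiff_null Real.volume_singleton]
    exact (ENNReal.ofReal_pos.2 (by linarith)).trans_le hge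
  obtain ⟨w, hw, hw0⟩ := nonempty_of_measure_ne_zero hpos.ne'
  rw [mem_iInter] at hw
  have hwc := hFc (hw 0)
  refine ⟨w, lt_of_le_of_ne hwc.1 fun h0 => hw0 h0.symm, hwc.2, ?_⟩
  rw [frequently_atTop]
  intro m
  have h1 := hw m
  rw [hF] at h1
  simp only [mem_iUnion] at h1
  obtain ⟨n, hn, h2⟩ := h1
  refine ⟨n, hn, ?_⟩
  rw [hE] at h2
  obtain ⟨h3, h4, h5 | h5⟩ := h2
  · exact ⟨s n, le_rfl, h5⟩
  · refine ⟨s n + u n - w, by linarith, ?_⟩
    rw [sub_add_cancel]
    exact h5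

theorem uniform_O {v : ℝ → ℝ} (hv : Measurable v) (h : SlowO v) :
    ∃ K T : ℝ, 0 ≤ K ∧ 0 ≤ T ∧ ∀ t u, T ≤ t → Real.log 2 / 2 ≤ u → u ≤ Real.log 2 → v (t + u) ≤ v t + K := by
  by_contra hcon
  push Not at hcon
  have h1 : ∀ n : ℕ, ∃ t u : ℝ, (n : ℝ) ≤ t ∧ Real.log 2 / 2 ≤ u ∧ u ≤ Real.log 2 ∧
      v t + 2 * (n : ℝ) < v (t + u) := fun n =>
    hcon (2 * (n : ℝ)) n (by positivity) (by positivity)
  choose t u ht hu1 hu2 hlt using h1
  obtain ⟨w, hw0, hwc, hfreq⟩ := unif_core hv (Real.log_pos (by norm_num)) (s := t) (u := u)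
    (κ := fun n => (n : ℝ)) hu1 hu2 (fun n => (hlt n).le)
  obtain ⟨K, T, hKT⟩ := h w hw0 hwc
  obtain ⟨m, hm⟩ := exists_nat_ge (max T K)
  rw [frequently_atTop] at hfreq
  obtain ⟨n, hn, x, hx, hv2⟩ := hfreq (m + 1)
  have hnr : ((m : ℝ) + 1) ≤ n := by exact_mod_cast hn
  have h2 := hKT x (by linarith [ht n, le_max_left T K])
  have h3 := le_max_right T K
  linarith

theorem uniform_o {v : ℝ → ℝ} (hv : Measurable v) (h : Slowo v) (ε : ℝ) (hε : 0 < ε) :
    ∃ T : ℝ, 0 ≤ T ∧ ∀ t u, T ≤ t → Real.log 2 / 2 ≤ u → u ≤ Real.log 2 → v (t + u) ≤ v t + ε := by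
  by_contra hcon
  push Not at hcon
  have h1 : ∀ n : ℕ, ∃ t u : ℝ, (n : ℝ) ≤ t ∧ Real.log 2 / 2 ≤ u ∧ u ≤ Real.log 2 ∧
      v t + ε < v (t + u) := fun n => hcon n (by positivity)
  choose t u ht hu1 hu2 hlt using h1
  obtain ⟨w, hw0, hwc, hfreq⟩ := unif_core hv (Real.log_pos (by norm_num)) (s := t) (u := u)
    (κ := fun _ => ε / 2) hu1 hu2 (fun n => by linarith [hlt n])
  obtain ⟨T, hT⟩ := h w hw0 hwc (ε / 4) (by linarith)
  obtain ⟨m, hm⟩ := exists_nat_ge T
  rw [frequently_atTop] at hfreq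
  obtain ⟨n, hn, x, hx, hv2⟩ := hfreq m
  have hnr : (m : ℝ) ≤ n := by exact_mod_cast hn
  have h2 := hT x (by linarith [ht n])
  linarith

theorem linear_slow {v : ℝ → ℝ} {c K T : ℝ} (hc : 0 < c) (hK : 0 ≤ K)
    (h : ∀ t u, T ≤ t → c / 2 ≤ u → u ≤ c → v (t + u) ≤ v t + K) :
    ∀ t u, T ≤ t → c / 2 ≤ u → v (t + u) ≤ v t + K * (1 + u / c) := by
  intro t u ht hu
  have hu0 : 0 < u := by linarith
  have huc : 0 < u / c := div_pos hu0 hc
  have huc2 : 1 / 2 ≤ u / c := by
    rw [le_div_iff₀ hc]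
    linarith
  obtain ⟨n, hn⟩ : ∃ n, n = ⌈u / c⌉₊ := ⟨_, rfl⟩
  have hn1 : 1 ≤ n := by
    rw [hn]
    exact Nat.one_le_iff_ne_zero.2 (Nat.ceil_pos.2 huc).ne'
  have hn1r : (1 : ℝ) ≤ n := by exact_mod_cast hn1
  have hn2 : u / c ≤ n := by
    rw [hn]
    exact Nat.le_ceil _
  have hn3 : (n : ℝ) < u / c + 1 := by
    rw [hn]
    exact Nat.ceil_lt_add_one huc.le
  have hn4 : (n : ℝ) ≤ 2 * (u / c) := by
    by_cases h1 : u / c ≤ 1
    · have h2 : n ≤ 1 := by
        rw [hn]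
        exact Nat.ceil_le.2 (by exact_mod_cast h1)
      have h3 : (n : ℝ) ≤ 1 := by exact_mod_cast h2
      linarith
    · push Not at h1
      linarith
  have hh1 : u / n ≤ c := by
    rw [div_le_iff₀ (by linarith)]
    rw [div_le_iff₀ hc] at hn2
    linarith
  have hh2 : c / 2 ≤ u / n := by
    rw [le_div_iff₀ (by linarith)]
    have h1 : (n : ℝ) * c ≤ 2 * u := by
      calc (n : ℝ) * c ≤ 2 * (u / c) * c := mul_le_mul_of_nonneg_right hn4 hc.le
        _ = 2 * u := by field_simp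
    linarith
  have hh0 : 0 ≤ u / n := by linarith
  have hit : ∀ j : ℕ, v (t + j * (u / n)) ≤ v t + j * K := by
    intro j
    induction j with
    | zero => simp
    | succ j ih =>
      have h1 := h (t + j * (u / n)) (u / n) (by
        have : 0 ≤ (j : ℝ) * (u / n) := by positivity
        linarith) hh2 hh1
      have h2 : t + ((j + 1 : ℕ) : ℝ) * (u / n) = t + j * (u / n) + u / n := by
        push_cast
        ring
      rw [h2]
      push_cast
      linarith
  have h1 := hit n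
  have h2 : (n : ℝ) * (u / n) = u := by field_simp
  rw [h2] at h1
  have h3 : (n : ℝ) * K ≤ (u / c + 1) * K := mul_le_mul_of_nonneg_right hn3.le hK
  linarith

theorem upper_lin {v : ℝ → ℝ} {A a c K T : ℝ} (hG : Grow v A a) (hc : 0 < c) (hK : 0 ≤ K) (hT : 0 ≤ T)
    (h : ∀ t u, T ≤ t → c / 2 ≤ u → v (t + u) ≤ v t + K * (1 + u / c)) :
    ∃ C : ℝ, 0 ≤ C ∧ ∀ t, 0 ≤ t → v t ≤ C * (1 + t) := by
  have hA := hG.hA
  have ha := hG.ha
  obtain ⟨M, hM⟩ : ∃ M, M = A * Real.exp (a * (T + c / 2)) := ⟨_, rfl⟩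
  have hM0 : 0 ≤ M := by
    rw [hM]
    positivity
  have hKc : 0 ≤ K / c := by positivity
  refine ⟨|v T| + K + K / c + M + |v 0|, by positivity, ?_⟩
  intro t ht
  have hvT := abs_nonneg (v T)
  have hv0 := abs_nonneg (v 0)
  have hC1 : |v T| + K + K / c + M + |v 0| ≤ (|v T| + K + K / c + M + |v 0|) * (1 + t) := by
    have : 0 ≤ (|v T| + K + K / c + M + |v 0|) * t := by positivity
    linarith
  by_cases h1 : T + c / 2 ≤ t
  · have h2 := h T (t - T) le_rfl (by linarith)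
    rw [add_sub_cancel] at h2
    have h3 : K * (1 + (t - T) / c) ≤ K + K / c * t := by
      have h4 : K * (1 + (t - T) / c) = K + K / c * (t - T) := by ring
      rw [h4]
      have h5 : 0 ≤ K / c * T := by positivity
      linarith
    have h4 := le_abs_self (v T)
    have h5 : 0 ≤ (|v T| + K + M + |v 0|) * t := by positivity
    have h6 : (|v T| + K + K / c + M + |v 0|) * (1 + t) =
        |v T| + K + K / c + M + |v 0| + K / c * t + (|v T| + K + M + |v 0|) * t := by ring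
    rw [h6]
    linarith
  · push Not at h1
    rcases eq_or_lt_of_le ht with h0 | h0
    · rw [← h0] at hC1 ⊢
      have := le_abs_self (v 0)
      linarith
    · have h2 := hG.bd t h0
      have h3 : A * Real.exp (a * t) ≤ M := by
        rw [hM]
        refine mul_le_mul_of_nonneg_left ?_ hA
        exact Real.exp_le_exp.2 (mul_le_mul_of_nonneg_left h1.le ha)
      have h4 := le_abs_self (v t)
      linarith

end Pool.Agent.Helper58.BSD
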