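import Mathlib
import Pool.Agent.Helper58.BSD.TUnif
import Pool.Agent.Helper58.BSD.TLand
import Pool.Agent.Helper58.BSD.TL1
import Pool.Agent.Helper58.BSD.TLocZ
import Pool.Agent.Helper58.BSD.TLocN
import Pool.Agent.Helper58.BSD.TGlue
import Pool.Agent.Helper58.BSD.TCore
import Pool.Agent.Helper58.BSD.TBdd
import Pool.Agent.Helper58.BSD.TLim
import Pool.Agent.Helper58.BSD.TRed

/-!
# Abstract theorems T1 and T2
-/

namespace Pool.Agent.Helper58.BSD

open Complex Filter Topology MeasureTheory Set Pool.Agent.Helper13.Bsd Pool.Agent.Helper7.GW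

variable {v : ℝ → ℝ} {G : ℂ → ℂ} {A a η : ℝ}

theorem Slowo.slowO (h : Slowo v) : SlowO v := by
  intro u hu hu2
  obtain ⟨T, hT⟩ := h u hu hu2 1 one_pos
  exact ⟨1, T, hT⟩

/-- all analytic facts at order zero under the one-sided growth condition -/
theorem order_zero (hS : Setup v G A a η) (h0 : G 0 ≠ 0) (hs : SlowO v) :
    (∃ B : ℝ, ∀ t, 0 ≤ t → |v t - kap G| ≤ B) ∧
    ∀ R : ℝ, 0 < R → Tendsto (fun t => ∫ u in Ioi (0 : ℝ), (v u - kap G) * kern R (t - u)) atTop (𝓝 0) := by
  have hv := hS.grow.meas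
  obtain ⟨K, T, hK, hT, h1⟩ := uniform_O hv hs
  have hlog : 0 < Real.log 2 := Real.log_pos one_lt_two
  have h2 := linear_slow hlog hK h1
  obtain ⟨C, hC, hup⟩ := upper_lin hS.grow hlog hK hT h2
  obtain ⟨hint, hid⟩ := landau_setup hS hC hup
  obtain ⟨D, hD0, hD⟩ := l1_growth hS h0 hint hid hC hup
  have hcau : ∀ B : ℝ, CauchyL1 (fun w => Lap v w - (kap G : ℂ) / w) (Icc (-B) B) := by
    intro B
    apply cauchy_glue
    · apply ContinuousOn.sub
      · exact (differentiableOn_Lap hv 0 hint).continuousOn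
      · apply ContinuousOn.div continuousOn_const continuousOn_id
        intro w hw h
        have hw' : 0 < w.re := hw
        simp only [id_eq] at h
        rw [h] at hw'
        simp at hw'
    · intro τ0
      by_cases hτ : τ0 = 0
      · subst hτ
        exact local_zero hS h0 hint hid
      · exact local_ne hS h0 hint hid τ0 hτ
  have hker := fun (R : ℝ) (hR : 0 < R) => kernel_mean hS.grow hint hD (kap G) hcau hR
  refine ⟨?_, fun R hR => (hker R hR).2⟩
  have hloc : ∀ X : ℝ, ∃ B : ℝ, ∀ t, 0 ≤ t → t ≤ X → |v t - kap G| ≤ B := by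
    intro X
    refine ⟨|v 0| + A * Real.exp (a * |X|) + |kap G|, ?_⟩
    intro t ht htX
    have hA := hS.grow.hA
    have hv0 := abs_nonneg (v 0)
    have h5 : |v t| ≤ |v 0| + A * Real.exp (a * |X|) := by
      rcases ht.eq_or_lt with h | h
      · rw [← h]
        have : 0 ≤ A * Real.exp (a * |X|) := by positivity
        linarith
      · have h6 := hS.grow.bd t h
        have h7 : Real.exp (a * t) ≤ Real.exp (a * |X|) := by
          rw [Real.exp_le_exp]
          exact mul_le_mul_of_nonneg_left (htX.trans (le_abs_self X)) hS.grow.ha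
        have h8 := mul_le_mul_of_nonneg_left h7 hA
        linarith
    have h9 := abs_sub (v t) (kap G)
    linarith
  apply tauber_bdd (f := fun t => v t - kap G) (k := kern 1) (T := T) (u0 := Real.log 2 / 2)
    (K := K * (1 + 1 / Real.log 2)) (hv.sub_const _) hloc hT (by positivity) (by positivity) ?_
    (kern_nonneg 1) (integrable_kern one_pos) (integrable_abs_kern one_pos) (mass_pos one_pos)
    (hker 1 one_pos).1
  · have h3 := (hker 1 one_pos).2
    have h4 := Metric.tendsto_atTop.mp h3 1 one_pos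
    obtain ⟨T', hT'⟩ := h4
    refine ⟨1, T', fun t ht => ?_⟩
    have := hT' t ht
    rw [Real.dist_eq, sub_zero] at this
    exact this.le
  · intro t u ht hu
    have h5 := h2 t u ht hu
    have hu0 : 0 ≤ u := by linarith
    have h6 : K * (1 + u / Real.log 2) ≤ K * (1 + 1 / Real.log 2) * (1 + u) := by
      rw [mul_assoc]
      apply mul_le_mul_of_nonneg_left _ hK
      have h7 : (1 + 1 / Real.log 2) * (1 + u) = 1 + u / Real.log 2 + (u + 1 / Real.log 2) := by
        field_simp
        ring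
      rw [h7]
      have : 0 < 1 / Real.log 2 := by positivity
      linarith
    linarith

/-- Abstract T1. -/
theorem abs_bounded (hS : Setup v G A a η) (r : ℕ) (g : ℝ) (hg0 : 0 < g)
    (hg : Tendsto (fun y : ℝ => ‖G (y : ℂ)‖ / y ^ r) (𝓝[>] 0) (𝓝 g)) (hs : SlowO v) :
    ∃ B : ℝ, ∀ t, 1 ≤ t → |v t - r * Real.log t| ≤ B := by
  obtain ⟨G1, hG1, hfac, hG10⟩ := factor_order hS r g hg0 hg
  have hS0 := setup_reduce hS r G1 hG1 hfac
  have h0 : (fun s => G1 s * (1 + s) ^ r) (0 : ℂ) ≠ 0 := by
    simp only [add_zero, one_pow, mul_one]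
    rw [← norm_pos_iff, hG10]
    exact hg0
  have hs0 : SlowO (fun t => v t - r * ein t) := by
    intro u hu hu2
    obtain ⟨K, T, h⟩ := hs u hu hu2
    refine ⟨K, max T 0, fun t ht => ?_⟩
    have h1 := h t ((le_max_left _ _).trans ht)
    have h2 := ein_mono ((le_max_right _ _).trans ht) (by linarith : t ≤ t + u)
    have h3 := mul_le_mul_of_nonneg_left h2 (Nat.cast_nonneg (α := ℝ) r)
    simp only
    linarith
  obtain ⟨⟨B, hB⟩, -⟩ := order_zero hS0 h0 hs0
  -- `ein t - log t` is bounded on `[1, ∞)`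
  obtain ⟨B2, hB2⟩ : ∃ B2 : ℝ, ∀ t, 1 ≤ t → |ein t - Real.log t| ≤ B2 := by
    have h1 := Metric.tendsto_atTop.mp ein_log 1 one_pos
    obtain ⟨T, hT⟩ := h1
    refine ⟨|Real.eulerMascheroniConstant| + 1 + |T| + |T|, fun t ht => ?_⟩
    by_cases h : T ≤ t
    · have h2 := hT t h
      rw [Real.dist_eq] at h2
      have h3 : |ein t - Real.log t| ≤ |ein t - Real.log t - Real.eulerMascheroniConstant|
          + |Real.eulerMascheroniConstant| := by
        have := abs_add_le (ein t - Real.log t - Real.eulerMascheroniConstant) Real.eulerMascheroniConstant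
        simpa using this
      have := abs_nonneg T
      linarith
    · push Not at h
      have h3 := ein_nonneg (by linarith : 0 ≤ t)
      have h4 := ein_le (by linarith : 0 ≤ t)
      have h5 : 0 ≤ Real.log t := Real.log_nonneg ht
      have h6 : Real.log t ≤ t - 1 := Real.log_le_sub_one_of_pos (by linarith)
      have h7 : t ≤ |T| := h.le.trans (le_abs_self T)
      have h8 := abs_nonneg Real.eulerMascheroniConstant
      rw [abs_le]
      constructor <;> linarith
  refine ⟨B + |kap (fun s => G1 s * (1 + s) ^ r)| + r * B2, fun t ht => ?_⟩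
  have h1 := hB t (by linarith)
  have h2 := hB2 t ht
  have e : v t - r * Real.log t = (v t - r * ein t - kap (fun s => G1 s * (1 + s) ^ r))
      + kap (fun s => G1 s * (1 + s) ^ r) + r * (ein t - Real.log t) := by ring
  rw [e]
  refine (abs_add_three _ _ _).trans ?_
  rw [abs_mul, abs_of_nonneg (Nat.cast_nonneg (α := ℝ) r)]
  have h3 := mul_le_mul_of_nonneg_left h2 (Nat.cast_nonneg (α := ℝ) r)
  linarith

/-- Abstract T2. -/
theorem abs_tendsto (hS : Setup v G A a η) (r : ℕ) (g : ℝ) (hg0 : 0 < g)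
    (hg : Tendsto (fun y : ℝ => ‖G (y : ℂ)‖ / y ^ r) (𝓝[>] 0) (𝓝 g)) (hs : Slowo v) :
    Tendsto (fun t => v t - r * Real.log t) atTop
      (𝓝 (r * Real.eulerMascheroniConstant - Real.log g)) := by
  obtain ⟨G1, hG1, hfac, hG10⟩ := factor_order hS r g hg0 hg
  have hS0 := setup_reduce hS r G1 hG1 hfac
  have h0 : (fun s => G1 s * (1 + s) ^ r) (0 : ℂ) ≠ 0 := by
    simp only [add_zero, one_pow, mul_one]
    rw [← norm_pos_iff, hG10]
    exact hg0
  have hs0 : Slowo (fun t => v t - r * ein t) := by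
    intro u hu hu2 ε hε
    obtain ⟨T, h⟩ := hs u hu hu2 ε hε
    refine ⟨max T 0, fun t ht => ?_⟩
    have h1 := h t ((le_max_left _ _).trans ht)
    have h2 := ein_mono ((le_max_right _ _).trans ht) (by linarith : t ≤ t + u)
    have h3 := mul_le_mul_of_nonneg_left h2 (Nat.cast_nonneg (α := ℝ) r)
    simp only
    linarith
  obtain ⟨⟨B, hB⟩, hker⟩ := order_zero hS0 h0 hs0.slowO
  have hkap : kap (fun s => G1 s * (1 + s) ^ r) = -Real.log g := by
    unfold kap
    simp only [add_zero, one_pow, mul_one]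
    rw [hG10]
  have h1 : Tendsto (fun t => v t - r * ein t - kap (fun s => G1 s * (1 + s) ^ r)) atTop (𝓝 0) := by
    apply tauber_lim (B := B) (hS0.grow.meas.sub_const _) hB ?_ hker
    intro ε hε
    obtain ⟨T, hT, h⟩ := uniform_o hS0.grow.meas hs0 ε hε
    refine ⟨T, hT, fun t u ht hu hu2 => ?_⟩
    have := h t u ht hu hu2
    linarith
  have h2 := (ein_log.const_mul (r : ℝ))
  have h3 := (h1.add h2).add_const (kap (fun s => G1 s * (1 + s) ^ r))
  have e1 : (0 : ℝ) + r * Real.eulerMascheroniConstant + kap (fun s => G1 s * (1 + s) ^ r)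
      = r * Real.eulerMascheroniConstant - Real.log g := by
    rw [hkap]; ring
  rw [e1] at h3
  refine h3.congr fun t => ?_
  ring

end Pool.Agent.Helper58.BSD
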