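import Mathlib
import Pool.Agent.Helper58.BSD.TTop
import Pool.Agent.Helper58.BSD.BFrame

/-!
# T1 and T2 for elliptic curves
-/

namespace Pool.Agent.Helper58.BSD

open Complex Filter Topology MeasureTheory Set Pool.Agent.Helper13.Bsd Pool.Agent.Helper7.GW

section

variable (W : WeierstrassCurve ℤ) (N : ℕ → ℕ)
    (hNdef : ∀ p : ℕ, N p = 1 + ((Finset.range p ×ˢ Finset.range p).filter
      (fun q : ℕ × ℕ => (p : ℤ) ∣ ((q.2 : ℤ) ^ 2 + W.a₁ * (q.1 : ℤ) * (q.2 : ℤ) + W.a₃ * (q.2 : ℤ)
        - ((q.1 : ℤ) ^ 3 + W.a₂ * (q.1 : ℤ) ^ 2 + W.a₄ * (q.1 : ℤ) + W.a₆)))).card)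

/-- one-sided slow variation of `P` -/
def PSlow (P : ℝ → ℝ) : Prop :=
  ∀ lam : ℝ, 1 < lam → lam ≤ 2 → ∀ ε : ℝ, 0 < ε → ∃ X : ℝ, ∀ x : ℝ, X ≤ x → P (lam * x) ≤ (1 + ε) * P x

/-- one-sided bounded growth of `P` -/
def PSlowO (P : ℝ → ℝ) : Prop :=
  ∀ lam : ℝ, 1 < lam → lam ≤ 2 → ∃ K X : ℝ, ∀ x : ℝ, X ≤ x → P (lam * x) ≤ K * P x

include hNdef in
lemma PE_pos' (x : ℝ) : 0 < PE W N x := PE_pos W N hNdef x

include hNdef in
lemma slow_of_PSlow (h : PSlow (PE W N)) (u : ℝ) (hu : 0 < u) (hu2 : u ≤ Real.log 2) (ε : ℝ) (hε : 0 < ε) :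
    ∃ T : ℝ, ∀ t, T ≤ t → LL N (badW W) (t + u) ≤ LL N (badW W) t + ε := by
  have hε' : 0 < Real.exp ε - 1 := by
    have := Real.add_one_le_exp ε
    linarith
  have h1 : 1 < Real.exp u := Real.one_lt_exp_iff.mpr hu
  have h2 : Real.exp u ≤ 2 := by
    rw [← Real.exp_log (show (0 : ℝ) < 2 by norm_num)]
    exact Real.exp_le_exp.mpr hu2
  obtain ⟨X, hX⟩ := h (Real.exp u) h1 h2 (Real.exp ε - 1) hε'
  refine ⟨Real.log (max X 1), fun t ht => ?_⟩
  have h3 : X ≤ Real.exp t := by
    rw [Real.log_le_iff_le_exp (by positivity)] at ht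
    exact (le_max_left _ _).trans ht
  have h4 := hX (Real.exp t) h3
  rw [← Real.exp_add, add_comm u t, PE_exp W N hNdef, PE_exp W N hNdef] at h4
  have h5 : (1 + (Real.exp ε - 1)) * Real.exp (LL N (badW W) t)
      = Real.exp (LL N (badW W) t + ε) := by
    rw [Real.exp_add]; ring
  rw [h5, Real.exp_le_exp] at h4
  exact h4

include hNdef in
lemma slowO_of_PSlowO (h : PSlowO (PE W N)) : SlowO (LL N (badW W)) := by
  intro u hu hu2
  have h1 : 1 < Real.exp u := Real.one_lt_exp_iff.mpr hu
  have h2 : Real.exp u ≤ 2 := by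
    rw [← Real.exp_log (show (0 : ℝ) < 2 by norm_num)]
    exact Real.exp_le_exp.mpr hu2
  obtain ⟨K, X, hX⟩ := h (Real.exp u) h1 h2
  refine ⟨Real.log (max K 1), Real.log (max X 1), fun t ht => ?_⟩
  have h3 : X ≤ Real.exp t := by
    rw [Real.log_le_iff_le_exp (by positivity)] at ht
    exact (le_max_left _ _).trans ht
  have h4 := hX (Real.exp t) h3
  rw [← Real.exp_add, add_comm u t, PE_exp W N hNdef, PE_exp W N hNdef] at h4
  have h5 : Real.exp (LL N (badW W) (t + u)) ≤ Real.exp (LL N (badW W) t + Real.log (max K 1)) := by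
    rw [Real.exp_add, Real.exp_log (by positivity), mul_comm]
    refine h4.trans ?_
    gcongr
    exact le_max_left _ _
  rwa [Real.exp_le_exp] at h5

include hNdef in
/-- T1: exact order. -/
theorem order_criterion (hΔ : W.Δ ≠ 0) (F : ℂ → ℂ) (hFd : Differentiable ℂ F) (hF : EulerHyp W N F) :
    PSlowO (PE W N) ↔ ∃ c C : ℝ, 0 < c ∧ ∀ᶠ x : ℝ in atTop,
      c * Real.log x ^ (analyticOrderNatAt F 1) ≤ PE W N x ∧
      PE W N x ≤ C * Real.log x ^ (analyticOrderNatAt F 1) := by
  set r := analyticOrderNatAt F 1 with hr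
  constructor
  · intro h
    obtain ⟨e, G, A, η, C0, E, hS, -, hC0, -, -, hg0, hg, -, -⟩ := bsd_frame W N hNdef hΔ F hFd hF
    rw [← hr] at hg0 hg
    have h1 := slowO_of_PSlowO W N hNdef h
    have h2 : SlowO (fun t => LL N (badW W) t - e t) := by
      intro u hu hu2
      obtain ⟨K, T, hT⟩ := h1 u hu hu2
      refine ⟨K + 2 * C0, max T 1, fun t ht => ?_⟩
      have h3 := hT t ((le_max_left _ _).trans ht)
      have ht1 : 1 ≤ t := (le_max_right _ _).trans ht
      have h4 := (abs_le.mp (hC0 t (by linarith))).2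
      have h5 := (abs_le.mp (hC0 (t + u) (by linarith))).1
      simp only
      linarith
    obtain ⟨B, hB⟩ := abs_bounded hS r _ hg0 hg h2
    refine ⟨Real.exp (-(B + C0)), Real.exp (B + C0), Real.exp_pos _, ?_⟩
    filter_upwards [eventually_ge_atTop (Real.exp 1)] with x hx
    have hx0 : 0 < x := (Real.exp_pos _).trans_le hx
    have hlx : 1 ≤ Real.log x := by rwa [Real.le_log_iff_exp_le hx0]
    have hlx0 : 0 < Real.log x := by linarith
    have h3 := abs_le.mp (hB (Real.log x) hlx)
    have h4 := abs_le.mp (hC0 (Real.log x) hlx0)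
    have h5 : Real.log x ^ r = Real.exp (r * Real.log (Real.log x)) := by
      rw [← Real.log_pow, Real.exp_log (by positivity)]
    rw [PE_eq W N hNdef x hx0, h5, ← Real.exp_add, ← Real.exp_add, Real.exp_le_exp, Real.exp_le_exp]
    constructor <;> linarith [h3.1, h3.2, h4.1, h4.2]
  · rintro ⟨c, C, hc, h⟩ lam hlam hlam2
    obtain ⟨X, hX⟩ := eventually_atTop.mp h
    refine ⟨|C| * 2 ^ r / c, max X 2, fun x hx => ?_⟩
    have hxX : X ≤ x := (le_max_left _ _).trans hx
    have hx2 : 2 ≤ x := (le_max_right _ _).trans hx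
    have h1 := (hX x hxX).1
    have h2 := (hX (lam * x) (by nlinarith)).2
    have h3 : Real.log (lam * x) ≤ 2 * Real.log x := by
      rw [← Real.log_rpow (by linarith)]
      apply Real.log_le_log (by positivity)
      norm_cast
      nlinarith
    have h4 : 0 ≤ Real.log (lam * x) := Real.log_nonneg (by nlinarith)
    have hlx : 0 ≤ Real.log x := Real.log_nonneg (by linarith)
    have h5 : C * Real.log (lam * x) ^ r ≤ |C| * (2 * Real.log x) ^ r := by
      calc C * Real.log (lam * x) ^ r ≤ |C| * Real.log (lam * x) ^ r := by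
            gcongr
            exact le_abs_self C
        _ ≤ _ := by gcongr
    calc PE W N (lam * x) ≤ |C| * (2 * Real.log x) ^ r := h2.trans h5
      _ = |C| * 2 ^ r / c * (c * Real.log x ^ r) := by
          rw [mul_pow]
          field_simp
      _ ≤ |C| * 2 ^ r / c * PE W N x := by gcongr

/-- the constant of the asymptotic of `P exp SS` -/
noncomputable def kon (F : ℂ → ℂ) : ℝ :=
  2 * Real.exp ((analyticOrderNatAt F 1 : ℕ) * Real.eulerMascheroniConstant) *
    ((analyticOrderNatAt F 1).factorial : ℝ) / ‖iteratedDeriv (analyticOrderNatAt F 1) F 1‖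

include hNdef in
theorem kon_pos (hΔ : W.Δ ≠ 0) (F : ℂ → ℂ) (hFd : Differentiable ℂ F) (hF : EulerHyp W N F) : 0 < kon F := by
  obtain ⟨e, G, A, η, C0, E, hS, -, hC0, -, -, hg0, hg, -, -⟩ := bsd_frame W N hNdef hΔ F hFd hF
  have h1 : ‖iteratedDeriv (analyticOrderNatAt F 1) F 1‖ ≠ 0 := by
    intro h
    rw [h] at hg0
    simp at hg0
  unfold kon
  have := norm_nonneg (iteratedDeriv (analyticOrderNatAt F 1) F 1)
  have h2 : 0 < ‖iteratedDeriv (analyticOrderNatAt F 1) F 1‖ := lt_of_le_of_ne this (Ne.symm h1)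
  positivity

include hNdef in
/-- T2, forward: one-sided slow variation gives the asymptotic with the explicit constant. -/
theorem slow_to_limit (hΔ : W.Δ ≠ 0) (F : ℂ → ℂ) (hFd : Differentiable ℂ F) (hF : EulerHyp W N F)
    (h : PSlow (PE W N)) :
    Tendsto (fun x : ℝ => PE W N x * Real.exp (SS W N x) / Real.log x ^ (analyticOrderNatAt F 1)) atTop
      (𝓝 (kon F)) := by
  set r := analyticOrderNatAt F 1 with hr
  obtain ⟨e, G, A, η, C0, E, hS, -, hC0, hosc, -, hg0, hg, hlim, -⟩ := bsd_frame W N hNdef hΔ F hFd hF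
  rw [← hr] at hg0 hg
  have h2 : Slowo (fun t => LL N (badW W) t - e t) := by
    intro u hu hu2 ε hε
    obtain ⟨T, hT⟩ := slow_of_PSlow W N hNdef h u hu hu2 (ε / 2) (by linarith)
    obtain ⟨T2, hT2⟩ := Metric.tendsto_atTop.mp (hosc u hu) (ε / 2) (by linarith)
    refine ⟨max T T2, fun t ht => ?_⟩
    have h3 := hT t ((le_max_left _ _).trans ht)
    have h4 := hT2 t ((le_max_right _ _).trans ht)
    rw [Real.dist_eq, sub_zero] at h4
    have h5 := (abs_lt.mp h4).1
    simp only
    linarith
  have h3 := (abs_tendsto hS r _ hg0 hg h2).add hlim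
  have h4 : Tendsto (fun t : ℝ => LL N (badW W) t + SS W N (Real.exp t) - r * Real.log t) atTop
      (𝓝 (r * Real.eulerMascheroniConstant - Real.log (‖iteratedDeriv r F 1‖ / (r.factorial : ℝ)
        * Real.exp E) + (Real.log 2 + E))) := by
    apply h3.congr
    intro t
    ring
  have h5 := (Real.continuous_exp.tendsto _).comp (h4.comp Real.tendsto_log_atTop)
  have hpos : 0 < ‖iteratedDeriv r F 1‖ := by
    have h1 : ‖iteratedDeriv r F 1‖ ≠ 0 := by
      intro h
      rw [h] at hg0
      simp at hg0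
    exact lt_of_le_of_ne (norm_nonneg _) (Ne.symm h1)
  have hkon : Real.exp (r * Real.eulerMascheroniConstant - Real.log (‖iteratedDeriv r F 1‖ / (r.factorial : ℝ)
        * Real.exp E) + (Real.log 2 + E)) = kon F := by
    rw [Real.exp_add, Real.exp_sub, Real.exp_log hg0, Real.exp_add, Real.exp_log two_pos]
    unfold kon
    rw [← hr]
    have := Real.exp_pos E
    field_simp
  rw [hkon] at h5
  apply h5.congr'
  filter_upwards [eventually_ge_atTop (Real.exp 1)] with x hx
  have hx0 : 0 < x := (Real.exp_pos _).trans_le hx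
  have hlx : 1 ≤ Real.log x := by rwa [Real.le_log_iff_exp_le hx0]
  have hlx0 : 0 < Real.log x := by linarith
  have h6 : Real.log x ^ r = Real.exp (r * Real.log (Real.log x)) := by
    rw [← Real.log_pow, Real.exp_log (by positivity)]
  simp only [Function.comp]
  rw [Real.exp_log hx0, Real.exp_sub, Real.exp_add, PE_eq W N hNdef x hx0, h6]

lemma log_ratio (lam : ℝ) (hlam : 1 < lam) (r : ℕ) :
    Tendsto (fun x : ℝ => Real.log (lam * x) ^ r / Real.log x ^ r) atTop (𝓝 1) := by
  have h1 : Tendsto (fun x : ℝ => (Real.log lam / Real.log x + 1) ^ r) atTop (𝓝 1) := by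
    have h2 := (Real.tendsto_log_atTop.const_div_atTop (Real.log lam)).add_const 1
    have h3 := h2.pow r
    simpa using h3
  apply h1.congr'
  filter_upwards [eventually_gt_atTop 1] with x hx
  have hlx := Real.log_pos hx
  rw [← div_pow, Real.log_mul (by linarith) (by linarith)]
  congr 1
  field_simp

include hNdef in
/-- T2, backward. -/
theorem limit_to_slow (hΔ : W.Δ ≠ 0) (F : ℂ → ℂ) (hFd : Differentiable ℂ F) (hF : EulerHyp W N F)
    {L : ℝ} (hL : 0 < L)
    (h : Tendsto (fun x : ℝ => PE W N x * Real.exp (SS W N x) / Real.log x ^ (analyticOrderNatAt F 1)) atTop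
      (𝓝 L)) : PSlow (PE W N) := by
  set r := analyticOrderNatAt F 1 with hr
  obtain ⟨e, G, A, η, C0, E, hS, -, hC0, hosc, -, hg0, hg, hlim, -⟩ := bsd_frame W N hNdef hΔ F hFd hF
  intro lam hlam hlam2 ε hε
  -- `SS (lam x) - SS x → 0`
  have hloglam : 0 < Real.log lam := Real.log_pos hlam
  have hSS : Tendsto (fun x : ℝ => SS W N (lam * x) - SS W N x) atTop (𝓝 0) := by
    have h1 : Tendsto (fun t : ℝ => SS W N (Real.exp (t + Real.log lam)) - SS W N (Real.exp t)) atTop
        (𝓝 0) := by
      have h2 := (hlim.comp (tendsto_atTop_add_const_right atTop (Real.log lam) tendsto_id)).sub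
        (hlim.add (hosc (Real.log lam) hloglam))
      simp only [add_zero, sub_self] at h2
      refine h2.congr fun t => ?_
      simp only [Function.comp, id]
      ring
    apply (h1.comp Real.tendsto_log_atTop).congr'
    filter_upwards [eventually_gt_atTop 0] with x hx
    simp only [Function.comp]
    rw [Real.exp_add, Real.exp_log hx, Real.exp_log (by linarith), mul_comm x lam]
  have hlamtop : Tendsto (fun x : ℝ => lam * x) atTop atTop :=
    tendsto_id.const_mul_atTop (by linarith)
  have h3 : Tendsto (fun x : ℝ => PE W N (lam * x) / PE W N x) atTop (𝓝 1) := by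
    have h4 := ((h.comp hlamtop).div h hL.ne').mul ((log_ratio lam hlam r).mul
      ((Real.continuous_exp.tendsto _).comp hSS.neg))
    rw [neg_zero, Real.exp_zero, div_self hL.ne', mul_one, mul_one] at h4
    apply h4.congr'
    filter_upwards [eventually_gt_atTop 1] with x hx
    have hlx := Real.log_pos hx
    have hllx : 0 < Real.log (lam * x) := Real.log_pos (by nlinarith)
    have hP := PE_pos W N hNdef x
    have hE1 := Real.exp_pos (SS W N x)
    simp only [Function.comp, Pi.div_apply]
    have e1 : Real.exp (-(SS W N (lam * x) - SS W N x)) = Real.exp (SS W N x) / Real.exp (SS W N (lam * x)) := by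
      rw [← Real.exp_sub]; congr 1; ring
    rw [e1]
    field_simp
  obtain ⟨X, hX⟩ := Metric.tendsto_atTop.mp h3 ε hε
  refine ⟨X, fun x hx => ?_⟩
  have h5 := hX x hx
  rw [Real.dist_eq] at h5
  have h6 := (abs_lt.mp h5).2
  have hP := PE_pos W N hNdef x
  have h7 : PE W N (lam * x) / PE W N x ≤ 1 + ε := by linarith
  rwa [div_le_iff₀ hP] at h7

lemma equiv_iff (P : ℝ → ℝ) (r : ℕ) (C : ℝ) (hC : C ≠ 0) :
    Asymptotics.IsEquivalent atTop P (fun x : ℝ => C * Real.log x ^ r) ↔
    Tendsto (fun x : ℝ => P x / Real.log x ^ r) atTop (𝓝 C) := by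
  have hne : ∀ᶠ x : ℝ in atTop, C * Real.log x ^ r ≠ 0 := by
    filter_upwards [eventually_gt_atTop 1] with x hx
    have := Real.log_pos hx
    exact mul_ne_zero hC (by positivity)
  rw [Asymptotics.isEquivalent_iff_tendsto_one hne]
  constructor
  · intro h
    have h2 := h.const_mul C
    rw [mul_one] at h2
    apply h2.congr'
    filter_upwards [eventually_gt_atTop 1] with x hx
    have := Real.log_pos hx
    simp only [Pi.div_apply]
    field_simp
  · intro h
    have h2 := h.const_mul C⁻¹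
    rw [inv_mul_cancel₀ hC] at h2
    apply h2.congr'
    filter_upwards [eventually_gt_atTop 1] with x hx
    have := Real.log_pos hx
    simp only [Pi.div_apply]
    field_simp

include hNdef in
/-- T2: the Birch and Swinnerton-Dyer asymptotic as one-sided slow variation. -/
theorem slow_criterion (hΔ : W.Δ ≠ 0) (F : ℂ → ℂ) (hFd : Differentiable ℂ F) (hF : EulerHyp W N F) :
    (PSlow (PE W N) ↔
      Tendsto (fun x : ℝ => PE W N x * Real.exp (SS W N x) / Real.log x ^ (analyticOrderNatAt F 1)) atTop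
        (𝓝 (kon F))) ∧
    ((∃ C : ℝ, C ≠ 0 ∧ Asymptotics.IsEquivalent atTop (PE W N)
      (fun x : ℝ => C * Real.log x ^ (analyticOrderNatAt F 1))) ↔
      PSlow (PE W N) ∧ ∃ s : ℝ, Tendsto (SS W N) atTop (𝓝 s)) := by
  have hk := kon_pos W N hNdef hΔ F hFd hF
  have hA : PSlow (PE W N) ↔
      Tendsto (fun x : ℝ => PE W N x * Real.exp (SS W N x) / Real.log x ^ (analyticOrderNatAt F 1)) atTop
        (𝓝 (kon F)) :=
    ⟨slow_to_limit W N hNdef hΔ F hFd hF, limit_to_slow W N hNdef hΔ F hFd hF hk⟩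
  refine ⟨hA, ?_⟩
  set r := analyticOrderNatAt F 1 with hr
  constructor
  · rintro ⟨C, hC, h⟩
    rw [equiv_iff _ _ _ hC] at h
    have hC0 : 0 ≤ C := by
      apply ge_of_tendsto h
      filter_upwards [eventually_gt_atTop 1] with x hx
      have := Real.log_pos hx
      have := PE_pos W N hNdef x
      positivity
    have hCpos : 0 < C := lt_of_le_of_ne hC0 (Ne.symm hC)
    have hslow : PSlow (PE W N) := by
      intro lam hlam hlam2 ε hε
      have hlamtop : Tendsto (fun x : ℝ => lam * x) atTop atTop :=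
        tendsto_id.const_mul_atTop (by linarith)
      have h3 : Tendsto (fun x : ℝ => PE W N (lam * x) / PE W N x) atTop (𝓝 1) := by
        have h4 := ((h.comp hlamtop).div h hC).mul (log_ratio lam hlam r)
        rw [div_self hC, mul_one] at h4
        apply h4.congr'
        filter_upwards [eventually_gt_atTop 1] with x hx
        have hlx := Real.log_pos hx
        have hllx : 0 < Real.log (lam * x) := Real.log_pos (by nlinarith)
        have hP := PE_pos W N hNdef x
        simp only [Function.comp, Pi.div_apply]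
        field_simp
      obtain ⟨X, hX⟩ := Metric.tendsto_atTop.mp h3 ε hε
      refine ⟨X, fun x hx => ?_⟩
      have h5 := hX x hx
      rw [Real.dist_eq] at h5
      have h6 := (abs_lt.mp h5).2
      have hP := PE_pos W N hNdef x
      have h7 : PE W N (lam * x) / PE W N x ≤ 1 + ε := by linarith
      rwa [div_le_iff₀ hP] at h7
    refine ⟨hslow, ?_⟩
    have h1 := hA.mp hslow
    have h2 : Tendsto (fun x : ℝ => Real.exp (SS W N x)) atTop (𝓝 (kon F / C)) := by
      apply (h1.div h hC).congr'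
      filter_upwards [eventually_gt_atTop 1] with x hx
      have hlx := Real.log_pos hx
      have hP := PE_pos W N hNdef x
      simp only [Pi.div_apply]
      field_simp
    refine ⟨Real.log (kon F / C), ?_⟩
    have h3 := (Real.continuousAt_log (by positivity : kon F / C ≠ 0)).tendsto.comp h2
    refine h3.congr fun x => ?_
    simp only [Function.comp, Real.log_exp]
  · rintro ⟨hslow, s, hs⟩
    have h1 := hA.mp hslow
    refine ⟨kon F * Real.exp (-s), by positivity, ?_⟩
    rw [equiv_iff _ _ _ (by positivity)]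
    have h2 := h1.mul ((Real.continuous_exp.tendsto _).comp hs.neg)
    refine h2.congr fun x => ?_
    simp only [Function.comp]
    rw [Real.exp_neg]
    have := Real.exp_pos (SS W N x)
    field_simp

end

end Pool.Agent.Helper58.BSD
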